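import Pool.Agent.H54.RTFinal

/-!
# The sandwich in terms of `Q(3,·)`
-/

set_option maxHeartbeats 1000000

open Finset Filter Topology

namespace Pool.Agent.H54.RT

/-- version of `Q_le_of_subset` using only independent sets inside `S`. -/
lemma Q_le_of_subset' {V : Type*} [Fintype V] [DecidableEq V] (G : SimpleGraph V) (hG : G.CliqueFree 3)
    (S : Finset V) (m a : ℕ)
    (hm : m ≤ #S) (ha : ∀ s : Finset V, s ⊆ S → G.IsIndepSet (s : Set V) → #s ≤ a) :
    Q 3 m ≤ a := by
  classical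
  apply Q_le_of (V := S) (G.comap (Function.Embedding.subtype (· ∈ S))) _ m a
  · rw [Fintype.card_coe]; exact hm
  · intro s hs
    have h2 := ha (s.map (Function.Embedding.subtype (· ∈ S)))
    rw [card_map] at h2
    apply h2
    · intro x hx
      rw [Finset.mem_map] at hx
      obtain ⟨y, _, rfl⟩ := hx
      exact y.2
    · rw [coe_map]
      rintro _ ⟨x, hx, rfl⟩ _ ⟨y, hy, rfl⟩ hxy
      exact hs hx hy (fun h => hxy (by rw [h]))
  · exact hG.comap ⟨(SimpleGraph.Embedding.comap (Function.Embedding.subtype (· ∈ S)) G).toCopy⟩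

/-- removing a vertex and its neighbourhood -/
lemma Q_drop_one (m : ℕ) (hm : 1 ≤ m) : Q 3 (m - (1 + Q 3 m)) + 1 ≤ Q 3 m := by
  classical
  obtain ⟨G, hG, hQ⟩ := exists_Q m
  have ha := (indepNum_le_iff G _).1 hQ.le
  let v : Fin m := ⟨0, hm⟩
  let N : Finset (Fin m) := univ.filter fun w => G.Adj v w
  have hN : #N ≤ Q 3 m := by
    apply ha
    intro x hx y hy _ hadj
    simp only [N, coe_filter, mem_univ, true_and, Set.mem_ofPred_eq] at hx hy
    exact hG {v, x, y} (SimpleGraph.is3Clique_triple_iff.2 ⟨hx, hy, hadj⟩)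
  let S : Finset (Fin m) := univ \ insert v N
  have hS : m - (1 + Q 3 m) ≤ #S := by
    have h1 : #(univ : Finset (Fin m)) - #(insert v N) ≤ #S := le_card_sdiff _ _
    have h2 := card_insert_le v N
    rw [card_univ, Fintype.card_fin] at h1
    omega
  have h1 : 1 ≤ Q 3 m := one_le_Q hm
  have h2 := Q_le_of_subset' G hG S (m - (1 + Q 3 m)) (Q 3 m - 1) hS (by
    intro s hs hind
    have hv : v ∉ s := by
      intro h
      have := hs h
      simp [S] at this
    have h3 := ha (insert v s) (by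
      intro x hx y hy hxy
      rw [coe_insert, Set.mem_insert_iff, mem_coe] at hx hy
      have hnb : ∀ z ∈ s, ¬ G.Adj v z := by
        intro z hz hadj
        have := hs hz
        simp [S, N, hadj] at this
      rcases hx with rfl | hx
      · rcases hy with rfl | hy
        · exact absurd rfl hxy
        · exact hnb y hy
      · rcases hy with rfl | hy
        · intro h; exact hnb x hx h.symm
        · exact hind hx hy hxy)
    rw [card_insert_of_notMem hv] at h3
    omega)
  omega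

lemma Q_drop (m j : ℕ) (hj : j * (1 + Q 3 m) ≤ m) : Q 3 (m - j * (1 + Q 3 m)) + j ≤ Q 3 m := by
  induction j with
  | zero => simp
  | succ j ih =>
    rw [Nat.succ_mul] at hj
    have h1 := ih (by omega)
    set m' := m - j * (1 + Q 3 m) with hm'
    have h2 := Q_drop_one m' (by omega)
    have h3 : Q 3 m' ≤ Q 3 m := Q_mono (by omega)
    have h4 : m - (j + 1) * (1 + Q 3 m) ≤ m' - (1 + Q 3 m') := by
      rw [Nat.succ_mul]
      omega
    have h5 := Q_mono h4
    omega

/-- The largest `k` with `Q(3,k) < c · Q(3,n/2)`. -/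
noncomputable def kc (c : ℝ) (n : ℕ) : ℕ := sSup {k : ℕ | (Q 3 k : ℝ) < c * Q 3 (n / 2)}

lemma kc_bdd (c : ℝ) (hc : c ≤ 1) (n : ℕ) :
    ∀ k : ℕ, (Q 3 k : ℝ) < c * Q 3 (n / 2) → k < n / 2 := by
  intro k hk
  by_contra hcon
  push Not at hcon
  have h1 : (Q 3 (n / 2) : ℝ) ≤ Q 3 k := by exact_mod_cast Q_mono hcon
  have h2 : c * (Q 3 (n / 2) : ℝ) ≤ 1 * Q 3 (n / 2) := by gcongr
  linarith

lemma kc_spec (c : ℝ) (hc0 : 0 < c) (hc : c ≤ 1) (n : ℕ) (hn : 2 ≤ n) :
    (Q 3 (kc c n) : ℝ) < c * Q 3 (n / 2) ∧ c * Q 3 (n / 2) ≤ Q 3 (kc c n + 1) := by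
  have hb : BddAbove {k : ℕ | (Q 3 k : ℝ) < c * Q 3 (n / 2)} :=
    ⟨n / 2, fun k hk => (kc_bdd c hc n k hk).le⟩
  have h1 : (1 : ℝ) ≤ Q 3 (n / 2) := by exact_mod_cast one_le_Q (by omega)
  have hne : {k : ℕ | (Q 3 k : ℝ) < c * Q 3 (n / 2)}.Nonempty := by
    refine ⟨0, ?_⟩
    show (Q 3 0 : ℝ) < c * Q 3 (n / 2)
    have : Q 3 0 ≤ 0 := Q_le 0
    have h2 : Q 3 0 = 0 := by omega
    rw [h2]
    push_cast
    positivity
  constructor
  · exact Nat.sSup_mem hne hb
  · by_contra hcon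
    push Not at hcon
    have : kc c n + 1 ≤ kc c n := le_csSup hb hcon
    omega

/-- **Sandwich theorem** -/
theorem sandwich (c : ℝ) (hc0 : 0 < c) (hc : c ≤ 1) (ε : ℝ) (hε : 0 < ε) : ∀ᶠ n : ℕ in atTop,
    (kc c n : ℝ) ^ 2 - ε * (n : ℝ) ^ 2 ≤ RTnum n 5 (fc c n) ∧
    (RTnum n 5 (fc c n) : ℝ) ≤ (n : ℝ) ^ 2 / 8 + n * kc c n / 4 + ε * (n : ℝ) ^ 2 := by
  filter_upwards [RT_upper c (ε / 2) hc (by positivity),
    (tendsto_natCast_atTop_atTop (R := ℝ)).eventually_ge_atTop (2 / ε),
    eventually_ge_atTop 2, lower_graph 1 le_rfl,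
    rpow_small (45 / 100) (by norm_num) (ε / 2) (by positivity),
    rpow_small (99 / 100) (by norm_num) (ε / 400) (by positivity),
    Q_le_rpow (51 / 100) (by norm_num)] with n h1 h2 h3 h4 h5 h6 h7
  have hspec := kc_spec c hc0 hc n h3
  set k := kc c n with hk
  have hn0 : (0 : ℝ) < n := by
    have : 0 < n := by omega
    exact_mod_cast this
  have hn1 : (1 : ℝ) ≤ n := by
    have : 1 ≤ n := by omega
    exact_mod_cast this
  rw [div_le_iff₀ hε] at h2
  have hkn : k < n / 2 := kc_bdd c hc n k hspec.1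
  have hkn' : (k : ℝ) ≤ n := by
    have : k ≤ n := by omega
    exact_mod_cast this
  have h8 : (n : ℝ) ≤ ε / 2 * (n : ℝ) ^ 2 := by nlinarith
  constructor
  · -- lower bound
    rcases le_or_gt ((k : ℝ) ^ 2) (ε * (n : ℝ) ^ 2) with hsmall | hlarge
    · have : (0 : ℝ) ≤ RTnum n 5 (fc c n) := Nat.cast_nonneg _
      linarith
    · set b : ℝ := (n : ℝ) ^ (48 / 100 : ℝ) with hb
      have hb1 : 1 ≤ b := Real.one_le_rpow hn1 (by norm_num)
      set j : ℕ := ⌈7 * b⌉₊ with hj
      have hj1 : 7 * b ≤ j := Nat.le_ceil _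
      have hj2 : (j : ℝ) ≤ 8 * b := by
        have : (j : ℝ) < 7 * b + 1 := Nat.ceil_lt_add_one (by positivity)
        linarith
      have hQk : (Q 3 k : ℝ) ≤ (n : ℝ) ^ (51 / 100 : ℝ) := by
        refine le_trans ?_ h7
        exact_mod_cast Q_mono (show k ≤ n by omega)
      have h51 : 1 ≤ (n : ℝ) ^ (51 / 100 : ℝ) := Real.one_le_rpow hn1 (by norm_num)
      have hrem : ((j * (1 + Q 3 k) : ℕ) : ℝ) ≤ ε / 8 * n := by
        push_cast
        calc (j : ℝ) * (1 + Q 3 k) ≤ (8 * b) * ((n : ℝ) ^ (51 / 100 : ℝ) + (n : ℝ) ^ (51 / 100 : ℝ)) := by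
              gcongr
          _ = 16 * ((n : ℝ) ^ (48 / 100 : ℝ) * (n : ℝ) ^ (51 / 100 : ℝ)) := by rw [hb]; ring
          _ = 16 * (n : ℝ) ^ (99 / 100 : ℝ) := by
              rw [← Real.rpow_add hn0]
              norm_num
          _ ≤ 16 * (ε / 400 * n) := by gcongr
          _ ≤ ε / 8 * n := by nlinarith
      have hle : j * (1 + Q 3 k) ≤ k := by
        -- k² > ε n², ε n / 8 ≤ k
        have hk1 : ε / 8 * n ≤ k := by
          by_contra hcon
          push Not at hcon
          have hk0 : (0 : ℝ) ≤ k := Nat.cast_nonneg _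
          have h10 : (k : ℝ) ^ 2 ≤ k * (ε / 8 * n) := by
            rw [sq]
            gcongr
          have h11 : (k : ℝ) * (ε / 8 * n) ≤ n * (ε / 8 * n) := by gcongr
          nlinarith
        exact_mod_cast hrem.trans hk1
      set s := k - j * (1 + Q 3 k) with hs
      have hdrop := Q_drop k j hle
      rw [← hs] at hdrop
      have hdrop' : (Q 3 s : ℝ) + j ≤ Q 3 k := by exact_mod_cast hdrop
      have hsr : (k : ℝ) - ε / 8 * n ≤ s := by
        rw [hs, Nat.cast_sub hle]
        linarith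
      rcases Nat.eq_zero_or_pos s with hs0 | hs0
      · exfalso
        rw [hs0] at hsr
        push_cast at hsr
        have hk0 : (0 : ℝ) ≤ k := Nat.cast_nonneg _
        have h10 : (k : ℝ) ^ 2 ≤ (n : ℝ) * (ε / 8 * n) := by
          rw [sq]
          apply mul_le_mul hkn' (by linarith) hk0 hn0.le
        nlinarith
      · obtain ⟨G, hG5, _, hα, hE⟩ := h4 s hs0 (by omega)
        have hα := hα rfl
        have h9 : (G.indepNum : ℝ) < fc c n := by
          unfold fc
          linarith [hspec.1]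
        have h10 : (G.edgeSet.ncard : ℝ) ≤ RTnum n 5 (fc c n) := by
          exact_mod_cast le_RT G hG5 h9
        refine le_trans ?_ h10
        push_cast at hE
        have h11 : (n : ℝ) * (n : ℝ) ^ (45 / 100 : ℝ) ≤ ε / 2 * (n : ℝ) ^ 2 := by
          calc (n : ℝ) * (n : ℝ) ^ (45 / 100 : ℝ) ≤ n * (ε / 2 * n) := by gcongr
            _ = ε / 2 * (n : ℝ) ^ 2 := by ring
        have h12 : (k : ℝ) ^ 2 - ε / 4 * (n : ℝ) ^ 2 ≤ (s : ℝ) * s := by
          have hs0' : (0 : ℝ) ≤ s := Nat.cast_nonneg s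
          have hk0 : (0 : ℝ) ≤ k := Nat.cast_nonneg _
          have hsk : (s : ℝ) ≤ k := by
            have : s ≤ k := Nat.sub_le _ _
            exact_mod_cast this
          have h13 : (k : ℝ) * k - s * s = (k - s) * (k + s) := by ring
          have h14 : ((k : ℝ) - s) * (k + s) ≤ (ε / 8 * n) * (n + n) := by
            apply mul_le_mul (by linarith) (by linarith) (by linarith) (by positivity)
          nlinarith
        nlinarith
  · -- upper bound
    have h9 := h1 (k + 1) hspec.2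
    push_cast at h9
    nlinarith

end Pool.Agent.H54.RT
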