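import Pool.Agent.H54.RTSmall

/-!
# Upper bound for small constants
-/

set_option maxHeartbeats 1000000

open Finset Filter Topology

namespace Pool.Agent.H54.RT

lemma Q_floor (C c : ℝ) (hC : 0 < C) (hup : ∀ᶠ n : ℕ in atTop, (Q 3 n : ℝ) ^ 2 ≤ C * (n * Real.log n))
    (hc0 : 0 < c) :
    ∀ᶠ n : ℕ in atTop, c * Q 3 (n / 2) ≤ Q 3 ⌊40 * C * c ^ 2 * (n : ℝ)⌋₊ := by
  set x : ℝ := 40 * C * c ^ 2 with hx
  have hx0 : 0 < x := by positivity
  have hfl : Tendsto (fun n : ℕ => ⌊x * (n : ℝ)⌋₊) atTop atTop :=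
    tendsto_nat_floor_atTop.comp (Tendsto.const_mul_atTop hx0 tendsto_natCast_atTop_atTop)
  have hdiv : Tendsto (fun n : ℕ => n / 2) atTop atTop := by
    apply tendsto_atTop_atTop.2
    intro b
    exact ⟨2 * b, fun a ha => by omega⟩
  filter_upwards [hdiv.eventually hup, hfl.eventually Q_lower,
    (tendsto_natCast_atTop_atTop (R := ℝ)).eventually_ge_atTop (2 / x),
    (tendsto_natCast_atTop_atTop (R := ℝ)).eventually_ge_atTop (4 / x ^ 2),
    eventually_ge_atTop 2] with n h1 h2 h3 h4 h5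
  set k := ⌊x * (n : ℝ)⌋₊ with hk
  have hn0 : (0 : ℝ) < n := by
    have : 0 < n := by omega
    exact_mod_cast this
  have hn1 : (1 : ℝ) ≤ n := by
    have : 1 ≤ n := by omega
    exact_mod_cast this
  have hL0 : 0 ≤ Real.log n := Real.log_nonneg hn1
  rw [div_le_iff₀ hx0] at h3
  rw [div_le_iff₀ (by positivity)] at h4
  have hk1 : x * n / 2 ≤ k := by
    have : x * n < k + 1 := Nat.lt_floor_add_one _
    linarith
  have hk2 : Real.log n / 2 ≤ Real.log k := by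
    have h6 : (n : ℝ) ≤ (k : ℝ) ^ 2 := by
      calc (n : ℝ) ≤ (x * n / 2) ^ 2 := by
            have : 4 * (n : ℝ) ≤ (n * x ^ 2) * n := by gcongr
            nlinarith
        _ ≤ (k : ℝ) ^ 2 := by gcongr
    have h7 := Real.log_le_log hn0 h6
    rw [Real.log_pow] at h7
    push_cast at h7
    linarith
  have h8 : x * n / 2 * (Real.log n / 2) ≤ k * Real.log k := by gcongr
  have h9 : ((n / 2 : ℕ) : ℝ) ≤ n / 2 := Nat.cast_div_le
  have h10 : ((n / 2 : ℕ) : ℝ) * Real.log ((n / 2 : ℕ) : ℝ) ≤ n / 2 * Real.log n := by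
    have h11 : (1 : ℝ) ≤ ((n / 2 : ℕ) : ℝ) := by
      have : 1 ≤ n / 2 := by omega
      exact_mod_cast this
    have h12 : Real.log ((n / 2 : ℕ) : ℝ) ≤ Real.log n :=
      Real.log_le_log (by linarith) (by linarith)
    gcongr
  have h13 : (c * Q 3 (n / 2)) ^ 2 ≤ (Q 3 k : ℝ) ^ 2 := by
    calc (c * Q 3 (n / 2)) ^ 2 = c ^ 2 * (Q 3 (n / 2) : ℝ) ^ 2 := by ring
      _ ≤ c ^ 2 * (C * (((n / 2 : ℕ) : ℝ) * Real.log ((n / 2 : ℕ) : ℝ))) := by gcongr
      _ ≤ c ^ 2 * (C * (n / 2 * Real.log n)) := by gcongr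
      _ = x * n / 2 * (Real.log n / 2) / 20 := by rw [hx]; ring
      _ ≤ k * Real.log k / 20 := by gcongr
      _ ≤ (Q 3 k : ℝ) ^ 2 := by linarith
  exact le_of_pow_le_pow_left₀ (by norm_num) (Nat.cast_nonneg _) h13

/-- **Small constants.** -/
theorem upper_small : ∃ K : ℝ, 0 < K ∧ ∀ c : ℝ, 0 < c → c < 1 →
    upperDensity 5 (fc c) ≤ K * c ^ (2 / 3 : ℝ) := by
  obtain ⟨C, hC, hup⟩ := Q_upper
  refine ⟨1 / 2 * (40 * C) ^ (1 / 3 : ℝ), by positivity, ?_⟩
  intro c hc0 hc1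
  set x : ℝ := 40 * C * c ^ 2 with hx
  have hx0 : 0 < x := by positivity
  have heq : 1 / 2 * (40 * C) ^ (1 / 3 : ℝ) * c ^ (2 / 3 : ℝ) = x ^ (1 / 3 : ℝ) / 2 := by
    have h1 : (c ^ 2) ^ (1 / 3 : ℝ) = c ^ (2 / 3 : ℝ) := by
      rw [← Real.rpow_natCast c 2, ← Real.rpow_mul hc0.le]
      norm_num
    rw [hx, Real.mul_rpow (show 0 ≤ 40 * C by positivity) (show 0 ≤ c ^ 2 by positivity), h1]
    ring
  rw [heq]
  rcases le_or_gt 1 x with h | hx1
  · have h1 := upper_inv c 1 le_rfl (by simpa using hc1.le)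
    have h2 : 1 ≤ x ^ (1 / 3 : ℝ) := Real.one_le_rpow h (by norm_num)
    have h3 : ((1 : ℝ) + 1 / ((1 : ℕ) : ℝ)) / 8 = 1 / 4 := by norm_num
    rw [h3] at h1
    linarith
  · have key : ∀ q : ℝ, 0 < q → q < 1 / 3 → upperDensity 5 (fc c) ≤ x ^ q / 2 := by
      intro q hq0 hq
      apply upperDensity_le
      intro ε hε
      filter_upwards [drc_asym x q hx0 hx1 hq0 hq, Q_floor C c hC hup hc0,
        eventually_ge_atTop 1] with n h1 h2 h3
      have hn0 : (0 : ℝ) < n := by exact_mod_cast h3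
      apply RT_le (by positivity)
      intro G hG hα
      have hmono : (Q 3 (n / 2) : ℝ) ≤ Q 3 n := by exact_mod_cast Q_mono (Nat.div_le_self n 2)
      unfold fc at hα
      have hαn : G.indepNum ≤ Q 3 n := by
        have h4 : c * (Q 3 (n / 2) : ℝ) ≤ 1 * Q 3 (n / 2) := by gcongr
        have : (G.indepNum : ℝ) ≤ Q 3 n := by linarith
        exact_mod_cast this
      have h5 := h1 G ((indepNum_le_iff G _).1 hαn) ⌊x * (n : ℝ)⌋₊ (by
        intro u v huv s hs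
        have := codeg_lt G hG ⌊x * (n : ℝ)⌋₊ (by linarith) u v huv s hs
        exact_mod_cast this.le) (Nat.floor_le (by positivity))
      rw [div_le_iff₀ (by positivity)] at h5
      have h6 : 0 ≤ ε * (n : ℝ) ^ 2 := by positivity
      linarith
    have hlim : Tendsto (fun q : ℝ => x ^ q / 2) (𝓝[<] (1 / 3 : ℝ)) (𝓝 (x ^ (1 / 3 : ℝ) / 2)) := by
      have : Continuous fun q : ℝ => x ^ q / 2 :=
        (Real.continuous_const_rpow hx0.ne').div_const 2
      exact (this.tendsto _).mono_left nhdsWithin_le_nhds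
    apply ge_of_tendsto hlim
    have : Set.Ioo 0 (1 / 3 : ℝ) ∈ 𝓝[<] (1 / 3 : ℝ) := Ioo_mem_nhdsLT (by norm_num)
    filter_upwards [this] with q hq
    exact key q hq.1 hq.2

end Pool.Agent.H54.RT
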