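import Mathlib

/-!
# The function `Q(t,m)` and basic facts about `Q(3,m)`
-/

set_option maxHeartbeats 1000000

open Finset

namespace Pool.Agent.H54.RT

/-- `Q t m`: the minimum of the independence number over all `K_t`-free graphs on `m` vertices. -/
noncomputable def Q (t m : ℕ) : ℕ :=
  sInf {a : ℕ | ∃ G : SimpleGraph (Fin m), G.CliqueFree t ∧ G.indepNum = a}

lemma indepNum_le_iff {V : Type*} [Fintype V] (G : SimpleGraph V) (a : ℕ) :
    G.indepNum ≤ a ↔ ∀ s : Finset V, G.IsIndepSet (s : Set V) → #s ≤ a := by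
  constructor
  · intro h s hs
    exact le_trans hs.card_le_indepNum h
  · intro h
    obtain ⟨s, hs⟩ := G.exists_isNIndepSet_indepNum
    rw [← hs.2]
    exact h s hs.1

lemma Q_set_nonempty (m : ℕ) :
    {a : ℕ | ∃ G : SimpleGraph (Fin m), G.CliqueFree 3 ∧ G.indepNum = a}.Nonempty :=
  ⟨_, ⊥, SimpleGraph.cliqueFree_bot (by norm_num), rfl⟩

/-- an optimal graph -/
lemma exists_Q (m : ℕ) : ∃ G : SimpleGraph (Fin m), G.CliqueFree 3 ∧ G.indepNum = Q 3 m :=
  Nat.sInf_mem (Q_set_nonempty m)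

lemma exists_Q' {V : Type*} [Fintype V] (m : ℕ) (hV : Fintype.card V = m) :
    ∃ G : SimpleGraph V, G.CliqueFree 3 ∧
      ∀ s : Finset V, G.IsIndepSet (s : Set V) → #s ≤ Q 3 m := by
  classical
  obtain ⟨G, hG, hQ⟩ := exists_Q m
  obtain ⟨e⟩ : Nonempty (V ≃ Fin m) := by
    rw [← Fintype.card_eq, hV, Fintype.card_fin]
  refine ⟨G.comap e, ?_, ?_⟩
  · exact hG.comap ⟨(SimpleGraph.Embedding.comap e.toEmbedding G).toCopy⟩
  · intro s hs
    have h1 := (indepNum_le_iff G (Q 3 m)).1 hQ.le (s.map e.toEmbedding)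
    rw [card_map] at h1
    apply h1
    rw [coe_map]
    rintro _ ⟨x, hx, rfl⟩ _ ⟨y, hy, rfl⟩ hxy
    exact hs hx hy (fun h => hxy (by rw [h]))

/-- any triangle-free graph on at least `m` vertices has an independent set of size `Q 3 m`. -/
lemma Q_le_of {V : Type*} [Fintype V] (G : SimpleGraph V) (hG : G.CliqueFree 3) (m a : ℕ)
    (hm : m ≤ Fintype.card V) (ha : ∀ s : Finset V, G.IsIndepSet (s : Set V) → #s ≤ a) :
    Q 3 m ≤ a := by
  classical
  obtain ⟨f⟩ : Nonempty (Fin m ↪ V) :=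
    Function.Embedding.nonempty_of_card_le (by rw [Fintype.card_fin]; exact hm)
  have h1 : Q 3 m ≤ (G.comap f).indepNum :=
    Nat.sInf_le ⟨G.comap f, hG.comap ⟨(SimpleGraph.Embedding.comap f G).toCopy⟩, rfl⟩
  refine le_trans h1 ?_
  rw [indepNum_le_iff]
  intro s hs
  have h2 := ha (s.map f)
  rw [card_map] at h2
  apply h2
  rw [coe_map]
  rintro _ ⟨x, hx, rfl⟩ _ ⟨y, hy, rfl⟩ hxy
  exact hs hx hy (fun h => hxy (by rw [h]))

/-- version for a triangle-free subset of a graph -/
lemma Q_le_of_subset {V : Type*} [Fintype V] [DecidableEq V] (G : SimpleGraph V) (S : Finset V)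
    (hS : ∀ x ∈ S, ∀ y ∈ S, ∀ z ∈ S, G.Adj x y → G.Adj x z → ¬ G.Adj y z) (m a : ℕ)
    (hm : m ≤ #S) (ha : ∀ s : Finset V, G.IsIndepSet (s : Set V) → #s ≤ a) :
    Q 3 m ≤ a := by
  classical
  apply Q_le_of (V := S) (G.comap (Function.Embedding.subtype (· ∈ S))) _ m a
  · rw [Fintype.card_coe]; exact hm
  · intro s hs
    have h2 := ha (s.map (Function.Embedding.subtype (· ∈ S)))
    rw [card_map] at h2
    apply h2
    rw [coe_map]
    rintro _ ⟨x, hx, rfl⟩ _ ⟨y, hy, rfl⟩ hxy
    exact hs hx hy (fun h => hxy (by rw [h]))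
  · intro t ht
    rw [SimpleGraph.is3Clique_iff] at ht
    obtain ⟨x, y, z, hxy, hxz, hyz, rfl⟩ := ht
    exact hS x x.2 y y.2 z z.2 hxy hxz hyz

lemma Q_mono {m m' : ℕ} (h : m ≤ m') : Q 3 m ≤ Q 3 m' := by
  obtain ⟨G, hG, hQ⟩ := exists_Q m'
  apply Q_le_of G hG m _ (by rw [Fintype.card_fin]; exact h)
  exact (indepNum_le_iff G _).1 hQ.le

lemma Q_add (a b : ℕ) : Q 3 (a + b) ≤ Q 3 a + Q 3 b := by
  classical
  obtain ⟨G, hG, hGQ⟩ := exists_Q a
  obtain ⟨H, hH, hHQ⟩ := exists_Q b
  apply Q_le_of (V := Fin a ⊕ Fin b) (G ⊕g H) _ (a + b)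
  · simp
  · intro s hs
    have h1 := (indepNum_le_iff G _).1 hGQ.le (univ.filter fun x => Sum.inl x ∈ s) (by
      intro x hx y hy hxy hadj
      simp only [coe_filter, mem_univ, true_and, Set.mem_ofPred_eq] at hx hy
      exact hs hx hy (fun h => hxy (Sum.inl_injective h)) (by simpa using hadj))
    have h2 := (indepNum_le_iff H _).1 hHQ.le (univ.filter fun x => Sum.inr x ∈ s) (by
      intro x hx y hy hxy hadj
      simp only [coe_filter, mem_univ, true_and, Set.mem_ofPred_eq] at hx hy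
      exact hs hx hy (fun h => hxy (Sum.inr_injective h)) (by simpa using hadj))
    have h3 : s ⊆ (univ.filter fun x => Sum.inl x ∈ s).map Function.Embedding.inl ∪
        (univ.filter fun x => Sum.inr x ∈ s).map Function.Embedding.inr := by
      intro x hx
      rw [mem_union, mem_map, mem_map]
      rcases x with x | x
      · left; exact ⟨x, by simpa using hx, rfl⟩
      · right; exact ⟨x, by simpa using hx, rfl⟩
    have h4 := (card_le_card h3).trans (card_union_le _ _)
    rw [card_map, card_map] at h4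
    omega
  · intro t ht
    rw [SimpleGraph.is3Clique_iff] at ht
    obtain ⟨x, y, z, hxy, hxz, hyz, rfl⟩ := ht
    rcases x with x | x <;> rcases y with y | y <;> rcases z with z | z <;>
      simp at hxy hxz hyz
    · exact hG {x, y, z} (SimpleGraph.is3Clique_triple_iff.2 ⟨hxy, hxz, hyz⟩)
    · exact hH {x, y, z} (SimpleGraph.is3Clique_triple_iff.2 ⟨hxy, hxz, hyz⟩)

lemma Q_mul (k m : ℕ) : Q 3 (k * m) ≤ k * Q 3 m := by
  induction k with
  | zero =>
    have : Q 3 0 ≤ 0 := by
      apply Q_le_of (V := Fin 0) ⊥ (SimpleGraph.cliqueFree_bot (by norm_num)) 0 0 (by simp)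
      intro s _
      simp [Subsingleton.elim s ∅]
    simpa using this
  | succ k ih =>
    have := Q_add (k * m) m
    rw [Nat.succ_mul, Nat.succ_mul]
    omega

lemma Q_le (m : ℕ) : Q 3 m ≤ m := by
  apply Q_le_of (V := Fin m) ⊥ (SimpleGraph.cliqueFree_bot (by norm_num)) m m (by simp)
  intro s _
  simpa using card_le_univ s

/-- `m ≤ Q (Q+1)`. -/
lemma le_Q_sq (m : ℕ) : m ≤ Q 3 m * (Q 3 m + 1) := by
  classical
  obtain ⟨G, hG, hQ⟩ := exists_Q m
  have ha := (indepNum_le_iff G _).1 hQ.le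
  -- maximal independent set
  obtain ⟨I, hI⟩ := G.exists_isNIndepSet_indepNum
  have hmax : ∀ v ∉ I, ∃ w ∈ I, G.Adj w v := by
    intro v hv
    by_contra hcon
    push Not at hcon
    have h1 := ha (insert v I) (by
      rw [coe_insert]
      intro x hx y hy hxy hadj
      rcases hx with rfl | hx <;> rcases hy with rfl | hy
      · exact hxy rfl
      · exact hcon y hy hadj.symm
      · exact hcon x hx hadj
      · exact hI.1 hx hy hxy hadj)
    rw [card_insert_of_notMem hv, hI.2, hQ] at h1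
    omega
  have hdeg : ∀ w, #(G.neighborFinset w) ≤ Q 3 m := by
    intro w
    apply ha
    rw [SimpleGraph.coe_neighborFinset]
    intro x hx y hy hxy hadj
    exact hG {w, x, y} (SimpleGraph.is3Clique_triple_iff.2 ⟨hx, hy, hadj⟩)
  have hcover : (univ : Finset (Fin m)) ⊆ I ∪ I.biUnion fun w => G.neighborFinset w := by
    intro v _
    rw [mem_union, mem_biUnion]
    by_cases hv : v ∈ I
    · left; exact hv
    · right
      obtain ⟨w, hw, hwv⟩ := hmax v hv
      exact ⟨w, hw, by rw [SimpleGraph.mem_neighborFinset]; exact hwv⟩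
  have h1 := (card_le_card hcover).trans (card_union_le _ _)
  have h2 : #(I.biUnion fun w => G.neighborFinset w) ≤ #I * Q 3 m :=
    card_biUnion_le_card_mul _ _ _ fun w _ => hdeg w
  rw [card_univ, Fintype.card_fin, hI.2, hQ] at h1
  rw [hI.2, hQ] at h2
  nlinarith

end Pool.Agent.H54.RT
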