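import Mathlib

/-!
# Ajtai–Komlós–Szemerédi/Shearer-type lower bound for the independence number of triangle-free graphs
-/

set_option maxHeartbeats 1000000

open Finset

namespace Pool.Agent.H54.RT

lemma two_mul_sum_card_powerset {V : Type*} [DecidableEq V] (X : Finset V) :
    2 * ∑ Y ∈ X.powerset, #Y = #X * 2 ^ #X := by
  induction X using Finset.induction_on with
  | empty => simp
  | insert x X hx ih =>
    rw [sum_powerset_insert hx, card_insert_of_notMem hx]
    have h1 : ∑ Y ∈ X.powerset, #(insert x Y) = ∑ Y ∈ X.powerset, (#Y + 1) := by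
      apply sum_congr rfl
      intro Y hY
      rw [card_insert_of_notMem]
      rw [mem_powerset] at hY
      exact fun h => hx (hY h)
    rw [h1, sum_add_distrib, sum_const, card_powerset, smul_eq_mul]
    rw [pow_succ]
    nlinarith

lemma ineq_x (ℓ Δ x : ℕ) (h : ℓ * (1 + 4 ^ ℓ) ≤ Δ) :
    2 * (ℓ * (1 + 2 ^ x)) ≤ 2 * Δ + x * 2 ^ x := by
  rcases le_or_gt (2 * ℓ) x with h1 | h1
  · have h2 : 2 * ℓ * 2 ^ x ≤ x * 2 ^ x := Nat.mul_le_mul_right _ h1
    have h3 : ℓ ≤ Δ := by
      refine le_trans ?_ h
      exact Nat.le_mul_of_pos_right _ (by positivity)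
    nlinarith
  · have h2 : 2 ^ x ≤ 4 ^ ℓ := by
      calc 2 ^ x ≤ 2 ^ (2 * ℓ) := Nat.pow_le_pow_right (by norm_num) h1.le
        _ = 4 ^ ℓ := by rw [pow_mul]; norm_num
    have h3 : ℓ * (1 + 2 ^ x) ≤ ℓ * (1 + 4 ^ ℓ) := Nat.mul_le_mul_left _ (by omega)
    have : 0 ≤ x * 2 ^ x := Nat.zero_le _
    omega

/-- weights -/
lemma fibre_ineq {V : Type*} [Fintype V] [DecidableEq V] (G : SimpleGraph V) [DecidableRel G.Adj]
    (hG : G.CliqueFree 3) (v : V) (Δ ℓ : ℕ) (h : ℓ * (1 + 4 ^ ℓ) ≤ Δ)
    (S : Finset V) (hS : G.IsIndepSet (S : Set V)) (hSd : S = S \ insert v (G.neighborFinset v))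
    (F : Finset (Finset V))
    (hF : ∀ W, W ∈ F ↔ G.IsIndepSet (W : Set V) ∧ W \ insert v (G.neighborFinset v) = S) :
    ℓ * #F ≤ ∑ W ∈ F, (Δ * (if v ∈ W then 1 else 0) + #(G.neighborFinset v ∩ W)) := by
  set Nv := G.neighborFinset v with hNv
  set X : Finset V := Nv.filter fun u => ∀ s ∈ S, ¬ G.Adj u s with hX
  have hvS : v ∉ S := by
    rw [hSd]; simp
  have hSN : ∀ u ∈ S, u ∉ Nv := by
    intro u hu hu2
    rw [hSd, mem_sdiff] at hu
    exact hu.2 (mem_insert_of_mem hu2)
  have hvN : v ∉ Nv := by simp [hNv]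
  have hNind : ∀ x ∈ Nv, ∀ y ∈ Nv, ¬ G.Adj x y := by
    intro x hx y hy hxy
    rw [hNv, SimpleGraph.mem_neighborFinset] at hx hy
    exact hG {v, x, y} (SimpleGraph.is3Clique_triple_iff.2 ⟨hx, hy, hxy⟩)
  have hFeq : F = insert (insert v S) (X.powerset.image fun Y => S ∪ Y) := by
    ext W
    rw [hF, mem_insert, mem_image]
    constructor
    · rintro ⟨hW, hWS⟩
      by_cases hv : v ∈ W
      · left
        have h1 : ∀ u ∈ Nv, u ∉ W := by
          intro u hu hu2
          rw [hNv, SimpleGraph.mem_neighborFinset] at hu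
          exact hW hv hu2 hu.ne hu
        ext u
        rw [mem_insert, ← hWS, mem_sdiff, mem_insert, not_or]
        constructor
        · intro hu
          by_cases huv : u = v
          · left; exact huv
          · right; exact ⟨hu, huv, fun h => h1 u h hu⟩
        · rintro (rfl | ⟨h1, _⟩)
          · exact hv
          · exact h1
      · right
        refine ⟨Nv ∩ W, ?_, ?_⟩
        · rw [mem_powerset]
          intro u hu
          rw [mem_inter] at hu
          rw [hX, mem_filter]
          refine ⟨hu.1, ?_⟩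
          intro s hs hadj
          rw [← hWS, mem_sdiff] at hs
          exact hW hu.2 hs.1 hadj.ne hadj
        · ext u
          simp only [mem_union, mem_inter, ← hWS, mem_sdiff, mem_insert, not_or]
          constructor
          · rintro (h1 | h1)
            · exact h1.1
            · exact h1.2
          · intro hu
            by_cases hun : u ∈ Nv
            · right; exact ⟨hun, hu⟩
            · left; exact ⟨hu, fun h => hv (h ▸ hu), hun⟩
    · rintro (rfl | ⟨Y, hY, rfl⟩)
      · constructor
        · rw [coe_insert]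
          intro x hx y hy hxy hadj
          rcases hx with rfl | hx <;> rcases hy with rfl | hy
          · exact hxy rfl
          · exact hSN y hy (by rw [hNv, SimpleGraph.mem_neighborFinset]; exact hadj)
          · exact hSN x hx (by rw [hNv, SimpleGraph.mem_neighborFinset]; exact hadj.symm)
          · exact hS hx hy hxy hadj
        · ext u
          rw [mem_sdiff, mem_insert, mem_insert, not_or]
          constructor
          · rintro ⟨h1 | h1, h2, _⟩
            · exact absurd h1 h2
            · exact h1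
          · intro hu
            exact ⟨Or.inr hu, fun h => hvS (h ▸ hu), hSN u hu⟩
      · rw [mem_powerset] at hY
        have hYN : ∀ u ∈ Y, u ∈ Nv := fun u hu => (mem_filter.1 (hY hu)).1
        constructor
        · rw [coe_union]
          intro x hx y hy hxy hadj
          rcases hx with hx | hx <;> rcases hy with hy | hy
          · exact hS hx hy hxy hadj
          · exact (mem_filter.1 (hY hy)).2 x hx hadj.symm
          · exact (mem_filter.1 (hY hx)).2 y hy hadj
          · exact hNind x (hYN x hx) y (hYN y hy) hadj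
        · ext u
          simp only [mem_sdiff, mem_union, mem_insert, not_or]
          constructor
          · rintro ⟨h1 | h1, h2, h3⟩
            · exact h1
            · exact absurd (hYN u h1) h3
          · intro hu
            exact ⟨Or.inl hu, fun h => hvS (h ▸ hu), hSN u hu⟩
  have hYinj : Set.InjOn (fun Y => S ∪ Y) (X.powerset : Set (Finset V)) := by
    intro Y hY Y' hY' hYY
    simp only at hYY
    rw [mem_coe, mem_powerset] at hY hY'
    have hYN : ∀ u ∈ Y, u ∈ Nv := fun u hu => (mem_filter.1 (hY hu)).1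
    have hYN' : ∀ u ∈ Y', u ∈ Nv := fun u hu => (mem_filter.1 (hY' hu)).1
    ext u
    constructor
    · intro hu
      have : u ∈ S ∪ Y' := hYY ▸ mem_union_right _ hu
      rw [mem_union] at this
      rcases this with h1 | h1
      · exact absurd (hYN u hu) (hSN u h1)
      · exact h1
    · intro hu
      have : u ∈ S ∪ Y := hYY ▸ mem_union_right _ hu
      rw [mem_union] at this
      rcases this with h1 | h1
      · exact absurd (hYN' u hu) (hSN u h1)
      · exact h1
  have hnot : insert v S ∉ X.powerset.image fun Y => S ∪ Y := by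
    rw [mem_image]
    rintro ⟨Y, hY, hYY⟩
    rw [mem_powerset] at hY
    have : v ∈ S ∪ Y := hYY ▸ mem_insert_self v S
    rw [mem_union] at this
    rcases this with h1 | h1
    · exact hvS h1
    · exact hvN (mem_filter.1 (hY h1)).1
  rw [hFeq, card_insert_of_notMem hnot, sum_insert hnot, card_image_of_injOn hYinj, card_powerset,
    sum_image hYinj]
  have h1 : ∑ Y ∈ X.powerset, (Δ * (if v ∈ S ∪ Y then 1 else 0) + #(Nv ∩ (S ∪ Y)))
      = ∑ Y ∈ X.powerset, #Y := by
    apply sum_congr rfl
    intro Y hY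
    rw [mem_powerset] at hY
    have hYN : ∀ u ∈ Y, u ∈ Nv := fun u hu => (mem_filter.1 (hY hu)).1
    have hv : v ∉ S ∪ Y := by
      rw [mem_union, not_or]
      exact ⟨hvS, fun h => hvN (hYN v h)⟩
    rw [if_neg hv, mul_zero, zero_add]
    congr 1
    ext u
    rw [mem_inter, mem_union]
    constructor
    · rintro ⟨h1, h2 | h2⟩
      · exact absurd h1 (hSN u h2)
      · exact h2
    · intro hu
      exact ⟨hYN u hu, Or.inr hu⟩
  rw [h1, if_pos (mem_insert_self v S)]
  have h2 := ineq_x ℓ Δ #X h
  have h3 := two_mul_sum_card_powerset X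
  nlinarith

/-- AKS-type inequality. -/
theorem aks {V : Type*} [Fintype V] (G : SimpleGraph V)
    (hG : G.CliqueFree 3) (Δ ℓ a : ℕ) (h : ℓ * (1 + 4 ^ ℓ) ≤ Δ)
    (hΔ : ∀ v, ∀ s : Finset V, (∀ u ∈ s, G.Adj v u) → #s ≤ Δ)
    (ha : ∀ s : Finset V, G.IsIndepSet (s : Set V) → #s ≤ a) :
    ℓ * Fintype.card V ≤ 2 * Δ * a := by
  classical
  set I : Finset (Finset V) := univ.filter fun W : Finset V => G.IsIndepSet (W : Set V) with hI
  have hIne : 0 < #I := by
    apply card_pos.2
    refine ⟨∅, ?_⟩
    rw [hI, mem_filter]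
    exact ⟨mem_univ _, by simp [SimpleGraph.isIndepSet_iff]⟩
  have h1 : ∀ v, ℓ * #I ≤ ∑ W ∈ I, (Δ * (if v ∈ W then 1 else 0) + #(G.neighborFinset v ∩ W)) := by
    intro v
    set π : Finset V → Finset V := fun W => W \ insert v (G.neighborFinset v) with hπ
    rw [card_eq_sum_card_fiberwise (f := π) (t := I.image π)
      (fun W hW => by rw [mem_coe]; exact mem_image_of_mem _ hW)]
    rw [← sum_fiberwise_of_maps_to (g := π) (t := I.image π)
      (fun W hW => mem_image_of_mem _ hW)]
    rw [mul_sum]
    apply sum_le_sum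
    intro S hS
    rw [mem_image] at hS
    obtain ⟨W₀, hW₀, rfl⟩ := hS
    rw [hI, mem_filter] at hW₀
    apply fibre_ineq G hG v Δ ℓ h (W₀ \ insert v (G.neighborFinset v))
    · intro x hx y hy hxy
      rw [mem_coe, mem_sdiff] at hx hy
      exact hW₀.2 hx.1 hy.1 hxy
    · rw [Finset.sdiff_idem]
    · intro W
      rw [mem_filter, hI, mem_filter]
      simp only [mem_univ, true_and, hπ]
  have h2 : ∑ v, ℓ * #I ≤ ∑ v, ∑ W ∈ I, (Δ * (if v ∈ W then 1 else 0) + #(G.neighborFinset v ∩ W)) :=
    sum_le_sum fun v _ => h1 v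
  rw [sum_comm] at h2
  have h3 : ∀ W ∈ I, ∑ v, (Δ * (if v ∈ W then 1 else 0) + #(G.neighborFinset v ∩ W)) ≤ 2 * Δ * a := by
    intro W hW
    rw [hI, mem_filter] at hW
    rw [sum_add_distrib, ← mul_sum]
    have e1 : ∑ v : V, (if v ∈ W then 1 else 0) = #W := by simp
    have e2 : ∑ v : V, #(G.neighborFinset v ∩ W) ≤ #W * Δ := by
      have : ∀ v, #(G.neighborFinset v ∩ W) = ∑ w ∈ W, if G.Adj v w then 1 else 0 := by
        intro v
        rw [← card_filter]
        congr 1
        ext w
        rw [mem_inter, mem_filter, SimpleGraph.mem_neighborFinset]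
        tauto
      simp_rw [this]
      rw [sum_comm]
      calc ∑ w ∈ W, ∑ v, (if G.Adj v w then 1 else 0) ≤ ∑ w ∈ W, Δ := by
            apply sum_le_sum
            intro w _
            rw [← card_filter]
            apply hΔ w
            intro u hu
            rw [mem_filter] at hu
            exact hu.2.symm
        _ = #W * Δ := by rw [sum_const, smul_eq_mul]
    have e3 : #W ≤ a := ha W hW.2
    rw [e1]
    nlinarith
  have h4 := h2.trans (sum_le_sum h3)
  rw [sum_const, sum_const, card_univ, smul_eq_mul, smul_eq_mul] at h4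
  have h5 : #I * (ℓ * Fintype.card V) ≤ #I * (2 * Δ * a) := by
    calc #I * (ℓ * Fintype.card V) = Fintype.card V * (ℓ * #I) := by ring
      _ ≤ _ := h4
  exact Nat.le_of_mul_le_mul_left h5 hIne

end Pool.Agent.H54.RT
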