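import Pool.Agent.H54.Kim.BigEv
import Pool.Agent.H54.RTShearer
import Pool.Agent.H54.RTQ

/-!
# `Q(3,n) = Θ(√(n log n))`
-/

set_option maxHeartbeats 1000000

open Finset Filter Topology

namespace Pool.Agent.H54.RT

open Pool.Agent.H54.Kim

lemma LL_mono {a b : ℕ} (h : a ≤ b) : LL a ≤ LL b := by
  unfold LL
  have := Nat.log_mono_right (b := 2) h
  omega

lemma Q_special (m : ℕ) (hm : Big m) : Q 3 (m ^ 2 * LL m) ≤ 5 * yy m := by
  obtain ⟨G, hG, hα⟩ := kim_special m hm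
  exact Q_le_of G hG _ _ (by rw [card_VV]) (fun s hs => (hα s hs).le)

/-- Kim's theorem (constant-factor form). -/
theorem Q_upper : ∃ C : ℝ, 0 < C ∧ ∀ᶠ n : ℕ in atTop, (Q 3 n : ℝ) ^ 2 ≤ C * (n * Real.log n) := by
  obtain ⟨m₀, hm₀⟩ := eventually_atTop.1 eventually_big
  refine ⟨480000000000, by norm_num, ?_⟩
  filter_upwards [eventually_ge_atTop (max (m₀ ^ 2 * LL m₀ + 5) 100)] with n hn
  have hn1 : m₀ ^ 2 * LL m₀ < n := by
    have := le_trans (le_max_left _ _) hn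
    omega
  have hn2 : 100 ≤ n := le_trans (le_max_right _ _) hn
  have hex : ∃ m, n ≤ m ^ 2 * LL m := by
    refine ⟨n, ?_⟩
    have := LL_pos n
    nlinarith [Nat.mul_le_mul (show n ≤ n ^ 2 by nlinarith) this]
  classical
  set m := Nat.find hex with hm
  have hm1 : n ≤ m ^ 2 * LL m := Nat.find_spec hex
  have hm2 : m₀ < m := by
    by_contra hcon
    push Not at hcon
    have : m ^ 2 * LL m ≤ m₀ ^ 2 * LL m₀ :=
      Nat.mul_le_mul (Nat.pow_le_pow_left hcon 2) (LL_mono hcon)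
    omega
  have hm2' : 2 ≤ m := by
    by_contra hcon
    push Not at hcon
    interval_cases m
    · simp at hm1; omega
    · simp [LL] at hm1; omega
  have hm3 : (m - 1) ^ 2 * LL (m - 1) < n := by
    have := Nat.find_min hex (m := m - 1) (by omega)
    push Not at this
    exact this
  have hLL : LL m ≤ 2 * LL (m - 1) := by
    have h1 : LL m ≤ LL (2 * (m - 1)) := LL_mono (by omega)
    have h2 : LL (2 * (m - 1)) = LL (m - 1) + 1 := by
      unfold LL
      rw [mul_comm, Nat.log_mul_base (by norm_num) (by omega)]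
    have h3 := LL_pos (m - 1)
    omega
  have hf : m ^ 2 * LL m ≤ 8 * n := by
    have h1 : m ^ 2 ≤ 4 * (m - 1) ^ 2 := by
      obtain ⟨k, hk⟩ : ∃ k, m = k + 2 := ⟨m - 2, by omega⟩
      have hk1 : m - 1 = k + 1 := by omega
      rw [hk1, hk]
      nlinarith
    calc m ^ 2 * LL m ≤ (4 * (m - 1) ^ 2) * (2 * LL (m - 1)) := Nat.mul_le_mul h1 hLL
      _ = 8 * ((m - 1) ^ 2 * LL (m - 1)) := by ring
      _ ≤ 8 * n := by omega
  have hbig := hm₀ m hm2.le
  have hQ : Q 3 n ≤ 5 * yy m := (Q_mono hm1).trans (Q_special m hbig)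
  have hQ' : (Q 3 n : ℝ) ≤ 100000 * m * LL m := by
    have : (Q 3 n : ℝ) ≤ 5 * (yy m : ℝ) := by exact_mod_cast hQ
    unfold yy at this
    push_cast at this
    linarith
  have hn0 : (0 : ℝ) < n := by
    have : 0 < n := by omega
    exact_mod_cast this
  have hm0 : (0 : ℝ) < m := by
    have : 0 < m := by omega
    exact_mod_cast this
  have hLLn : (LL m : ℝ) ≤ 6 * Real.log n := by
    have h1 := LL_le_log m hbig.h4 (by omega)
    have h2 : Real.log m ≤ 2 * Real.log n := by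
      have h3 : m ≤ n ^ 2 := by
        have h4 : m ≤ m ^ 2 * LL m := by
          have := LL_pos m
          nlinarith [Nat.mul_le_mul (show m ≤ m ^ 2 by nlinarith) this]
        nlinarith
      have h5 : (m : ℝ) ≤ (n : ℝ) ^ 2 := by exact_mod_cast h3
      have h6 := Real.log_le_log hm0 h5
      rw [Real.log_pow] at h6
      push_cast at h6
      exact h6
    linarith
  have hf' : (m : ℝ) ^ 2 * LL m ≤ 8 * n := by exact_mod_cast hf
  have hlog0 : 0 ≤ Real.log n := Real.log_nonneg (by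
    have : 1 ≤ n := by omega
    exact_mod_cast this)
  calc (Q 3 n : ℝ) ^ 2 ≤ (100000 * m * LL m) ^ 2 := by
        apply pow_le_pow_left₀ (Nat.cast_nonneg _) hQ'
    _ = 10000000000 * ((m : ℝ) ^ 2 * LL m) * LL m := by ring
    _ ≤ 10000000000 * (8 * n) * (6 * Real.log n) := by gcongr
    _ = 480000000000 * (n * Real.log n) := by ring

/-- Shearer/AKS lower bound for `Q`. -/
theorem Q_lower : ∀ᶠ n : ℕ in atTop, (n : ℝ) * Real.log n ≤ 20 * (Q 3 n : ℝ) ^ 2 := by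
  have t1 : Tendsto (fun n : ℕ => Real.log (n : ℝ)) atTop atTop :=
    Real.tendsto_log_atTop.comp tendsto_natCast_atTop_atTop
  filter_upwards [t1.eventually_ge_atTop 15, eventually_ge_atTop 10] with n hlog hn
  set a := Q 3 n with ha
  obtain ⟨G, hG, hQ⟩ := exists_Q n
  have hα := (indepNum_le_iff G _).1 hQ.le
  have h1 := le_Q_sq n
  rw [← ha] at h1 hα
  have ha1 : 1 ≤ a := by
    by_contra hcon
    have : a = 0 := by omega
    rw [this] at h1
    omega
  set ℓ := Nat.log 16 a with hℓ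
  have hpow : 16 ^ ℓ ≤ a := Nat.pow_log_le_self 16 (by omega)
  have hcond : ℓ * (1 + 4 ^ ℓ) ≤ a := by
    refine le_trans ?_ hpow
    have h2 : 2 * ℓ ≤ 4 ^ ℓ := by
      have : ∀ k : ℕ, 2 * k ≤ 4 ^ k := by
        intro k
        induction k with
        | zero => simp
        | succ k ih =>
          rw [pow_succ]
          have : 1 ≤ 4 ^ k := Nat.one_le_pow _ _ (by norm_num)
          omega
      exact this ℓ
    have h3 : 1 ≤ 4 ^ ℓ := Nat.one_le_pow _ _ (by norm_num)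
    have h4 : 16 ^ ℓ = 4 ^ ℓ * 4 ^ ℓ := by rw [← mul_pow]; norm_num
    rw [h4]
    nlinarith
  have hmain := aks G hG a ℓ a hcond (by
    intro v s hs
    apply hα
    intro x hx y hy _ hadj
    exact hG {v, x, y} (SimpleGraph.is3Clique_triple_iff.2 ⟨hs x hx, hs y hy, hadj⟩)) hα
  rw [Fintype.card_fin] at hmain
  have hn0 : (0 : ℝ) < n := by
    have : 0 < n := by omega
    exact_mod_cast this
  have ha0 : (0 : ℝ) < a := by exact_mod_cast ha1
  have hℓlow : Real.log n / 10 ≤ ℓ := by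
    have h2 : a < 16 ^ (ℓ + 1) := Nat.lt_pow_succ_log_self (by norm_num) a
    have h3 : (a : ℝ) ≤ (16 : ℝ) ^ (ℓ + 1) := by exact_mod_cast h2.le
    have h4 : Real.log a ≤ (ℓ + 1) * Real.log 16 := by
      have := Real.log_le_log ha0 h3
      rw [Real.log_pow] at this
      push_cast at this
      exact this
    have h5 : Real.log 16 ≤ 2.8 := by
      have : (16 : ℝ) = 2 ^ 4 := by norm_num
      rw [this, Real.log_pow]
      have := Real.log_two_lt_d9
      push_cast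
      linarith
    have h6 : (n : ℝ) ≤ (a : ℝ) ^ 2 * 2 := by
      have : n ≤ a ^ 2 * 2 := by nlinarith
      exact_mod_cast this
    have h7 : Real.log n ≤ 2 * Real.log a + 1 := by
      have := Real.log_le_log hn0 h6
      rw [Real.log_mul (by positivity) (by norm_num), Real.log_pow] at this
      push_cast at this
      have h8 := Real.log_two_lt_d9
      linarith
    have h9 : (0 : ℝ) ≤ ℓ := Nat.cast_nonneg _
    nlinarith
  have hmain' : (ℓ : ℝ) * n ≤ 2 * a * a := by exact_mod_cast hmain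
  have : Real.log n / 10 * n ≤ ℓ * n := by gcongr
  nlinarith

/-- relative size of `Q` -/
theorem Q_ratio : ∃ K : ℝ, 1 ≤ K ∧ ∀ ε : ℝ, 0 < ε → ε ≤ 1 → ∀ᶠ n : ℕ in atTop, ∀ k : ℕ,
    (k : ℝ) ≤ ε * n → (Q 3 k : ℝ) ^ 2 ≤ K * ε * (Q 3 n : ℝ) ^ 2 := by
  obtain ⟨C, hC, hup⟩ := Q_upper
  refine ⟨max 1 (20 * C), le_max_left _ _, ?_⟩
  intro ε hε hε1
  have hfl : Tendsto (fun n : ℕ => ⌊ε * (n : ℝ)⌋₊) atTop atTop :=
    tendsto_nat_floor_atTop.comp (Tendsto.const_mul_atTop hε tendsto_natCast_atTop_atTop)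
  filter_upwards [hfl.eventually hup, Q_lower, eventually_ge_atTop 1,
    hfl.eventually_ge_atTop 1] with n h1 h2 h3 h4 k hk
  have hkf : k ≤ ⌊ε * (n : ℝ)⌋₊ := Nat.le_floor hk
  have hn1 : (1 : ℝ) ≤ n := by exact_mod_cast h3
  have h5 : (Q 3 k : ℝ) ≤ Q 3 ⌊ε * (n : ℝ)⌋₊ := by exact_mod_cast Q_mono hkf
  have h6 : ((⌊ε * (n : ℝ)⌋₊ : ℕ) : ℝ) ≤ ε * n := Nat.floor_le (by positivity)
  have h7 : ((⌊ε * (n : ℝ)⌋₊ : ℕ) : ℝ) ≤ n := by nlinarith
  have h8 : (1 : ℝ) ≤ ((⌊ε * (n : ℝ)⌋₊ : ℕ) : ℝ) := by exact_mod_cast h4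
  have hlog : Real.log ((⌊ε * (n : ℝ)⌋₊ : ℕ) : ℝ) ≤ Real.log n :=
    Real.log_le_log (by linarith) h7
  have hlog0 : 0 ≤ Real.log ((⌊ε * (n : ℝ)⌋₊ : ℕ) : ℝ) := Real.log_nonneg h8
  calc (Q 3 k : ℝ) ^ 2 ≤ (Q 3 ⌊ε * (n : ℝ)⌋₊ : ℝ) ^ 2 := by gcongr
    _ ≤ C * (((⌊ε * (n : ℝ)⌋₊ : ℕ) : ℝ) * Real.log ((⌊ε * (n : ℝ)⌋₊ : ℕ) : ℝ)) := h1
    _ ≤ C * (ε * n * Real.log n) := by gcongr
    _ = C * ε * (n * Real.log n) := by ring
    _ ≤ C * ε * (20 * (Q 3 n : ℝ) ^ 2) := by gcongr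
    _ = 20 * C * ε * (Q 3 n : ℝ) ^ 2 := by ring
    _ ≤ max 1 (20 * C) * ε * (Q 3 n : ℝ) ^ 2 := by
        gcongr
        exact le_max_right _ _

end Pool.Agent.H54.RT
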