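import Pool.Agent.H54.RTReg

/-!
# Upper bound core: K₅-free, small independence number, small codegrees of edges
-/

set_option maxHeartbeats 1000000

open Finset SzemerediRegularity Filter Topology

namespace Pool.Agent.H54.RT

variable {V : Type*} [Fintype V] [DecidableEq V]

lemma tri_eq_sum (G : SimpleGraph V) [DecidableRel G.Adj] :
    #{p : V × V × V | G.Adj p.1 p.2.1 ∧ G.Adj p.1 p.2.2 ∧ G.Adj p.2.1 p.2.2}
      = ∑ x, adjPairs G (G.neighborFinset x) := by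
  classical
  have h : ∀ x, adjPairs G (G.neighborFinset x)
      = #{q : V × V | G.Adj x q.1 ∧ G.Adj x q.2 ∧ G.Adj q.1 q.2} := by
    intro x
    unfold adjPairs
    congr 1
    ext q
    simp only [mem_filter, mem_product, SimpleGraph.mem_neighborFinset, mem_univ, true_and]
    tauto
  simp_rw [h]
  rw [card_filter]
  rw [← univ_product_univ, sum_product]
  apply sum_congr rfl
  intro x _
  rw [card_filter]

lemma adjPairs_nbr_le (G : SimpleGraph V) [DecidableRel G.Adj] (hG : G.CliqueFree 5) (a : ℕ)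
    (ha : ∀ s : Finset V, G.IsIndepSet (s : Set V) → #s ≤ a) (x : V) (t : ℕ) :
    (adjPairs G (G.neighborFinset x)) ^ (t + 1) ≤ (Fintype.card V) ^ t *
      ((Fintype.card V) ^ (t + 1) * a + (Fintype.card V) ^ 2 * a ^ (t + 1)) := by
  classical
  apply drc G a ha
  intro u hu v hv w hw z hz uv uw uz vw vz wz
  rw [SimpleGraph.mem_neighborFinset] at hu hv hw hz
  apply hG {x, u, v, w, z}
  rw [SimpleGraph.isNClique_iff]
  constructor
  · rw [SimpleGraph.isClique_iff]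
    intro p hp q hq hpq
    simp only [coe_insert, coe_singleton, Set.mem_insert_iff, Set.mem_singleton_iff] at hp hq
    rcases hp with rfl | rfl | rfl | rfl | rfl <;> rcases hq with rfl | rfl | rfl | rfl | rfl <;>
      first
      | exact absurd rfl hpq
      | assumption
      | (apply SimpleGraph.Adj.symm; assumption)
  · rw [card_insert_of_notMem, card_insert_of_notMem, card_insert_of_notMem, card_pair wz.ne]
    · simp only [mem_insert, mem_singleton, not_or]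
      exact ⟨vw.ne, vz.ne⟩
    · simp only [mem_insert, mem_singleton, not_or]
      exact ⟨uv.ne, uw.ne, uz.ne⟩
    · simp only [mem_insert, mem_singleton, not_or]
      exact ⟨hu.ne, hv.ne, hw.ne, hz.ne⟩

lemma adjPairs_nbr_le' (G : SimpleGraph V) [DecidableRel G.Adj] (hG : G.CliqueFree 5) (a : ℕ)
    (ha : ∀ s : Finset V, G.IsIndepSet (s : Set V) → #s ≤ a)
    (hn : 1 ≤ Fintype.card V)
    (ha' : (a : ℝ) ≤ (Fintype.card V : ℝ) ^ (7 / 10 : ℝ)) (x : V) :
    (adjPairs G (G.neighborFinset x) : ℝ) ≤ 2 * (Fintype.card V : ℝ) ^ (197 / 100 : ℝ) := by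
  have h := adjPairs_nbr_le G hG a ha x 9
  set n := Fintype.card V with hnd
  have hn1 : (1 : ℝ) ≤ n := by exact_mod_cast hn
  have hn0 : (0 : ℝ) < n := by linarith
  have h' : (adjPairs G (G.neighborFinset x) : ℝ) ^ 10 ≤
      (n : ℝ) ^ 9 * ((n : ℝ) ^ 10 * a + (n : ℝ) ^ 2 * (a : ℝ) ^ 10) := by exact_mod_cast h
  have h1 : (n : ℝ) ^ 9 * ((n : ℝ) ^ 10 * a) ≤ (n : ℝ) ^ (197 / 10 : ℝ) := by
    calc (n : ℝ) ^ 9 * ((n : ℝ) ^ 10 * a) ≤ (n : ℝ) ^ 9 * ((n : ℝ) ^ 10 * (n : ℝ) ^ (7 / 10 : ℝ)) := by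
          gcongr
      _ = (n : ℝ) ^ (197 / 10 : ℝ) := by
          rw [← mul_assoc, ← pow_add, ← Real.rpow_natCast, ← Real.rpow_add hn0]
          norm_num
  have h2 : (n : ℝ) ^ 9 * ((n : ℝ) ^ 2 * (a : ℝ) ^ 10) ≤ (n : ℝ) ^ (197 / 10 : ℝ) := by
    calc (n : ℝ) ^ 9 * ((n : ℝ) ^ 2 * (a : ℝ) ^ 10)
        ≤ (n : ℝ) ^ 9 * ((n : ℝ) ^ 2 * ((n : ℝ) ^ (7 / 10 : ℝ)) ^ 10) := by
          gcongr
      _ = (n : ℝ) ^ (18 : ℝ) := by
          rw [← mul_assoc, ← pow_add, ← Real.rpow_natCast, ← Real.rpow_natCast,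
            ← Real.rpow_mul hn0.le, ← Real.rpow_add hn0]
          norm_num
      _ ≤ (n : ℝ) ^ (197 / 10 : ℝ) := Real.rpow_le_rpow_of_exponent_le hn1 (by norm_num)
  have h3 : (adjPairs G (G.neighborFinset x) : ℝ) ^ 10 ≤
      (2 * (n : ℝ) ^ (197 / 100 : ℝ)) ^ 10 := by
    have h4 : (2 * (n : ℝ) ^ (197 / 100 : ℝ)) ^ 10 = 1024 * (n : ℝ) ^ (197 / 10 : ℝ) := by
      rw [mul_pow, ← Real.rpow_natCast ((n : ℝ) ^ (197 / 100 : ℝ)), ← Real.rpow_mul hn0.le]
      norm_num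
    rw [h4]
    have h5 : (0 : ℝ) ≤ (n : ℝ) ^ (197 / 10 : ℝ) := by positivity
    nlinarith
  exact le_of_pow_le_pow_left₀ (by norm_num) (by positivity) h3

/-- **Core upper bound.** -/
theorem upper_core (ε : ℝ) (hε : 0 < ε) : ∀ᶠ n : ℕ in atTop, ∀ G : SimpleGraph (Fin n),
    G.CliqueFree 5 → ∀ a : ℕ, (∀ s : Finset (Fin n), G.IsIndepSet (s : Set (Fin n)) → #s ≤ a) →
    (a : ℝ) ≤ (n : ℝ) ^ (7 / 10 : ℝ) → ∀ X : ℝ, 0 ≤ X →
    (∀ x y, G.Adj x y → ∀ s : Finset (Fin n), (∀ z ∈ s, G.Adj x z ∧ G.Adj y z) → (#s : ℝ) ≤ X) →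
    (G.edgeSet.ncard : ℝ) ≤ (n : ℝ) ^ 2 / 8 + n * X / 4 + ε * (n : ℝ) ^ 2 := by
  classical
  -- reduce to small epsilon
  set e : ℝ := min (ε / 2) 1 with he
  have he0 : 0 < e := by positivity
  have he1 : e ≤ 1 := min_le_right _ _
  have he2 : e ≤ ε / 2 := min_le_left _ _
  set B : ℕ := bound (e / 8) ⌈4 / e⌉₊ with hB
  have hBpos : 0 < B := bound_pos _ _
  have hB0 : (0 : ℝ) < B := by exact_mod_cast hBpos
  -- constant
  set κ : ℝ := (1 - e / 4) * (e / 8) ^ 3 / (2 * B) ^ 3 with hκ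
  have hκ0 : 0 < κ := by
    have : 0 < 1 - e / 4 := by linarith
    positivity
  have t1 : Tendsto (fun n : ℕ => 2 * (n : ℝ) ^ (-(3 / 100) : ℝ)) atTop (𝓝 (2 * 0)) := by
    apply Tendsto.const_mul
    exact (tendsto_rpow_neg_atTop (by norm_num)).comp tendsto_natCast_atTop_atTop
  have t2 : Tendsto (fun n : ℕ => (B : ℝ) * (n : ℝ) ^ (-(3 / 10) : ℝ)) atTop (𝓝 (B * 0)) := by
    apply Tendsto.const_mul
    exact (tendsto_rpow_neg_atTop (by norm_num)).comp tendsto_natCast_atTop_atTop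
  rw [mul_zero] at t1 t2
  filter_upwards [t1.eventually (gt_mem_nhds hκ0), t2.eventually (gt_mem_nhds hε),
    eventually_ge_atTop (max 1 ⌈4 / e⌉₊)] with n h1 h2 h3 G hG a ha ha' X hX0 hX
  have hn1 : 1 ≤ n := le_trans (le_max_left _ _) h3
  have hn2 : ⌈4 / e⌉₊ ≤ n := le_trans (le_max_right _ _) h3
  have hn1' : (1 : ℝ) ≤ n := by exact_mod_cast hn1
  have hn0 : (0 : ℝ) < n := by linarith
  have : Nonempty (Fin n) := ⟨⟨0, hn1⟩⟩
  have hcardV : Fintype.card (Fin n) = n := Fintype.card_fin n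
  have htri : (#{p : Fin n × Fin n × Fin n | G.Adj p.1 p.2.1 ∧ G.Adj p.1 p.2.2 ∧
      G.Adj p.2.1 p.2.2} : ℝ) <
      (1 - e / 4) * (e / 8) ^ 3 * (Fintype.card (Fin n) / (2 * (B : ℕ) : ℝ)) ^ 3 := by
    rw [tri_eq_sum]
    push_cast
    calc ∑ x, (adjPairs G (G.neighborFinset x) : ℝ)
        ≤ ∑ x : Fin n, 2 * (n : ℝ) ^ (197 / 100 : ℝ) := by
          apply sum_le_sum
          intro x _
          have := adjPairs_nbr_le' G hG a ha (by rw [hcardV]; exact hn1)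
            (by rw [hcardV]; exact ha') x
          rwa [hcardV] at this
      _ = (2 * (n : ℝ) ^ (-(3 / 100) : ℝ)) * (n : ℝ) ^ 3 := by
          rw [sum_const, card_univ, Fintype.card_fin, nsmul_eq_mul]
          have : (n : ℝ) * (n : ℝ) ^ (197 / 100 : ℝ) = (n : ℝ) ^ (-(3 / 100) : ℝ) * (n : ℝ) ^ 3 := by
            rw [← Real.rpow_natCast (n : ℝ) 3, ← Real.rpow_add hn0]
            nth_rewrite 1 [← Real.rpow_one (n : ℝ)]
            rw [← Real.rpow_add hn0]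
            norm_num
          linarith
      _ < κ * (n : ℝ) ^ 3 := by
          apply mul_lt_mul_of_pos_right h1
          positivity
      _ = _ := by
          rw [hκ, hcardV]
          field_simp
  have hmain := edges_le G e he0 he1 a ha X hX0 (by
    intro x y hxy
    exact hX x y hxy _ (fun z hz => by simpa using hz)) (by rw [hcardV]; exact hn2) htri
  rw [hcardV] at hmain
  have hedge : G.edgeSet.ncard = #G.edgeFinset := by
    rw [Set.ncard_eq_toFinset_card']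
    rfl
  rw [hedge]
  have h5 : (B : ℝ) * a * n / 4 ≤ ε / 4 * (n : ℝ) ^ 2 := by
    have h6 : (B : ℝ) * a ≤ ε * n := by
      calc (B : ℝ) * a ≤ B * (n : ℝ) ^ (7 / 10 : ℝ) := by gcongr
        _ = (B * (n : ℝ) ^ (-(3 / 10) : ℝ)) * n := by
            rw [mul_assoc]
            congr 1
            nth_rewrite 3 [← Real.rpow_one (n : ℝ)]
            rw [← Real.rpow_add hn0]
            norm_num
        _ ≤ ε * n := by
            apply mul_le_mul_of_nonneg_right h2.le hn0.le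
    nlinarith
  have h7 : e * (n : ℝ) ^ 2 ≤ ε / 2 * (n : ℝ) ^ 2 := by gcongr
  have h8 : 0 ≤ ε * (n : ℝ) ^ 2 := by positivity
  linarith

end Pool.Agent.H54.RT
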