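import Pool.Agent.H54.RTQ

/-!
# Ramsey–Turán numbers of complete graphs and the two densities
-/

set_option maxHeartbeats 1000000

open Finset Filter Topology

namespace Pool.Agent.H54.RT

/-- `RTnum n r x`: the largest number of edges of a `K_r`-free graph on `n` vertices whose
independence number is smaller than the real number `x` (and `0` if there is no such graph). -/
noncomputable def RTnum (n r : ℕ) (x : ℝ) : ℕ :=
  sSup {e : ℕ | ∃ G : SimpleGraph (Fin n), G.CliqueFree r ∧ (G.indepNum : ℝ) < x ∧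
    G.edgeSet.ncard = e}

/-- upper Ramsey–Turán density of `K_r` for `f` -/
noncomputable def upperDensity (r : ℕ) (f : ℕ → ℝ) : ℝ :=
  limsup (fun n : ℕ => (RTnum n r (f n) : ℝ) / (n : ℝ) ^ 2) atTop

/-- lower Ramsey–Turán density of `K_r` for `f` -/
noncomputable def lowerDensity (r : ℕ) (f : ℕ → ℝ) : ℝ :=
  liminf (fun n : ℕ => (RTnum n r (f n) : ℝ) / (n : ℝ) ^ 2) atTop

/-- the function `n ↦ c · Q(3, n/2)` -/
noncomputable def fc (c : ℝ) (n : ℕ) : ℝ := c * (Q 3 (n / 2) : ℝ)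

lemma ncard_edge_le {n : ℕ} (G : SimpleGraph (Fin n)) : G.edgeSet.ncard ≤ n ^ 2 := by
  classical
  have h1 : G.edgeSet.ncard ≤ (Set.univ : Set (Sym2 (Fin n))).ncard :=
    Set.ncard_le_ncard (Set.subset_univ _) (Set.toFinite _)
  rw [Set.ncard_univ, Nat.card_eq_fintype_card, Sym2.card, Fintype.card_fin] at h1
  refine le_trans h1 ?_
  rw [Nat.choose_two_right]
  apply Nat.div_le_of_le_mul
  rcases Nat.eq_zero_or_pos n with rfl | h
  · simp
  · simp only [Nat.add_sub_cancel]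
    nlinarith

lemma RT_bdd (n r : ℕ) (x : ℝ) : BddAbove {e : ℕ | ∃ G : SimpleGraph (Fin n), G.CliqueFree r ∧
    (G.indepNum : ℝ) < x ∧ G.edgeSet.ncard = e} := by
  refine ⟨n ^ 2, ?_⟩
  rintro e ⟨G, _, _, rfl⟩
  exact ncard_edge_le G

lemma le_RT {n r : ℕ} {x : ℝ} (G : SimpleGraph (Fin n)) (hG : G.CliqueFree r)
    (hx : (G.indepNum : ℝ) < x) : G.edgeSet.ncard ≤ RTnum n r x :=
  le_csSup (RT_bdd n r x) ⟨G, hG, hx, rfl⟩

lemma RT_le {n r : ℕ} {x B : ℝ} (hB : 0 ≤ B) (h : ∀ G : SimpleGraph (Fin n), G.CliqueFree r →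
    (G.indepNum : ℝ) < x → (G.edgeSet.ncard : ℝ) ≤ B) : (RTnum n r x : ℝ) ≤ B := by
  rcases Set.eq_empty_or_nonempty {e : ℕ | ∃ G : SimpleGraph (Fin n), G.CliqueFree r ∧
    (G.indepNum : ℝ) < x ∧ G.edgeSet.ncard = e} with h0 | h0
  · have : RTnum n r x = 0 := by
      unfold RTnum
      rw [h0]
      simp
    rw [this]
    simpa using hB
  · obtain ⟨G, h1, h2, h3⟩ := Nat.sSup_mem h0 (RT_bdd n r x)
    have := h G h1 h2
    rw [h3] at this
    exact this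

lemma RT_le_sq (n r : ℕ) (x : ℝ) : (RTnum n r x : ℝ) ≤ (n : ℝ) ^ 2 := by
  apply RT_le (by positivity)
  intro G _ _
  exact_mod_cast ncard_edge_le G

lemma ratio_nonneg (n r : ℕ) (x : ℝ) : 0 ≤ (RTnum n r x : ℝ) / (n : ℝ) ^ 2 := by positivity

lemma ratio_le_one (n r : ℕ) (x : ℝ) : (RTnum n r x : ℝ) / (n : ℝ) ^ 2 ≤ 1 :=
  div_le_one_of_le₀ (RT_le_sq n r x) (by positivity)

lemma bdd1 (r : ℕ) (f : ℕ → ℝ) : IsBoundedUnder (· ≤ ·) atTop
    (fun n : ℕ => (RTnum n r (f n) : ℝ) / (n : ℝ) ^ 2) :=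
  isBoundedUnder_of ⟨1, fun n => ratio_le_one n r (f n)⟩

lemma bdd2 (r : ℕ) (f : ℕ → ℝ) : IsBoundedUnder (· ≥ ·) atTop
    (fun n : ℕ => (RTnum n r (f n) : ℝ) / (n : ℝ) ^ 2) :=
  isBoundedUnder_of ⟨0, fun n => ratio_nonneg n r (f n)⟩

lemma upperDensity_le {r : ℕ} {f : ℕ → ℝ} {b : ℝ}
    (h : ∀ ε : ℝ, 0 < ε → ∀ᶠ n : ℕ in atTop, (RTnum n r (f n) : ℝ) ≤ (b + ε) * (n : ℝ) ^ 2) :
    upperDensity r f ≤ b := by
  apply le_of_forall_pos_le_add
  intro ε hε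
  apply limsup_le_of_le (bdd2 r f).isCoboundedUnder_le
  filter_upwards [h ε hε, eventually_ge_atTop 1] with n h1 h2
  have : (0 : ℝ) < n := by exact_mod_cast h2
  rw [div_le_iff₀ (by positivity)]
  exact h1

lemma le_upperDensity {r : ℕ} {f : ℕ → ℝ} {b : ℝ}
    (h : ∀ ε : ℝ, 0 < ε → ∃ᶠ n : ℕ in atTop, (b - ε) * (n : ℝ) ^ 2 ≤ (RTnum n r (f n) : ℝ)) :
    b ≤ upperDensity r f := by
  apply le_of_forall_pos_le_add
  intro ε hε
  have : b - ε ≤ upperDensity r f := by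
    apply le_limsup_of_frequently_le _ (bdd1 r f)
    refine ((h ε hε).and_eventually (eventually_ge_atTop 1)).mono ?_
    rintro n ⟨h1, h2⟩
    have : (0 : ℝ) < n := by exact_mod_cast h2
    rw [le_div_iff₀ (by positivity)]
    exact h1
  linarith

lemma lowerDensity_le {r : ℕ} {f : ℕ → ℝ} {b : ℝ}
    (h : ∀ ε : ℝ, 0 < ε → ∃ᶠ n : ℕ in atTop, (RTnum n r (f n) : ℝ) ≤ (b + ε) * (n : ℝ) ^ 2) :
    lowerDensity r f ≤ b := by
  apply le_of_forall_pos_le_add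
  intro ε hε
  apply liminf_le_of_frequently_le _ (bdd2 r f)
  refine ((h ε hε).and_eventually (eventually_ge_atTop 1)).mono ?_
  rintro n ⟨h1, h2⟩
  have : (0 : ℝ) < n := by exact_mod_cast h2
  rw [div_le_iff₀ (by positivity)]
  exact h1

lemma le_lowerDensity {r : ℕ} {f : ℕ → ℝ} {b : ℝ}
    (h : ∀ ε : ℝ, 0 < ε → ∀ᶠ n : ℕ in atTop, (b - ε) * (n : ℝ) ^ 2 ≤ (RTnum n r (f n) : ℝ)) :
    b ≤ lowerDensity r f := by
  apply le_of_forall_pos_le_add
  intro ε hε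
  have : b - ε ≤ lowerDensity r f := by
    apply le_liminf_of_le (bdd1 r f).isCoboundedUnder_ge
    filter_upwards [h ε hε, eventually_ge_atTop 1] with n h1 h2
    have : (0 : ℝ) < n := by exact_mod_cast h2
    rw [le_div_iff₀ (by positivity)]
    exact h1
  linarith

lemma lowerDensity_le_upperDensity (r : ℕ) (f : ℕ → ℝ) : lowerDensity r f ≤ upperDensity r f :=
  liminf_le_limsup (bdd1 r f) (bdd2 r f)

end Pool.Agent.H54.RT
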