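import Pool.Agent.H54.RTFinalL

/-!
# The remaining bounds for the densities
-/

set_option maxHeartbeats 1000000

open Finset Filter Topology

namespace Pool.Agent.H54.RT

lemma rpow_small (p : ℝ) (hp : p < 1) (ε : ℝ) (hε : 0 < ε) :
    ∀ᶠ n : ℕ in atTop, (n : ℝ) ^ p ≤ ε * n := by
  have h1 : Tendsto (fun n : ℕ => (n : ℝ) ^ (1 - p)) atTop atTop :=
    (tendsto_rpow_atTop (by linarith)).comp tendsto_natCast_atTop_atTop
  filter_upwards [h1.eventually_ge_atTop (1 / ε), eventually_ge_atTop 1] with n h2 h3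
  have h0 : (0 : ℝ) < n := by exact_mod_cast h3
  rw [div_le_iff₀ hε] at h2
  have h4 : (n : ℝ) ^ p * (n : ℝ) ^ (1 - p) = n := by
    rw [← Real.rpow_add h0]
    simp
  have h5 : (0 : ℝ) < (n : ℝ) ^ p := by positivity
  calc (n : ℝ) ^ p = (n : ℝ) ^ p * 1 := by ring
    _ ≤ (n : ℝ) ^ p * ((n : ℝ) ^ (1 - p) * ε) := by gcongr
    _ = ε * ((n : ℝ) ^ p * (n : ℝ) ^ (1 - p)) := by ring
    _ = ε * n := by rw [h4]

lemma Q_big (C : ℝ) (hC : 0 < C) :
    ∀ᶠ n : ℕ in atTop, C * (n : ℝ) ^ (48 / 100 : ℝ) ≤ Q 3 (n / 2) := by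
  filter_upwards [rpow_small (96 / 100) (by norm_num) (1 / (8 * C ^ 2)) (by positivity),
    eventually_ge_atTop 2] with n h1 h2
  have h0 : (0 : ℝ) ≤ n := Nat.cast_nonneg n
  have hN : 1 ≤ n / 2 := by omega
  have h3 := le_Q_sq (n / 2)
  have h4 := one_le_Q hN
  have h5 : n / 2 ≤ 2 * (Q 3 (n / 2)) ^ 2 := by nlinarith
  have h6 : n ≤ 4 * (n / 2) := by omega
  have h7 : (n : ℝ) ≤ 8 * (Q 3 (n / 2) : ℝ) ^ 2 := by
    have : n ≤ 8 * (Q 3 (n / 2)) ^ 2 := by omega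
    exact_mod_cast this
  have h8 : (C * (n : ℝ) ^ (48 / 100 : ℝ)) ^ 2 ≤ (Q 3 (n / 2) : ℝ) ^ 2 := by
    calc (C * (n : ℝ) ^ (48 / 100 : ℝ)) ^ 2 = C ^ 2 * (n : ℝ) ^ (96 / 100 : ℝ) := by
          rw [mul_pow, ← Real.rpow_natCast ((n : ℝ) ^ (48 / 100 : ℝ)), ← Real.rpow_mul h0]
          norm_num
      _ ≤ C ^ 2 * (1 / (8 * C ^ 2) * n) := by gcongr
      _ = n / 8 := by field_simp
      _ ≤ (Q 3 (n / 2) : ℝ) ^ 2 := by linarith
  exact le_of_pow_le_pow_left₀ (by norm_num) (Nat.cast_nonneg _) h8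

lemma tendsto_two_mul : Tendsto (fun N : ℕ => 2 * N) atTop atTop := by
  apply tendsto_atTop_atTop.2
  intro b
  exact ⟨b, fun a ha => by omega⟩

lemma tendsto_half : Tendsto (fun n : ℕ => n / 2) atTop atTop := by
  apply tendsto_atTop_atTop.2
  intro b
  exact ⟨2 * b, fun a ha => by omega⟩

/-- **(U4)** -/
theorem lower_le (c : ℝ) (hc0 : 0 < c) (hc1 : c < 1) :
    lowerDensity 5 (fc c) ≤ (1 + c ^ 2) / 8 := by
  apply le_of_forall_pos_le_add
  intro ε hε
  have hcc : c ^ 2 < 1 := by nlinarith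
  set l : ℝ := min (c ^ 2 + 8 * ε) ((c ^ 2 + 1) / 2) with hl
  have h1 : c ^ 2 < l := lt_min (by linarith) (by linarith)
  have h2 : l < 1 := lt_of_le_of_lt (min_le_right _ _) (by linarith)
  have h3 : l ≤ c ^ 2 + 8 * ε := min_le_left _ _
  have h4 := lower_of c (l / 2) hc1.le (by
    have h5 : ∃ᶠ N : ℕ in atTop, (fun n : ℕ => ∃ k : ℕ, c * Q 3 (n / 2) ≤ Q 3 k ∧
        (k : ℝ) ≤ l / 2 * n + 1) (2 * N) := by
      refine (growthA c l hc0 h1 h2).mono ?_
      intro N hN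
      refine ⟨⌈l * (N : ℝ)⌉₊, ?_, ?_⟩
      · rw [Nat.mul_div_cancel_left N (by norm_num)]
        exact hN
      · have : (0 : ℝ) ≤ l * N := by
          have : 0 < l := lt_trans (by positivity) h1
          positivity
        have := Nat.ceil_lt_add_one this
        push_cast
        linarith
    exact tendsto_two_mul.frequently h5)
  linarith

/-- **(L1)** -/
theorem le_upper (c : ℝ) (hc0 : 0 < c) (hc1 : c < 1) :
    c ^ 4 / 4 ≤ upperDensity 5 (fc c) := by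
  have key : ∀ b : ℝ, 0 < b → b < c ^ 2 → b ^ 2 / 4 ≤ upperDensity 5 (fc c) := by
    intro b hb0 hb
    have hb1 : b < 1 := by nlinarith
    set l : ℝ := Real.sqrt ((b + c ^ 2) / 2) with hl
    have hl2 : l ^ 2 = (b + c ^ 2) / 2 := Real.sq_sqrt (by positivity)
    have hl0 : 0 < l := Real.sqrt_pos.2 (by positivity)
    have hlc : l < c := by
      have : l ^ 2 < c ^ 2 := by rw [hl2]; linarith
      exact lt_of_pow_lt_pow_left₀ 2 hc0.le this
    apply le_upperDensity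
    intro ε hε
    have hfreq := (growthB b l hb0 hb1 hl0 (by rw [hl2]; linarith)).and_eventually
      ((tendsto_natCast_atTop_atTop (R := ℝ)).eventually_ge_atTop (1 / b))
    have hev := ((lower_graph 1 le_rfl).and ((Q_big (8 / (c - l)) (by
      have : 0 < c - l := by linarith
      positivity)).and ((rpow_small (45 / 100) (by norm_num) (ε / 2) (by positivity)).and
        ((tendsto_natCast_atTop_atTop (R := ℝ)).eventually_ge_atTop (2 / ε))))).and
        (eventually_ge_atTop 1)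
    have h5 : ∃ᶠ N : ℕ in atTop, (fun n : ℕ => (b ^ 2 / 4 - ε) * (n : ℝ) ^ 2 ≤
        (RTnum n 5 (fc c n) : ℝ)) (2 * N) := by
      refine (hfreq.and_eventually (tendsto_two_mul.eventually hev)).mono ?_
      rintro N ⟨⟨hN1, hN2⟩, ⟨hG, hQb, herr, hn⟩, hn1⟩
      set n := 2 * N with hn_def
      have hnN : (n : ℝ) = 2 * N := by rw [hn_def]; push_cast; ring
      have hhalf : n / 2 = N := Nat.mul_div_cancel_left N (by norm_num)
      rw [hhalf] at hQb
      have hN0 : (0 : ℝ) ≤ N := Nat.cast_nonneg N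
      set s := ⌊b * (N : ℝ)⌋₊ with hs
      have hs1 : 0 < s := by
        rw [hs, Nat.floor_pos]
        rw [div_le_iff₀ hb0] at hN2
        linarith
      have hsr : (s : ℝ) ≤ b * N := Nat.floor_le (by positivity)
      have hsl : b * N < s + 1 := Nat.lt_floor_add_one _
      have hsN : s ≤ N := by
        have : (s : ℝ) ≤ N := by nlinarith
        exact_mod_cast this
      obtain ⟨G, hG5, _, hα, hE⟩ := hG s hs1 (by omega)
      have hα := hα rfl
      have hcl : 0 < c - l := by linarith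
      have hn0 : (0 : ℝ) < n := by exact_mod_cast hn1
      have hpos : (0 : ℝ) < (n : ℝ) ^ (48 / 100 : ℝ) := by positivity
      have h6 : (G.indepNum : ℝ) < fc c n := by
        unfold fc
        rw [hhalf]
        have h7 : 8 * (n : ℝ) ^ (48 / 100 : ℝ) ≤ (c - l) * Q 3 N := by
          have : 8 / (c - l) * (n : ℝ) ^ (48 / 100 : ℝ) * (c - l) ≤ Q 3 N * (c - l) := by gcongr
          have h8 : 8 / (c - l) * (n : ℝ) ^ (48 / 100 : ℝ) * (c - l)
              = 8 * (n : ℝ) ^ (48 / 100 : ℝ) := by field_simp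
          rw [h8] at this
          linarith
        calc (G.indepNum : ℝ) ≤ Q 3 s + 7 * (n : ℝ) ^ (48 / 100 : ℝ) := hα
          _ ≤ l * Q 3 N + 7 * (n : ℝ) ^ (48 / 100 : ℝ) := by gcongr
          _ < l * Q 3 N + 8 * (n : ℝ) ^ (48 / 100 : ℝ) := by linarith
          _ ≤ c * Q 3 N := by linarith
      have h7 : (G.edgeSet.ncard : ℝ) ≤ RTnum n 5 (fc c n) := by
        exact_mod_cast le_RT G hG5 h6
      refine le_trans ?_ h7
      rw [div_le_iff₀ hε] at hn
      have h8 : (1 : ℝ) ≤ (n : ℝ) * (ε / 2) := by linarith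
      have h9 : (n : ℝ) ≤ (ε / 2) * (n : ℝ) ^ 2 := by nlinarith
      have h10 : (n : ℝ) * (n : ℝ) ^ (45 / 100 : ℝ) ≤ ε / 2 * (n : ℝ) ^ 2 := by
        calc (n : ℝ) * (n : ℝ) ^ (45 / 100 : ℝ) ≤ n * (ε / 2 * n) := by gcongr
          _ = ε / 2 * (n : ℝ) ^ 2 := by ring
      have h11 : b ^ 2 / 4 * (n : ℝ) ^ 2 - n ≤ s * s := by
        have h12 : b * N - 1 ≤ (s : ℝ) := by linarith
        have hs0 : (0 : ℝ) ≤ s := Nat.cast_nonneg s
        have h13 : b ^ 2 / 4 * (n : ℝ) ^ 2 - n = (b * N) ^ 2 - 2 * N := by rw [hnN]; ring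
        rw [h13]
        have h14 : 1 ≤ b * N := by
          rw [div_le_iff₀ hb0] at hN2
          linarith
        have h15 : (b * N - 1) ^ 2 ≤ (s : ℝ) ^ 2 := by
          apply pow_le_pow_left₀ (by linarith) h12
        nlinarith
      push_cast at hE
      nlinarith
    exact tendsto_two_mul.frequently h5
  have hlim : Tendsto (fun b : ℝ => b ^ 2 / 4) (𝓝[<] (c ^ 2)) (𝓝 ((c ^ 2) ^ 2 / 4)) := by
    have : Continuous fun b : ℝ => b ^ 2 / 4 := by fun_prop
    exact (this.tendsto _).mono_left nhdsWithin_le_nhds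
  have h1 : (c ^ 2) ^ 2 / 4 ≤ upperDensity 5 (fc c) := by
    apply le_of_tendsto hlim
    have : Set.Ioo 0 (c ^ 2) ∈ 𝓝[<] (c ^ 2) := Ioo_mem_nhdsLT (by positivity)
    filter_upwards [this] with b hb
    exact key b hb.1 hb.2
  calc c ^ 4 / 4 = (c ^ 2) ^ 2 / 4 := by ring
    _ ≤ _ := h1

/-- **(L2)** -/
theorem lower_quad : ∃ κ : ℝ, 0 < κ ∧ ∀ c : ℝ, 0 < c → c < 1 →
    κ * c ^ 2 ≤ lowerDensity 5 (fc c) := by
  obtain ⟨K, hK, hratio⟩ := Q_ratio
  have hK0 : 0 < K := by linarith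
  refine ⟨1 / (128 * K), by positivity, ?_⟩
  intro c hc0 hc1
  set e : ℝ := c ^ 2 / (16 * K) with he
  have he0 : 0 < e := by positivity
  have he1 : e ≤ 1 := by
    rw [he, div_le_one (by positivity)]
    nlinarith
  set M : ℕ := ⌈1 / e⌉₊ with hM
  have hMe : 1 / e ≤ M := Nat.le_ceil _
  have hM1 : (1 : ℝ) ≤ M := by
    refine le_trans ?_ hMe
    rw [le_div_iff₀ he0]
    linarith
  have hM1' : 1 ≤ M := by exact_mod_cast hM1
  have hM0 : (0 : ℝ) < M := by linarith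
  have hMu : (M : ℝ) ≤ 2 / e := by
    have h1 : (M : ℝ) < 1 / e + 1 := Nat.ceil_lt_add_one (by positivity)
    have h2 : 1 ≤ 1 / e := by rw [le_div_iff₀ he0]; linarith
    have h3 : 2 / e = 1 / e + 1 / e := by ring
    linarith
  have hbound : 1 / (128 * K) * c ^ 2 ≤ 1 / (4 * M) := by
    have h1 : 1 / (128 * K) * c ^ 2 = e / 8 := by rw [he]; field_simp; norm_num
    rw [h1]
    rw [div_le_div_iff₀ (by norm_num) (by positivity)]
    rw [le_div_iff₀ he0] at hMu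
    linarith
  apply le_lowerDensity
  intro ε hε
  filter_upwards [lower_graph M hM1', tendsto_half.eventually (hratio e he0 he1),
    Q_big ((2 * M + 6) / (c / 2)) (by positivity),
    rpow_small (45 / 100) (by norm_num) (ε / 2) (by positivity),
    (tendsto_natCast_atTop_atTop (R := ℝ)).eventually_ge_atTop (2 / ε),
    eventually_ge_atTop (2 * M)] with n hG hr hQb herr hn hnM
  have hn1 : 1 ≤ n := by omega
  have hn0 : (0 : ℝ) < n := by exact_mod_cast hn1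
  set s := n / (2 * M) with hs
  have hs1 : 0 < s := Nat.div_pos hnM (by omega)
  have hsn : 2 * M * s ≤ n := Nat.mul_div_le n (2 * M)
  have hslow : (n : ℝ) < 2 * M * (s + 1) := by
    have := Nat.lt_mul_div_succ n (show 0 < 2 * M by omega)
    exact_mod_cast this
  obtain ⟨G, hG5, hα, _, hE⟩ := hG s hs1 hsn
  have hsN : (s : ℝ) ≤ e * ((n / 2 : ℕ) : ℝ) := by
    have h1 : M * s ≤ n / 2 := by
      rw [Nat.le_div_iff_mul_le (by norm_num)]
      calc M * s * 2 = 2 * M * s := by ring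
        _ ≤ n := hsn
    have h2 : (M : ℝ) * s ≤ ((n / 2 : ℕ) : ℝ) := by exact_mod_cast h1
    have h3 : 1 ≤ e * M := by
      rw [div_le_iff₀ he0] at hMe
      linarith
    have hs0 : (0 : ℝ) ≤ s := Nat.cast_nonneg s
    calc (s : ℝ) = 1 * s := by ring
      _ ≤ (e * M) * s := by gcongr
      _ = e * (M * s) := by ring
      _ ≤ e * ((n / 2 : ℕ) : ℝ) := by gcongr
  have h1 := hr s hsN
  have h2 : K * e = (c / 4) ^ 2 := by rw [he]; field_simp; norm_num
  rw [h2, ← mul_pow] at h1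
  have h3 : (Q 3 s : ℝ) ≤ c / 4 * Q 3 (n / 2) :=
    le_of_pow_le_pow_left₀ (by norm_num) (by positivity) h1
  have hpos : (0 : ℝ) < (n : ℝ) ^ (48 / 100 : ℝ) := by positivity
  have h4 : (2 * M + 6) * (n : ℝ) ^ (48 / 100 : ℝ) ≤ c / 2 * Q 3 (n / 2) := by
    calc (2 * M + 6) * (n : ℝ) ^ (48 / 100 : ℝ)
        = c / 2 * ((2 * M + 6) / (c / 2) * (n : ℝ) ^ (48 / 100 : ℝ)) := by field_simp
      _ ≤ c / 2 * Q 3 (n / 2) := by gcongr
  have h5 : (G.indepNum : ℝ) < fc c n := by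
    unfold fc
    calc (G.indepNum : ℝ) ≤ 2 * Q 3 s + (2 * M + 5) * (n : ℝ) ^ (48 / 100 : ℝ) := hα
      _ ≤ 2 * (c / 4 * Q 3 (n / 2)) + (2 * M + 5) * (n : ℝ) ^ (48 / 100 : ℝ) := by gcongr
      _ < 2 * (c / 4 * Q 3 (n / 2)) + (2 * M + 6) * (n : ℝ) ^ (48 / 100 : ℝ) := by
          nlinarith
      _ ≤ c * Q 3 (n / 2) := by linarith
  have h7 : (G.edgeSet.ncard : ℝ) ≤ RTnum n 5 (fc c n) := by
    exact_mod_cast le_RT G hG5 h5
  refine le_trans ?_ h7
  rw [div_le_iff₀ hε] at hn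
  have h8 : (1 : ℝ) ≤ (n : ℝ) * (ε / 2) := by linarith
  have h9 : (n : ℝ) ≤ (ε / 2) * (n : ℝ) ^ 2 := by nlinarith
  have h10 : (n : ℝ) * (n : ℝ) ^ (45 / 100 : ℝ) ≤ ε / 2 * (n : ℝ) ^ 2 := by
    calc (n : ℝ) * (n : ℝ) ^ (45 / 100 : ℝ) ≤ n * (ε / 2 * n) := by gcongr
      _ = ε / 2 * (n : ℝ) ^ 2 := by ring
  have h11 : 1 / (4 * M) * (n : ℝ) ^ 2 - n ≤ M * s * s := by
    have h12 : (n : ℝ) / (2 * M) - 1 ≤ s := by
      have : (n : ℝ) / (2 * M) < s + 1 := by
        rw [div_lt_iff₀ (by positivity)]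
        linarith
      linarith
    have h13 : 0 ≤ (n : ℝ) / (2 * M) - 1 := by
      have : (2 * M : ℝ) ≤ n := by exact_mod_cast hnM
      rw [sub_nonneg, le_div_iff₀ (by positivity)]
      linarith
    calc 1 / (4 * M) * (n : ℝ) ^ 2 - n ≤ M * ((n : ℝ) / (2 * M) - 1) ^ 2 := by
          have : M * ((n : ℝ) / (2 * M) - 1) ^ 2 = 1 / (4 * M) * (n : ℝ) ^ 2 - n + M := by
            field_simp
            ring
          rw [this]
          linarith
      _ ≤ M * (s : ℝ) ^ 2 := by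
          gcongr
      _ = M * s * s := by ring
  have h12 : (1 / (128 * K) * c ^ 2 - ε) * (n : ℝ) ^ 2 ≤ (1 / (4 * M) - ε) * (n : ℝ) ^ 2 := by
    gcongr
  nlinarith

end Pool.Agent.H54.RT
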