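import Pool.Agent.H54.RTFinalU

/-!
# Growth lemmas and the remaining bounds
-/

set_option maxHeartbeats 1000000

open Finset Filter Topology

namespace Pool.Agent.H54.RT

lemma one_le_Q {N : ℕ} (h : 1 ≤ N) : 1 ≤ Q 3 N := by
  have h1 := le_Q_sq N
  by_contra hcon
  have h2 : Q 3 N = 0 := by omega
  rw [h2] at h1
  omega

lemma growthA (c l : ℝ) (hc0 : 0 < c) (hc : c ^ 2 < l) (hl : l < 1) :
    ∃ᶠ N : ℕ in atTop, c * Q 3 N ≤ Q 3 ⌈l * (N : ℝ)⌉₊ := by
  intro hcon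
  rw [eventually_atTop] at hcon
  obtain ⟨N₀, hN₀⟩ := hcon
  have hl0 : 0 < l := lt_trans (by positivity) hc
  have hc1 : c < 1 := by nlinarith
  have hstep : ∀ k : ℕ, N₀ ≤ k → (Q 3 k : ℝ) ≤ c * Q 3 ⌊(k : ℝ) / l⌋₊ ∧ k ≤ ⌊(k : ℝ) / l⌋₊ := by
    intro k hk
    have h1 : (k : ℝ) ≤ k / l := by
      rw [le_div_iff₀ hl0]
      have : (0 : ℝ) ≤ k := Nat.cast_nonneg k
      nlinarith
    have h2 : k ≤ ⌊(k : ℝ) / l⌋₊ := Nat.le_floor h1
    refine ⟨?_, h2⟩
    have h3 := hN₀ _ (hk.trans h2)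
    push Not at h3
    refine le_trans ?_ h3.le
    have h4 : k ≤ ⌈l * ((⌊(k : ℝ) / l⌋₊ : ℕ) : ℝ)⌉₊ := by
      rcases Nat.eq_zero_or_pos k with rfl | hk0
      · simp
      have h5 : (k : ℝ) / l < ⌊(k : ℝ) / l⌋₊ + 1 := Nat.lt_floor_add_one _
      rw [div_lt_iff₀ hl0] at h5
      have h6 : ((k - 1 : ℕ) : ℝ) < l * ((⌊(k : ℝ) / l⌋₊ : ℕ) : ℝ) := by
        rw [Nat.cast_sub hk0]
        push_cast
        nlinarith
      have h7 := Nat.lt_ceil.2 h6
      omega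
    exact_mod_cast Q_mono h4
  -- the sequence
  set a : ℕ → ℕ := fun j => Nat.rec (max N₀ 1) (fun _ k => ⌊(k : ℝ) / l⌋₊) j with ha
  have ha0 : a 0 = max N₀ 1 := rfl
  have hsucc : ∀ j, a (j + 1) = ⌊(a j : ℝ) / l⌋₊ := fun j => rfl
  have hge : ∀ j, max N₀ 1 ≤ a j := by
    intro j
    induction j with
    | zero => exact ha0.ge
    | succ j ih => rw [hsucc]; exact ih.trans (hstep _ ((le_max_left _ _).trans ih)).2
  have hup : ∀ j, (a j : ℝ) * l ^ j ≤ a 0 := by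
    intro j
    induction j with
    | zero => simp
    | succ j ih =>
      have h1 : (a (j + 1) : ℝ) ≤ a j / l := by
        rw [hsucc]
        exact Nat.floor_le (by positivity)
      calc (a (j + 1) : ℝ) * l ^ (j + 1) ≤ a j / l * l ^ (j + 1) := by gcongr
        _ = a j * l ^ j := by rw [pow_succ]; field_simp
        _ ≤ a 0 := ih
  have hQ : ∀ j, (1 : ℝ) ≤ c ^ j * Q 3 (a j) := by
    intro j
    induction j with
    | zero =>
      have : 1 ≤ Q 3 (a 0) := one_le_Q ((le_max_right _ _).trans (hge 0))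
      simpa using this
    | succ j ih =>
      have h1 := (hstep (a j) ((le_max_left _ _).trans (hge j))).1
      rw [← hsucc] at h1
      calc (1 : ℝ) ≤ c ^ j * Q 3 (a j) := ih
        _ ≤ c ^ j * (c * Q 3 (a (j + 1))) := by gcongr
        _ = c ^ (j + 1) * Q 3 (a (j + 1)) := by ring
  -- the exponent
  have hlogl : Real.log l < 0 := Real.log_neg hl0 hl
  have hlogc : Real.log c < 0 := Real.log_neg hc0 hc1
  set p₀ : ℝ := Real.log c / Real.log l with hp₀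
  have hp₀h : 1 / 2 < p₀ := by
    have h1 : 2 * Real.log c < Real.log l := by
      have := Real.log_lt_log (by positivity) hc
      rw [Real.log_pow] at this
      push_cast at this
      exact this
    rw [hp₀, lt_div_iff_of_neg hlogl]
    linarith
  set p : ℝ := (p₀ + 1 / 2) / 2 with hp
  have hp1 : 1 / 2 < p := by rw [hp]; linarith
  have hp2 : p < p₀ := by rw [hp]; linarith
  have hlp : c < l ^ p := by
    rw [← Real.log_lt_log_iff hc0 (by positivity), Real.log_rpow hl0]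
    have : p₀ * Real.log l = Real.log c := by
      rw [hp₀]
      exact div_mul_cancel₀ _ hlogl.ne
    rw [← this]
    exact mul_lt_mul_of_neg_right hp2 hlogl
  -- a j tends to infinity
  have hcj : Tendsto (fun j : ℕ => (1 / c) ^ j) atTop atTop :=
    tendsto_pow_atTop_atTop_of_one_lt (by rw [lt_div_iff₀ hc0]; linarith)
  have haj : ∀ j, (1 / c) ^ j ≤ (a j : ℝ) := by
    intro j
    have h1 := hQ j
    have h2 : (Q 3 (a j) : ℝ) ≤ a j := by exact_mod_cast Q_le (a j)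
    rw [div_pow, one_pow, div_le_iff₀ (by positivity)]
    calc (1 : ℝ) ≤ c ^ j * Q 3 (a j) := h1
      _ ≤ c ^ j * a j := by gcongr
      _ = a j * c ^ j := by ring
  have hat : Tendsto a atTop atTop := by
    rw [← tendsto_natCast_atTop_iff (R := ℝ)]
    exact tendsto_atTop_mono haj hcj
  have hlast : Tendsto (fun j : ℕ => (l ^ p / c) ^ j) atTop atTop :=
    tendsto_pow_atTop_atTop_of_one_lt (by rw [lt_div_iff₀ hc0]; linarith)
  obtain ⟨j, hj1, hj2⟩ := ((hat.eventually (Q_le_rpow p hp1)).and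
    (hlast.eventually_gt_atTop ((a 0 : ℝ) ^ p))).exists
  have h1 := hQ j
  have h2 : (a j : ℝ) ^ p * (l ^ p) ^ j ≤ (a 0 : ℝ) ^ p := by
    have h3 : (l ^ p) ^ j = (l ^ j) ^ p := by
      rw [← Real.rpow_natCast, ← Real.rpow_mul hl0.le, ← Real.rpow_natCast,
        ← Real.rpow_mul hl0.le, mul_comm]
    rw [h3, ← Real.mul_rpow (Nat.cast_nonneg _) (by positivity)]
    apply Real.rpow_le_rpow (by positivity) (hup j) (by linarith)
  have h4 : (l ^ p / c) ^ j ≤ (a 0 : ℝ) ^ p := by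
    rw [div_pow, div_le_iff₀ (by positivity)]
    calc (l ^ p) ^ j = 1 * (l ^ p) ^ j := by ring
      _ ≤ (c ^ j * Q 3 (a j)) * (l ^ p) ^ j := by gcongr
      _ ≤ (c ^ j * (a j : ℝ) ^ p) * (l ^ p) ^ j := by gcongr
      _ = ((a j : ℝ) ^ p * (l ^ p) ^ j) * c ^ j := by ring
      _ ≤ (a 0 : ℝ) ^ p * c ^ j := by gcongr
  linarith

lemma growthB (b l : ℝ) (hb0 : 0 < b) (hb1 : b < 1) (hl0 : 0 < l) (hl : b < l ^ 2) :
    ∃ᶠ N : ℕ in atTop, (Q 3 ⌊b * (N : ℝ)⌋₊ : ℝ) ≤ l * Q 3 N := by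
  intro hcon
  rw [eventually_atTop] at hcon
  obtain ⟨N₀, hN₀⟩ := hcon
  have hstep : ∀ k : ℕ, N₀ ≤ k → l * Q 3 ⌈(k : ℝ) / b⌉₊ ≤ (Q 3 k : ℝ) ∧ k ≤ ⌈(k : ℝ) / b⌉₊ := by
    intro k hk
    have hk0 : (0 : ℝ) ≤ k := Nat.cast_nonneg k
    have h1 : (k : ℝ) ≤ k / b := by
      rw [le_div_iff₀ hb0]
      nlinarith
    have h2 : k ≤ ⌈(k : ℝ) / b⌉₊ := by
      have := h1.trans (Nat.le_ceil _)
      exact_mod_cast this
    refine ⟨?_, h2⟩
    have h3 := hN₀ _ (hk.trans h2)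
    push Not at h3
    refine h3.le.trans ?_
    have h4 : ⌊b * ((⌈(k : ℝ) / b⌉₊ : ℕ) : ℝ)⌋₊ ≤ k := by
      have h5 : ((⌈(k : ℝ) / b⌉₊ : ℕ) : ℝ) < k / b + 1 := Nat.ceil_lt_add_one (by positivity)
      have h6 : b * ((⌈(k : ℝ) / b⌉₊ : ℕ) : ℝ) < k + 1 := by
        calc b * ((⌈(k : ℝ) / b⌉₊ : ℕ) : ℝ) < b * (k / b + 1) := by gcongr
          _ = k + b := by field_simp
          _ < k + 1 := by linarith
      have h7 : ⌊b * ((⌈(k : ℝ) / b⌉₊ : ℕ) : ℝ)⌋₊ < k + 1 := by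
        rw [Nat.floor_lt (by positivity)]
        push_cast
        exact h6
      omega
    exact_mod_cast Q_mono h4
  set a : ℕ → ℕ := fun j => Nat.rec (max N₀ 1) (fun _ k => ⌈(k : ℝ) / b⌉₊) j with ha
  have ha0 : a 0 = max N₀ 1 := rfl
  have hsucc : ∀ j, a (j + 1) = ⌈(a j : ℝ) / b⌉₊ := fun j => rfl
  have hge : ∀ j, max N₀ 1 ≤ a j := by
    intro j
    induction j with
    | zero => exact ha0.ge
    | succ j ih => rw [hsucc]; exact ih.trans (hstep _ ((le_max_left _ _).trans ih)).2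
  have hlow : ∀ j, (1 : ℝ) ≤ a j * b ^ j := by
    intro j
    induction j with
    | zero =>
      have : (1 : ℕ) ≤ a 0 := (le_max_right _ _).trans (hge 0)
      simpa using this
    | succ j ih =>
      have h1 : (a j : ℝ) / b ≤ a (j + 1) := by
        rw [hsucc]
        exact Nat.le_ceil _
      calc (1 : ℝ) ≤ a j * b ^ j := ih
        _ = a j / b * b ^ (j + 1) := by rw [pow_succ]; field_simp
        _ ≤ a (j + 1) * b ^ (j + 1) := by gcongr
  have hQ : ∀ j, l ^ j * Q 3 (a j) ≤ (Q 3 (a 0) : ℝ) := by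
    intro j
    induction j with
    | zero => simp
    | succ j ih =>
      have h1 := (hstep (a j) ((le_max_left _ _).trans (hge j))).1
      rw [← hsucc] at h1
      calc l ^ (j + 1) * (Q 3 (a (j + 1)) : ℝ) = l ^ j * (l * Q 3 (a (j + 1))) := by ring
        _ ≤ l ^ j * Q 3 (a j) := by gcongr
        _ ≤ Q 3 (a 0) := ih
  have hlt : b / l ^ 2 < 1 := by rw [div_lt_one (by positivity)]; exact hl
  have hlim : Tendsto (fun j : ℕ => 2 * (Q 3 (a 0) : ℝ) ^ 2 * (b / l ^ 2) ^ j) atTop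
      (𝓝 (2 * (Q 3 (a 0) : ℝ) ^ 2 * 0)) :=
    (tendsto_pow_atTop_nhds_zero_of_lt_one (by positivity) hlt).const_mul _
  rw [mul_zero] at hlim
  obtain ⟨j, hj⟩ := (hlim.eventually_lt_const (show (0 : ℝ) < 1 by norm_num)).exists
  have h1 : (a j : ℝ) ≤ 2 * (Q 3 (a j) : ℝ) ^ 2 := by
    have h2 := le_Q_sq (a j)
    have h3 := one_le_Q ((le_max_right _ _).trans (hge j))
    have : a j ≤ 2 * (Q 3 (a j)) ^ 2 := by nlinarith
    exact_mod_cast this
  have h2 : (1 : ℝ) ≤ 2 * (Q 3 (a 0) : ℝ) ^ 2 * (b / l ^ 2) ^ j := by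
    calc (1 : ℝ) ≤ a j * b ^ j := hlow j
      _ ≤ (2 * (Q 3 (a j) : ℝ) ^ 2) * b ^ j := by gcongr
      _ = 2 * (l ^ j * (Q 3 (a j) : ℝ)) ^ 2 * (b / l ^ 2) ^ j := by
          rw [div_pow, mul_pow, ← pow_mul, ← pow_mul, mul_comm j 2]
          field_simp
      _ ≤ 2 * (Q 3 (a 0) : ℝ) ^ 2 * (b / l ^ 2) ^ j := by
          gcongr
          exact hQ j
  linarith

end Pool.Agent.H54.RT
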