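import Pool.Agent.H54.RTLower2

/-!
# Lower bound construction: existence of the graph
-/

set_option maxHeartbeats 1000000

open Finset Filter Topology

namespace Pool.Agent.H54.RT

/-- `Q(3,n)` is at most `n^(1/2+δ)` -/
lemma Q_le_rpow (p : ℝ) (hp : 1 / 2 < p) : ∀ᶠ n : ℕ in atTop, (Q 3 n : ℝ) ≤ (n : ℝ) ^ p := by
  obtain ⟨C, hC, hup⟩ := Q_upper
  have h1 : ∀ᶠ n : ℕ in atTop, C * Real.log (n : ℝ) ≤ (n : ℝ) ^ (2 * p - 1) := by
    have h2 : (fun x : ℝ => Real.log x) =o[atTop] fun x => x ^ (2 * p - 1) :=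
      isLittleO_log_rpow_atTop (by linarith)
    have h3 := (h2.bound (show (0 : ℝ) < 1 / C by positivity))
    have h4 := tendsto_natCast_atTop_atTop.eventually (f := fun n : ℕ => (n : ℝ)) h3
    filter_upwards [h4, eventually_ge_atTop 1] with n h5 h6
    have h7 : (1 : ℝ) ≤ n := by exact_mod_cast h6
    rw [Real.norm_of_nonneg (Real.log_nonneg h7), Real.norm_of_nonneg (by positivity)] at h5
    calc C * Real.log n ≤ C * (1 / C * (n : ℝ) ^ (2 * p - 1)) := by gcongr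
      _ = (n : ℝ) ^ (2 * p - 1) := by field_simp
  filter_upwards [h1, hup, eventually_ge_atTop 1] with n h2 h3 h4
  have h5 : (1 : ℝ) ≤ n := by exact_mod_cast h4
  have h0 : (0 : ℝ) < n := by linarith
  have h6 : (Q 3 n : ℝ) ^ 2 ≤ ((n : ℝ) ^ p) ^ 2 := by
    calc (Q 3 n : ℝ) ^ 2 ≤ C * (n * Real.log n) := h3
      _ = n * (C * Real.log n) := by ring
      _ ≤ n * (n : ℝ) ^ (2 * p - 1) := by gcongr
      _ = ((n : ℝ) ^ p) ^ 2 := by
          rw [← Real.rpow_natCast, ← Real.rpow_mul h0.le]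
          nth_rewrite 1 [← Real.rpow_one (n : ℝ)]
          rw [← Real.rpow_add h0]
          congr 1
          push_cast
          ring
  exact le_of_sq_le_sq h6 (by positivity)
where
  le_of_sq_le_sq {a b : ℝ} (h : a ^ 2 ≤ b ^ 2) (hb : 0 ≤ b) : a ≤ b := by
    nlinarith [sq_nonneg (a - b), sq_abs a, sq_abs b, abs_nonneg a, abs_nonneg b, abs_le_of_sq_le_sq h hb, le_abs_self a]

theorem lower_graph (M : ℕ) (hM : 1 ≤ M) : ∀ᶠ n : ℕ in atTop, ∀ s : ℕ, 0 < s → 2 * M * s ≤ n →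
    ∃ G : SimpleGraph (Fin n), G.CliqueFree 5 ∧
      ((G.indepNum : ℝ) ≤ 2 * Q 3 s + (2 * M + 5) * (n : ℝ) ^ (48 / 100 : ℝ)) ∧
      (M = 1 → (G.indepNum : ℝ) ≤ Q 3 s + 7 * (n : ℝ) ^ (48 / 100 : ℝ)) ∧
      (M * s * s : ℝ) ≤ G.edgeSet.ncard + n * (n : ℝ) ^ (45 / 100 : ℝ) := by
  filter_upwards [random_cross, Q_le_rpow (52 / 100) (by norm_num), eventually_ge_atTop 1]
    with n hR hQ hn s hs hsn
  obtain ⟨H, hH3, hHa⟩ := exists_Q s
  have ha := (indepNum_le_iff H _).1 hHa.le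
  have hn1 : (1 : ℝ) ≤ n := by exact_mod_cast hn
  have hsn' : s ≤ n := by nlinarith
  set a := Q 3 s with ha_def
  have haQ : (a : ℝ) ≤ (n : ℝ) ^ (52 / 100 : ℝ) := by
    refine le_trans ?_ hQ
    exact_mod_cast Q_mono hsn'
  obtain ⟨R, D, hRg, hD, h5, hRb⟩ := hR (grp M s) (BB M s hs H)
    (fun u v h => BB_grp M s hs H u v h) (BB_cliqueFree M s hs H hH3)
    (fun v S hS => le_trans (by exact_mod_cast BB_deg M s hs H hH3 a ha v S hS) haQ)
  refine ⟨LG M (grp M s) (BB M s hs H) R D, ?_, ?_⟩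
  · exact LG_cliqueFree M (grp M s) (BB M s hs H) R D (fun u v h => BB_grp M s hs H u v h) hRg
      (BB_cliqueFree M s hs H hH3) h5
  · set b : ℝ := (n : ℝ) ^ (48 / 100 : ℝ) with hb
    have hb1 : 1 ≤ b := Real.one_le_rpow hn1 (by norm_num)
    have hDb : (#D : ℝ) ≤ b := le_trans hD (Real.rpow_le_rpow_of_exponent_le hn1 (by norm_num))
    have key : ∀ I : Finset (Fin n), (LG M (grp M s) (BB M s hs H) R D).IsIndepSet
        (I : Set (Fin n)) → (#I : ℝ) ≤ #D + 2 * (a + M * b) + (2 * b + 2) ∧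
        (M = 1 → (#I : ℝ) ≤ #D + (a + b) + (2 * b + 2)) := by
      intro I hI
      exact LG_indep M (grp M s) (BB M s hs H) R D b (by linarith) hRb
        (fun u v hu huv => grp_inj M s hs u v hu huv) a
        (fun k hk I hI hind => BB_indep M s hs H a ha k hk I hI hind) I hI
    obtain ⟨I, hI⟩ := (LG M (grp M s) (BB M s hs H) R D).exists_isNIndepSet_indepNum
    have hk := key I hI.1
    rw [hI.2] at hk
    refine ⟨?_, ?_, ?_⟩
    · have := hk.1
      nlinarith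
    · intro h
      have := hk.2 h
      nlinarith
    · have h1 := LG_edges M s hs hsn (BB M s hs H) R D
      have h2 : (M * s * s : ℝ) ≤ (LG M (grp M s) (BB M s hs H) R D).edgeSet.ncard
          + 2 * s * #D := by exact_mod_cast h1
      have h3 : (2 * s : ℝ) ≤ n := by
        have : 2 * s ≤ n := by nlinarith
        exact_mod_cast this
      have h4 : (2 * s * #D : ℝ) ≤ n * (n : ℝ) ^ (45 / 100 : ℝ) := by gcongr
      linarith

end Pool.Agent.H54.RT
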