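import Pool.Agent.H54.RTDef
import Pool.Agent.H54.RTCore
import Pool.Agent.H54.RTLower3

/-!
# Upper bounds for the densities
-/

set_option maxHeartbeats 1000000

open Finset Filter Topology

namespace Pool.Agent.H54.RT

lemma five_clique {V : Type*} (G : SimpleGraph V) (hG : G.CliqueFree 5) (x u v w z : V)
    (hu : G.Adj x u) (hv : G.Adj x v) (hw : G.Adj x w) (hz : G.Adj x z) (uv : G.Adj u v)
    (uw : G.Adj u w) (uz : G.Adj u z) (vw : G.Adj v w) (vz : G.Adj v z) (wz : G.Adj w z) :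
    False := by
  classical
  apply hG {x, u, v, w, z}
  rw [SimpleGraph.isNClique_iff]
  constructor
  · rw [SimpleGraph.isClique_iff]
    intro p hp q hq hpq
    simp only [coe_insert, coe_singleton, Set.mem_insert_iff, Set.mem_singleton_iff] at hp hq
    rcases hp with rfl | rfl | rfl | rfl | rfl <;> rcases hq with rfl | rfl | rfl | rfl | rfl <;>
      first
      | exact absurd rfl hpq
      | assumption
      | (apply SimpleGraph.Adj.symm; assumption)
  · rw [card_insert_of_notMem, card_insert_of_notMem, card_insert_of_notMem, card_pair wz.ne]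
    · simp only [mem_insert, mem_singleton, not_or]
      exact ⟨vw.ne, vz.ne⟩
    · simp only [mem_insert, mem_singleton, not_or]
      exact ⟨uv.ne, uw.ne, uz.ne⟩
    · simp only [mem_insert, mem_singleton, not_or]
      exact ⟨hu.ne, hv.ne, hw.ne, hz.ne⟩

/-- common neighbourhoods of adjacent vertices are small -/
lemma codeg_lt {n : ℕ} (G : SimpleGraph (Fin n)) (hG : G.CliqueFree 5) (k : ℕ)
    (hk : (G.indepNum : ℝ) < Q 3 k) (x y : Fin n) (hxy : G.Adj x y) (s : Finset (Fin n))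
    (hs : ∀ z ∈ s, G.Adj x z ∧ G.Adj y z) : (#s : ℝ) < k := by
  by_contra hcon
  push Not at hcon
  have hks : k ≤ #s := by exact_mod_cast hcon
  have h3 := Q_le_of_subset G s (by
    intro u hu v hv w hw huv huw hvw
    exact five_clique G hG x y u v w hxy (hs u hu).1 (hs v hv).1 (hs w hw).1 (hs u hu).2
      (hs v hv).2 (hs w hw).2 huv huw hvw) k G.indepNum hks ((indepNum_le_iff G _).1 le_rfl)
  have h4 : (Q 3 k : ℝ) ≤ G.indepNum := by exact_mod_cast h3
  linarith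

lemma RT_upper (c ε : ℝ) (hc : c ≤ 1) (hε : 0 < ε) : ∀ᶠ n : ℕ in atTop, ∀ k : ℕ,
    c * Q 3 (n / 2) ≤ Q 3 k →
      (RTnum n 5 (fc c n) : ℝ) ≤ (n : ℝ) ^ 2 / 8 + n * k / 4 + ε * (n : ℝ) ^ 2 := by
  filter_upwards [upper_core ε hε, Q_le_rpow (7 / 10) (by norm_num)] with n h1 h2 k hk
  apply RT_le (by positivity)
  intro G hG hα
  have hmono : (Q 3 (n / 2) : ℝ) ≤ Q 3 n := by exact_mod_cast Q_mono (Nat.div_le_self n 2)
  unfold fc at hα
  apply h1 G hG G.indepNum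
  · exact (indepNum_le_iff G _).1 le_rfl
  · have : c * (Q 3 (n / 2) : ℝ) ≤ 1 * Q 3 (n / 2) := by gcongr
    linarith
  · exact Nat.cast_nonneg k
  · intro x y hxy s hs
    exact (codeg_lt G hG k (by linarith) x y hxy s hs).le

/-- general form: if `k ≤ x n + 1` works -/
lemma upper_of (c x : ℝ) (hc : c ≤ 1)
    (h : ∀ᶠ n : ℕ in atTop, ∃ k : ℕ, c * Q 3 (n / 2) ≤ Q 3 k ∧ (k : ℝ) ≤ x * n + 1) :
    upperDensity 5 (fc c) ≤ 1 / 8 + x / 4 := by
  apply upperDensity_le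
  intro ε hε
  filter_upwards [RT_upper c (ε / 2) hc (by positivity), h,
    tendsto_natCast_atTop_atTop.eventually_ge_atTop (1 / ε)] with n h1 ⟨k, h2, h3⟩ h4
  have h5 := h1 k h2
  have hn0 : (0 : ℝ) ≤ n := Nat.cast_nonneg n
  have h6 : (n : ℝ) * k ≤ n * (x * n + 1) := by gcongr
  have h7 : 1 ≤ ε * n := by
    rw [div_le_iff₀ hε] at h4
    linarith
  have h8 : (n : ℝ) ≤ ε * (n : ℝ) ^ 2 := by nlinarith
  nlinarith

lemma lower_of (c x : ℝ) (hc : c ≤ 1)
    (h : ∃ᶠ n : ℕ in atTop, ∃ k : ℕ, c * Q 3 (n / 2) ≤ Q 3 k ∧ (k : ℝ) ≤ x * n + 1) :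
    lowerDensity 5 (fc c) ≤ 1 / 8 + x / 4 := by
  apply lowerDensity_le
  intro ε hε
  refine (h.and_eventually ((RT_upper c (ε / 2) hc (by positivity)).and
    (tendsto_natCast_atTop_atTop.eventually_ge_atTop (1 / ε)))).mono ?_
  rintro n ⟨⟨k, h2, h3⟩, h1, h4⟩
  have h5 := h1 k h2
  have hn0 : (0 : ℝ) ≤ n := Nat.cast_nonneg n
  have h6 : (n : ℝ) * k ≤ n * (x * n + 1) := by gcongr
  have h7 : 1 ≤ ε * n := by
    rw [div_le_iff₀ hε] at h4
    linarith
  have h8 : (n : ℝ) ≤ ε * (n : ℝ) ^ 2 := by nlinarith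
  nlinarith

/-- **(U2)** -/
theorem upper_inv (c : ℝ) (m : ℕ) (hm : 1 ≤ m) (hc : c ≤ 1 / m) :
    upperDensity 5 (fc c) ≤ (1 + 1 / m) / 8 := by
  have hm0 : (0 : ℝ) < m := by exact_mod_cast hm
  have hm1 : (1 : ℝ) ≤ m := by exact_mod_cast hm
  have hc1 : c ≤ 1 := by
    refine le_trans hc ?_
    rw [div_le_one hm0]
    exact hm1
  have := upper_of c (1 / (2 * m)) hc1 (by
    filter_upwards with n
    refine ⟨(n / 2 + m - 1) / m, ?_, ?_⟩
    · have h1 : n / 2 ≤ m * ((n / 2 + m - 1) / m) := by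
        have := Nat.lt_mul_div_succ (n / 2 + m - 1) hm
        rw [Nat.mul_add, Nat.mul_one] at this
        omega
      have h2 := (Q_mono h1).trans (Q_mul m _)
      have h3 : (Q 3 (n / 2) : ℝ) ≤ m * Q 3 ((n / 2 + m - 1) / m) := by exact_mod_cast h2
      calc c * (Q 3 (n / 2) : ℝ) ≤ 1 / m * (m * Q 3 ((n / 2 + m - 1) / m)) := by gcongr
        _ = Q 3 ((n / 2 + m - 1) / m) := by field_simp
    · have h1 : (((n / 2 + m - 1) / m : ℕ) : ℝ) ≤ ((n / 2 + m - 1 : ℕ) : ℝ) / m := Nat.cast_div_le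
      have h2 : ((n / 2 + m - 1 : ℕ) : ℝ) ≤ n / 2 + m := by
        have h3 : ((n / 2 : ℕ) : ℝ) ≤ n / 2 := Nat.cast_div_le
        have h4 : ((n / 2 + m - 1 : ℕ) : ℝ) ≤ ((n / 2 + m : ℕ) : ℝ) := by
          exact_mod_cast Nat.sub_le _ _
        push_cast at h4
        linarith
      calc (((n / 2 + m - 1) / m : ℕ) : ℝ) ≤ ((n / 2 + m - 1 : ℕ) : ℝ) / m := h1
        _ ≤ (n / 2 + m) / m := by gcongr
        _ = 1 / (2 * m) * n + 1 := by field_simp)
  calc upperDensity 5 (fc c) ≤ 1 / 8 + 1 / (2 * m) / 4 := this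
    _ = (1 + 1 / m) / 8 := by field_simp; ring

/-- **(U3)** -/
theorem upper_quad : ∃ κ : ℝ, 0 < κ ∧ ∀ c : ℝ, 0 < c → c < 1 →
    upperDensity 5 (fc c) ≤ 1 / 4 - κ * (1 - c) ^ 2 := by
  obtain ⟨K, hK, hratio⟩ := Q_ratio
  refine ⟨1 / (8 * K), by positivity, ?_⟩
  intro c hc0 hc1
  set e : ℝ := (1 - c) ^ 2 / K with he
  have hK0 : 0 < K := by linarith
  have h1c : 0 < 1 - c := by linarith
  have he0 : 0 < e := by positivity
  have he1 : e ≤ 1 := by
    rw [he, div_le_one hK0]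
    nlinarith
  have hdiv : Tendsto (fun n : ℕ => n / 2) atTop atTop := by
    apply tendsto_atTop_atTop.2
    intro b
    exact ⟨2 * b, fun a ha => by omega⟩
  have := upper_of c ((1 - e) / 2) hc1.le (by
    filter_upwards [hdiv.eventually (hratio e he0 he1)] with n hn
    set N := n / 2 with hN
    set j := ⌊e * (N : ℝ)⌋₊ with hj
    have hjr : (j : ℝ) ≤ e * N := Nat.floor_le (by positivity)
    have hjN : j ≤ N := by
      have : (j : ℝ) ≤ N := by
        have : (0 : ℝ) ≤ N := Nat.cast_nonneg N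
        nlinarith
      exact_mod_cast this
    have hjl : e * N < j + 1 := Nat.lt_floor_add_one _
    refine ⟨N - j, ?_, ?_⟩
    · have h2 := hn j hjr
      have h3 : K * e = (1 - c) ^ 2 := by rw [he]; field_simp
      rw [h3] at h2
      have h4 : (Q 3 j : ℝ) ≤ (1 - c) * Q 3 N := by
        have h5 : (Q 3 j : ℝ) ^ 2 ≤ ((1 - c) * Q 3 N) ^ 2 := by rw [mul_pow]; exact h2
        exact le_of_pow_le_pow_left₀ (by norm_num) (by positivity) h5
      have h6 := Q_add (N - j) j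
      rw [Nat.sub_add_cancel hjN] at h6
      have h7 : (Q 3 N : ℝ) ≤ Q 3 (N - j) + Q 3 j := by exact_mod_cast h6
      linarith
    · rw [Nat.cast_sub hjN]
      have h8 : (N : ℝ) ≤ n / 2 := Nat.cast_div_le
      nlinarith)
  calc upperDensity 5 (fc c) ≤ 1 / 8 + (1 - e) / 2 / 4 := this
    _ = 1 / 4 - 1 / (8 * K) * (1 - c) ^ 2 := by rw [he]; field_simp; ring

end Pool.Agent.H54.RT
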