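import Pool.Agent.H54.RTRandom2
import Pool.Agent.H54.RTAsym

/-!
# Lower bound construction
-/

set_option maxHeartbeats 1000000

open Finset Filter Topology

namespace Pool.Agent.H54.RT

/-- side of a group -/
def side (M k : ℕ) : ℕ := if k < M then 0 else if k < 2 * M then 1 else 2

lemma side_zero {M k : ℕ} (h : k < M) : side M k = 0 := if_pos h

lemma side_one {M k : ℕ} (h1 : M ≤ k) (h2 : k < 2 * M) : side M k = 1 := by
  unfold side
  rw [if_neg (by omega), if_pos h2]

lemma side_two {M k : ℕ} (h1 : 2 * M ≤ k) : side M k = 2 := by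
  unfold side
  rw [if_neg (by omega), if_neg (by omega)]

variable {n : ℕ}

/-- the graph -/
def LG (M : ℕ) (g : Fin n → ℕ) (B R : SimpleGraph (Fin n)) (D : Finset (Fin n)) :
    SimpleGraph (Fin n) where
  Adj u v := u ∉ D ∧ v ∉ D ∧ (B.Adj u v ∨ (R.Adj u v ∧ side M (g u) = side M (g v)) ∨
    (g u < M ∧ g v = g u + M) ∨ (g v < M ∧ g u = g v + M))
  symm.symm u v := by
    rintro ⟨h1, h2, h3 | ⟨h3, h4⟩ | h3 | h3⟩
    · exact ⟨h2, h1, Or.inl h3.symm⟩
    · exact ⟨h2, h1, Or.inr (Or.inl ⟨h3.symm, h4.symm⟩)⟩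
    · exact ⟨h2, h1, Or.inr (Or.inr (Or.inr h3))⟩
    · exact ⟨h2, h1, Or.inr (Or.inr (Or.inl h3))⟩
  loopless.irrefl u := by
    rintro ⟨_, _, h3 | ⟨h3, _⟩ | h3 | h3⟩
    · exact B.loopless.irrefl _ h3
    · exact R.loopless.irrefl _ h3
    · omega
    · omega

lemma LG_cliqueFree (M : ℕ) (g : Fin n → ℕ) (B R : SimpleGraph (Fin n)) (D : Finset (Fin n))
    (hBg : ∀ u v, B.Adj u v → g u = g v) (hRg : ∀ u v, R.Adj u v → g u ≠ g v)
    (hB3 : B.CliqueFree 3)
    (h5 : ∀ t : Finset (Fin n), Disjoint t D → ¬ (B ⊔ R).IsNClique 5 t) :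
    (LG M g B R D).CliqueFree 5 := by
  intro t ht
  have hadj : ∀ u ∈ t, ∀ v ∈ t, u ≠ v → (LG M g B R D).Adj u v := fun u hu v hv huv =>
    ht.1 hu hv huv
  -- elements are not in D
  have htD : Disjoint t D := by
    rw [disjoint_left]
    intro u hu huD
    obtain ⟨v, hv, hvu⟩ : ∃ v ∈ t, v ≠ u := by
      by_contra hcon
      push Not at hcon
      have : t ⊆ {u} := fun v hv => by rw [mem_singleton]; exact hcon v hv
      have := card_le_card this
      rw [ht.2, card_singleton] at this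
      omega
    exact (hadj u hu v hv hvu.symm).1 huD
  by_cases hside : ∀ u ∈ t, ∀ v ∈ t, side M (g u) = side M (g v)
  · apply h5 t htD
    refine ⟨?_, ht.2⟩
    intro u hu v hv huv
    have h1 := hadj u hu v hv huv
    have h2 := hside u hu v hv
    rw [SimpleGraph.sup_adj]
    rcases h1 with ⟨_, _, h3 | ⟨h3, _⟩ | ⟨h3, h4⟩ | ⟨h3, h4⟩⟩
    · exact Or.inl h3
    · exact Or.inr h3
    · rw [side_zero h3, side_one (by omega) (by omega)] at h2
      omega
    · rw [side_zero h3, side_one (by omega) (by omega)] at h2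
      omega
  · push Not at hside
    obtain ⟨u₀, hu₀, v₀, hv₀, hne⟩ := hside
    -- wlog
    have key : ∀ u ∈ t, ∀ v ∈ t, g u < M → g v = g u + M → False := by
      intro u hu v hv hu1 hv1
      have hall : ∀ w ∈ t, g w = g u ∨ g w = g v := by
        intro w hw
        by_cases hwu : w = u
        · left; rw [hwu]
        by_cases hwv : w = v
        · right; rw [hwv]
        have a1 := hadj w hw u hu hwu
        have a2 := hadj w hw v hv hwv
        rcases lt_or_ge (g w) M with hw1 | hw1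
        · left
          rcases a2 with ⟨_, _, h3 | ⟨_, h3⟩ | ⟨h3, h4⟩ | ⟨h3, h4⟩⟩
          · have := hBg _ _ h3
            omega
          · rw [side_zero hw1, side_one (by omega) (by omega)] at h3
            omega
          · omega
          · omega
        · right
          rcases a1 with ⟨_, _, h3 | ⟨_, h3⟩ | ⟨h3, h4⟩ | ⟨h3, h4⟩⟩
          · have := hBg _ _ h3
            omega
          · rw [side_zero hu1] at h3
            unfold side at h3
            rw [if_neg (by omega)] at h3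
            split_ifs at h3
          · omega
          · omega
      have hB : ∀ k, ∀ s : Finset (Fin n), s ⊆ t → (∀ w ∈ s, g w = k) → #s ≤ 2 := by
        intro k s hs hk
        by_contra hcon
        push Not at hcon
        obtain ⟨s', hs', hs'c⟩ := exists_subset_card_eq (show 3 ≤ #s by omega)
        apply hB3 s'
        refine ⟨?_, hs'c⟩
        intro x hx y hy hxy
        have h1 := hadj x (hs (hs' hx)) y (hs (hs' hy)) hxy
        have h2 := hk x (hs' hx)
        have h3 := hk y (hs' hy)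
        rcases h1 with ⟨_, _, h4 | ⟨h4, _⟩ | ⟨h4, h5⟩ | ⟨h4, h5⟩⟩
        · exact h4
        · exact absurd (h2.trans h3.symm) (hRg _ _ h4)
        · omega
        · omega
      have h1 := hB (g u) (t.filter fun w => g w = g u) (filter_subset _ _)
        (fun w hw => (mem_filter.1 hw).2)
      have h2 := hB (g v) (t.filter fun w => g w = g v) (filter_subset _ _)
        (fun w hw => (mem_filter.1 hw).2)
      have h3 : t ⊆ (t.filter fun w => g w = g u) ∪ (t.filter fun w => g w = g v) := by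
        intro w hw
        rw [mem_union, mem_filter, mem_filter]
        rcases hall w hw with h | h
        · left; exact ⟨hw, h⟩
        · right; exact ⟨hw, h⟩
      have h4 := (card_le_card h3).trans (card_union_le _ _)
      rw [ht.2] at h4
      omega
    have hne' : u₀ ≠ v₀ := by
      rintro rfl
      exact hne rfl
    rcases hadj u₀ hu₀ v₀ hv₀ hne' with ⟨_, _, h3 | ⟨_, h3⟩ | ⟨h3, h4⟩ | ⟨h3, h4⟩⟩
    · rw [hBg _ _ h3] at hne
      exact hne rfl
    · exact hne h3
    · exact key u₀ hu₀ v₀ hv₀ h3 h4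
    · exact key v₀ hv₀ u₀ hu₀ h3 h4

/-- independence bound within one of the sides 0, 1 -/
lemma side_bound (M : ℕ) (g : Fin n → ℕ) (B R : SimpleGraph (Fin n)) (D : Finset (Fin n))
    (b : ℝ) (hb : 0 ≤ b)
    (hR : ∀ X Y : Finset (Fin n), b ≤ #X → b ≤ #Y →
        (∀ x ∈ X, ∀ y ∈ Y, g x ≠ g y) → ∃ x ∈ X, ∃ y ∈ Y, R.Adj x y)
    (a : ℕ) (ha : ∀ k < 2 * M, ∀ I : Finset (Fin n), (∀ v ∈ I, g v = k) →
      B.IsIndepSet (I : Set (Fin n)) → #I ≤ a)
    (K : Finset ℕ) (hK : ∀ k ∈ K, k < 2 * M) (hKs : ∀ k ∈ K, ∀ l ∈ K, side M k = side M l)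
    (hKc : #K ≤ M)
    (I : Finset (Fin n)) (hI : (LG M g B R D).IsIndepSet (I : Set (Fin n))) (hID : Disjoint I D)
    (hIK : ∀ v ∈ I, g v ∈ K) : (#I : ℝ) ≤ a + M * b := by
  classical
  have hcard : (#I : ℝ) = ∑ k ∈ K, (#{v ∈ I | g v = k} : ℝ) := by
    have := card_eq_sum_card_fiberwise (s := I) (t := K) (f := g) (fun v hv => hIK v hv)
    rw [this]
    push_cast
    rfl
  have hBind : ∀ k, B.IsIndepSet (({v ∈ I | g v = k} : Finset (Fin n)) : Set (Fin n)) := by
    intro k x hx y hy hxy hadj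
    rw [mem_coe, mem_filter] at hx hy
    apply hI hx.1 hy.1 hxy
    rw [disjoint_left] at hID
    exact ⟨hID hx.1, hID hy.1, Or.inl hadj⟩
  by_cases hbig : ∃ k₀ ∈ K, b ≤ #{v ∈ I | g v = k₀}
  · obtain ⟨k₀, hk₀, hk₀b⟩ := hbig
    have hsmall : ∀ k ∈ K.erase k₀, (#{v ∈ I | g v = k} : ℝ) ≤ b := by
      intro k hk
      rw [mem_erase] at hk
      by_contra hcon
      push Not at hcon
      obtain ⟨x, hx, y, hy, hxy⟩ := hR {v ∈ I | g v = k₀} {v ∈ I | g v = k} hk₀b hcon.le (by
        intro x hx y hy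
        rw [mem_filter] at hx hy
        rw [hx.2, hy.2]
        exact hk.1.symm)
      rw [mem_filter] at hx hy
      rw [disjoint_left] at hID
      apply hI hx.1 hy.1 hxy.ne
      refine ⟨hID hx.1, hID hy.1, Or.inr (Or.inl ⟨hxy, ?_⟩)⟩
      rw [hx.2, hy.2]
      exact hKs k₀ hk₀ k hk.2
    rw [hcard, ← add_sum_erase _ _ hk₀]
    have h1 : (#{v ∈ I | g v = k₀} : ℝ) ≤ a := by
      have := ha k₀ (hK k₀ hk₀) {v ∈ I | g v = k₀} (fun v hv => (mem_filter.1 hv).2) (hBind k₀)
      exact_mod_cast this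
    have h2 : ∑ k ∈ K.erase k₀, (#{v ∈ I | g v = k} : ℝ) ≤ M * b := by
      calc ∑ k ∈ K.erase k₀, (#{v ∈ I | g v = k} : ℝ) ≤ ∑ _k ∈ K.erase k₀, b := sum_le_sum hsmall
        _ = #(K.erase k₀) * b := by rw [sum_const, nsmul_eq_mul]
        _ ≤ M * b := by
          gcongr
          exact (card_erase_le).trans hKc
    linarith
  · push Not at hbig
    rw [hcard]
    calc ∑ k ∈ K, (#{v ∈ I | g v = k} : ℝ) ≤ ∑ _k ∈ K, b := sum_le_sum fun k hk => (hbig k hk).le
      _ = #K * b := by rw [sum_const, nsmul_eq_mul]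
      _ ≤ M * b := by gcongr
      _ ≤ a + M * b := by
        have : (0 : ℝ) ≤ a := Nat.cast_nonneg a
        linarith

/-- independence bound in side 2 -/
lemma rest_bound (M : ℕ) (g : Fin n → ℕ) (B R : SimpleGraph (Fin n)) (D : Finset (Fin n))
    (b : ℝ)
    (hR : ∀ X Y : Finset (Fin n), b ≤ #X → b ≤ #Y →
        (∀ x ∈ X, ∀ y ∈ Y, g x ≠ g y) → ∃ x ∈ X, ∃ y ∈ Y, R.Adj x y)
    (hinj : ∀ u v, 2 * M ≤ g u → g u = g v → u = v)
    (I : Finset (Fin n)) (hI : (LG M g B R D).IsIndepSet (I : Set (Fin n))) (hID : Disjoint I D)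
    (hIK : ∀ v ∈ I, 2 * M ≤ g v) (hb : 0 ≤ b) : (#I : ℝ) ≤ 2 * b + 2 := by
  classical
  by_contra hcon
  push Not at hcon
  set x₀ := ⌈b⌉₊ with hx₀
  have h1 : b ≤ x₀ := Nat.le_ceil b
  have h2 : (x₀ : ℝ) < b + 1 := by
    have := Nat.ceil_lt_add_one hb
    rwa [← hx₀] at this
  have h3 : 2 * x₀ ≤ #I := by
    have : (2 * x₀ : ℝ) ≤ #I := by linarith
    exact_mod_cast this
  obtain ⟨X, hX, hXc⟩ := exists_subset_card_eq (show x₀ ≤ #I by omega)
  have h4 : x₀ ≤ #(I \ X) := by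
    rw [card_sdiff_of_subset hX]
    omega
  rw [disjoint_left] at hID
  obtain ⟨x, hx, y, hy, hxy⟩ := hR X (I \ X) (by rw [hXc]; exact h1)
    (h1.trans (by exact_mod_cast h4)) (by
      intro x hx y hy hg
      have := hinj x y (hIK x (hX hx)) hg
      rw [Finset.mem_sdiff] at hy
      exact hy.2 (this ▸ hx))
  rw [Finset.mem_sdiff] at hy
  apply hI (hX hx) hy.1 hxy.ne
  refine ⟨hID (hX hx), hID hy.1, Or.inr (Or.inl ⟨hxy, ?_⟩)⟩
  rw [side_two (hIK x (hX hx)), side_two (hIK y hy.1)]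

/-- total independence bound -/
lemma LG_indep (M : ℕ) (g : Fin n → ℕ) (B R : SimpleGraph (Fin n)) (D : Finset (Fin n))
    (b : ℝ) (hb : 0 ≤ b)
    (hR : ∀ X Y : Finset (Fin n), b ≤ #X → b ≤ #Y →
        (∀ x ∈ X, ∀ y ∈ Y, g x ≠ g y) → ∃ x ∈ X, ∃ y ∈ Y, R.Adj x y)
    (hinj : ∀ u v, 2 * M ≤ g u → g u = g v → u = v)
    (a : ℕ) (ha : ∀ k < 2 * M, ∀ I : Finset (Fin n), (∀ v ∈ I, g v = k) →
      B.IsIndepSet (I : Set (Fin n)) → #I ≤ a)
    (I : Finset (Fin n)) (hI : (LG M g B R D).IsIndepSet (I : Set (Fin n))) :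
    (#I : ℝ) ≤ #D + 2 * (a + M * b) + (2 * b + 2) ∧
    (M = 1 → (#I : ℝ) ≤ #D + (a + b) + (2 * b + 2)) := by
  have hsub : ∀ (p : Fin n → Prop) [DecidablePred p], (LG M g B R D).IsIndepSet
      (((I \ D).filter p : Finset (Fin n)) : Set (Fin n)) := by
    intro p _ x hx y hy hxy
    rw [mem_coe, mem_filter, Finset.mem_sdiff] at hx hy
    exact hI hx.1.1 hy.1.1 hxy
  have hdisj : ∀ (p : Fin n → Prop) [DecidablePred p], Disjoint ((I \ D).filter p) D := by
    intro p _
    rw [disjoint_left]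
    intro x hx
    rw [mem_filter, Finset.mem_sdiff] at hx
    exact hx.1.2
  have h0 := side_bound M g B R D b hb hR a ha (range M) (by intro k hk; rw [mem_range] at hk; omega)
    (by intro k hk l hl; rw [mem_range] at hk hl; rw [side_zero hk, side_zero hl])
    (by rw [card_range]) _ (hsub fun v => g v < M) (hdisj _)
    (by intro v hv; rw [mem_filter] at hv; rw [mem_range]; exact hv.2)
  have h1 := side_bound M g B R D b hb hR a ha (Ico M (2 * M))
    (by intro k hk; rw [mem_Ico] at hk; omega)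
    (by intro k hk l hl; rw [mem_Ico] at hk hl; rw [side_one hk.1 hk.2, side_one hl.1 hl.2])
    (by rw [Nat.card_Ico]; omega) _ (hsub fun v => M ≤ g v ∧ g v < 2 * M) (hdisj _)
    (by intro v hv; rw [mem_filter] at hv; rw [mem_Ico]; exact hv.2)
  have h2 := rest_bound M g B R D b hR hinj _ (hsub fun v => 2 * M ≤ g v) (hdisj _)
    (by intro v hv; rw [mem_filter] at hv; exact hv.2) hb
  have hcover : I ⊆ D ∪ ((I \ D).filter (fun v => g v < M) ∪
      ((I \ D).filter (fun v => M ≤ g v ∧ g v < 2 * M) ∪ (I \ D).filter (fun v => 2 * M ≤ g v))) := by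
    intro v hv
    simp only [mem_union, mem_filter, Finset.mem_sdiff]
    by_cases hD : v ∈ D
    · left; exact hD
    · right
      rcases lt_or_ge (g v) M with h | h
      · left; exact ⟨⟨hv, hD⟩, h⟩
      · rcases lt_or_ge (g v) (2 * M) with h' | h'
        · right; left; exact ⟨⟨hv, hD⟩, h, h'⟩
        · right; right; exact ⟨⟨hv, hD⟩, h'⟩
  have hc : #I ≤ #D + (#((I \ D).filter (fun v => g v < M)) +
      (#((I \ D).filter (fun v => M ≤ g v ∧ g v < 2 * M)) + #((I \ D).filter (fun v => 2 * M ≤ g v)))) := by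
    refine (card_le_card hcover).trans ((card_union_le _ _).trans ?_)
    gcongr
    refine (card_union_le _ _).trans ?_
    gcongr
    exact card_union_le _ _
  have hc' : (#I : ℝ) ≤ #D + (#((I \ D).filter (fun v => g v < M)) +
      (#((I \ D).filter (fun v => M ≤ g v ∧ g v < 2 * M)) + #((I \ D).filter (fun v => 2 * M ≤ g v)))) := by
    exact_mod_cast hc
  refine ⟨by linarith, ?_⟩
  rintro rfl
  rw [Nat.cast_one, one_mul] at h0 h1
  have hor : (I \ D).filter (fun v => g v < 1) = ∅ ∨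
      (I \ D).filter (fun v => 1 ≤ g v ∧ g v < 2 * 1) = ∅ := by
    by_contra hcon
    push Not at hcon
    obtain ⟨u, hu⟩ := nonempty_iff_ne_empty.2 (nonempty_iff_ne_empty.1 hcon.1)
    obtain ⟨v, hv⟩ := nonempty_iff_ne_empty.2 (nonempty_iff_ne_empty.1 hcon.2)
    rw [mem_filter, Finset.mem_sdiff] at hu hv
    apply hI hu.1.1 hv.1.1
    · rintro rfl
      omega
    · refine ⟨hu.1.2, hv.1.2, Or.inr (Or.inr (Or.inl ⟨hu.2, by omega⟩))⟩
  rcases hor with h | h
  · rw [h, card_empty, Nat.cast_zero] at hc'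
    linarith
  · rw [h, card_empty, Nat.cast_zero] at hc'
    linarith

end Pool.Agent.H54.RT
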