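import Pool.Agent.H54.RTLower

/-!
# Lower bound construction: concrete blocks
-/

set_option maxHeartbeats 1000000

open Finset Filter Topology

namespace Pool.Agent.H54.RT

variable {n : ℕ}

/-- group of a vertex -/
def grp (M s : ℕ) (v : Fin n) : ℕ := if (v : ℕ) < 2 * M * s then (v : ℕ) / s else 2 * M + v

/-- residue -/
def res (s : ℕ) (hs : 0 < s) (v : Fin n) : Fin s := ⟨(v : ℕ) % s, Nat.mod_lt _ hs⟩

/-- union of copies of `H` -/
def BB (M s : ℕ) (hs : 0 < s) (H : SimpleGraph (Fin s)) : SimpleGraph (Fin n) where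
  Adj u v := (u : ℕ) < 2 * M * s ∧ (v : ℕ) < 2 * M * s ∧ (u : ℕ) / s = (v : ℕ) / s ∧
    H.Adj (res s hs u) (res s hs v)
  symm.symm u v := by
    rintro ⟨h1, h2, h3, h4⟩
    exact ⟨h2, h1, h3.symm, h4.symm⟩
  loopless.irrefl u := by
    rintro ⟨_, _, _, h⟩
    exact H.loopless.irrefl _ h

lemma grp_lt {M s : ℕ} (hs : 0 < s) {v : Fin n} : grp M s v < 2 * M ↔ (v : ℕ) < 2 * M * s := by
  unfold grp
  split_ifs with h
  · constructor
    · intro _; exact h
    · intro _
      rw [Nat.div_lt_iff_lt_mul hs]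
      exact h
  · constructor
    · intro h'; omega
    · intro h'; exact absurd h' h

lemma eq_of_div_mod {s : ℕ} {u v : Fin n} (h1 : (u : ℕ) / s = (v : ℕ) / s)
    (h2 : (u : ℕ) % s = (v : ℕ) % s) : u = v := by
  apply Fin.ext
  rw [← Nat.div_add_mod (u : ℕ) s, ← Nat.div_add_mod (v : ℕ) s, h1, h2]

lemma BB_grp (M s : ℕ) (hs : 0 < s) (H : SimpleGraph (Fin s)) (u v : Fin n)
    (h : (BB M s hs H).Adj u v) : grp M s u = grp M s v := by
  obtain ⟨h1, h2, h3, _⟩ := h
  unfold grp
  rw [if_pos h1, if_pos h2, h3]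

lemma BB_cliqueFree (M s : ℕ) (hs : 0 < s) (H : SimpleGraph (Fin s)) (hH : H.CliqueFree 3) :
    (BB M s hs H : SimpleGraph (Fin n)).CliqueFree 3 := by
  intro t ht
  rw [SimpleGraph.is3Clique_iff] at ht
  obtain ⟨x, y, z, hxy, hxz, hyz, rfl⟩ := ht
  exact hH {res s hs x, res s hs y, res s hs z}
    (SimpleGraph.is3Clique_triple_iff.2 ⟨hxy.2.2.2, hxz.2.2.2, hyz.2.2.2⟩)

lemma BB_deg (M s : ℕ) (hs : 0 < s) (H : SimpleGraph (Fin s)) (hH : H.CliqueFree 3) (a : ℕ)
    (ha : ∀ I : Finset (Fin s), H.IsIndepSet (I : Set (Fin s)) → #I ≤ a) (v : Fin n)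
    (S : Finset (Fin n)) (hS : ∀ u ∈ S, (BB M s hs H).Adj v u) : #S ≤ a := by
  classical
  have hinj : Set.InjOn (res s hs) (S : Set (Fin n)) := by
    intro x hx y hy hxy
    have h1 := hS x hx
    have h2 := hS y hy
    apply eq_of_div_mod (s := s)
    · rw [← h1.2.2.1, ← h2.2.2.1]
    · exact congrArg Fin.val hxy
  rw [← card_image_of_injOn hinj]
  apply ha
  intro x hx y hy _ hadj
  rw [mem_coe, mem_image] at hx hy
  obtain ⟨x', hx', rfl⟩ := hx
  obtain ⟨y', hy', rfl⟩ := hy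
  exact hH {res s hs v, res s hs x', res s hs y'}
    (SimpleGraph.is3Clique_triple_iff.2 ⟨(hS x' hx').2.2.2, (hS y' hy').2.2.2, hadj⟩)

lemma BB_indep (M s : ℕ) (hs : 0 < s) (H : SimpleGraph (Fin s)) (a : ℕ)
    (ha : ∀ I : Finset (Fin s), H.IsIndepSet (I : Set (Fin s)) → #I ≤ a) (k : ℕ) (hk : k < 2 * M)
    (I : Finset (Fin n)) (hI : ∀ v ∈ I, grp M s v = k)
    (hind : (BB M s hs H).IsIndepSet (I : Set (Fin n))) : #I ≤ a := by
  classical
  have h1 : ∀ v ∈ I, (v : ℕ) < 2 * M * s ∧ (v : ℕ) / s = k := by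
    intro v hv
    have h2 := hI v hv
    have h3 : (v : ℕ) < 2 * M * s := by
      rw [← grp_lt hs (M := M), h2]
      exact hk
    refine ⟨h3, ?_⟩
    unfold grp at h2
    rwa [if_pos h3] at h2
  have hinj : Set.InjOn (res s hs) (I : Set (Fin n)) := by
    intro x hx y hy hxy
    apply eq_of_div_mod (s := s)
    · rw [(h1 x hx).2, (h1 y hy).2]
    · exact congrArg Fin.val hxy
  rw [← card_image_of_injOn hinj]
  apply ha
  intro x hx y hy hxy hadj
  rw [mem_coe, mem_image] at hx hy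
  obtain ⟨x', hx', rfl⟩ := hx
  obtain ⟨y', hy', rfl⟩ := hy
  apply hind hx' hy'
  · rintro rfl
    exact hxy rfl
  · exact ⟨(h1 x' hx').1, (h1 y' hy').1, by rw [(h1 x' hx').2, (h1 y' hy').2], hadj⟩

lemma grp_inj (M s : ℕ) (hs : 0 < s) (u v : Fin n) (hu : 2 * M ≤ grp M s u)
    (h : grp M s u = grp M s v) : u = v := by
  have h1 : ¬ (u : ℕ) < 2 * M * s := by
    rw [← grp_lt hs (M := M)]
    omega
  have h2 : ¬ (v : ℕ) < 2 * M * s := by
    rw [← grp_lt hs (M := M)]
    omega
  unfold grp at h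
  rw [if_neg h1, if_neg h2] at h
  apply Fin.ext
  omega

/-- number of edges -/
lemma LG_edges (M s : ℕ) (hs : 0 < s) (hn : 2 * M * s ≤ n) (B R : SimpleGraph (Fin n))
    (D : Finset (Fin n)) :
    M * s * s ≤ (LG M (grp M s) B R D).edgeSet.ncard + 2 * s * #D := by
  classical
  -- the vertices
  have hu : ∀ (i : Fin M) (a : Fin s), (i : ℕ) * s + a < M * s := by
    intro i a
    have h1 : (i : ℕ) * s + a < (i + 1) * s := by
      have := a.2
      rw [Nat.add_mul, one_mul]
      omega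
    exact lt_of_lt_of_le h1 (Nat.mul_le_mul_right _ i.2)
  let U : Fin M × Fin s → Fin n := fun x => ⟨(x.1 : ℕ) * s + x.2, by
    have := hu x.1 x.2
    have : M * s ≤ 2 * M * s := by nlinarith
    omega⟩
  let W : Fin M × Fin s → Fin n := fun x => ⟨M * s + ((x.1 : ℕ) * s + x.2), by
    have := hu x.1 x.2
    have : M * s + M * s = 2 * M * s := by ring
    omega⟩
  have hUinj : Function.Injective U := by
    rintro ⟨i, a⟩ ⟨j, b⟩ h
    have h1 : (i : ℕ) * s + a = (j : ℕ) * s + b := congrArg Fin.val h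
    have h2 : (i : ℕ) = j := by
      have e1 : ((i : ℕ) * s + a) / s = i := by
        rw [mul_comm, Nat.mul_add_div hs, Nat.div_eq_of_lt a.2, add_zero]
      have e2 : ((j : ℕ) * s + b) / s = j := by
        rw [mul_comm, Nat.mul_add_div hs, Nat.div_eq_of_lt b.2, add_zero]
      rw [← e1, ← e2, h1]
    have h3 : (a : ℕ) = b := by rw [h2] at h1; omega
    rw [Prod.mk.injEq]
    exact ⟨Fin.ext h2, Fin.ext h3⟩
  have hWinj : Function.Injective W := by
    intro x y h
    apply hUinj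
    apply Fin.ext
    have h1 : M * s + ((x.1 : ℕ) * s + x.2) = M * s + ((y.1 : ℕ) * s + y.2) := congrArg Fin.val h
    show (x.1 : ℕ) * s + x.2 = (y.1 : ℕ) * s + y.2
    omega
  have hUlt : ∀ x, (U x : ℕ) < M * s := fun x => hu x.1 x.2
  have hWge : ∀ x, M * s ≤ (W x : ℕ) := fun x => Nat.le_add_right _ _
  have hgU : ∀ x, grp M s (U x) = x.1 := by
    intro x
    unfold grp
    have h1 := hUlt x
    have h2 : M * s ≤ 2 * M * s := by nlinarith
    rw [if_pos (by omega)]
    show ((x.1 : ℕ) * s + x.2) / s = x.1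
    rw [mul_comm, Nat.mul_add_div hs, Nat.div_eq_of_lt x.2.2, add_zero]
  have hgW : ∀ x, grp M s (W x) = x.1 + M := by
    intro x
    unfold grp
    have h1 := hu x.1 x.2
    have h2 : M * s + M * s = 2 * M * s := by ring
    have h3 : (W x : ℕ) = M * s + ((x.1 : ℕ) * s + x.2) := rfl
    rw [if_pos (by omega), h3]
    have h4 : M * s + ((x.1 : ℕ) * s + x.2) = s * (M + x.1) + x.2 := by ring
    rw [h4, Nat.mul_add_div hs, Nat.div_eq_of_lt x.2.2]
    omega
  -- index set
  let T : Finset (Fin M × Fin s × Fin s) := univ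
  let P : Fin M × Fin s × Fin s → Fin n × Fin n := fun x => (U (x.1, x.2.1), W (x.1, x.2.2))
  have hT : #T = M * s * s := by
    simp [T, mul_assoc]
  set bad₁ := T.filter fun x => (P x).1 ∈ D with hbad₁
  set bad₂ := T.filter fun x => (P x).2 ∈ D with hbad₂
  have hb1 : bad₁.card ≤ #D * s := by
    have : bad₁.card ≤ #(D ×ˢ (univ : Finset (Fin s))) := by
      apply card_le_card_of_injOn (fun x => ((P x).1, x.2.2))
      · intro x hx
        rw [hbad₁, mem_coe, mem_filter] at hx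
        rw [mem_coe, mem_product]
        exact ⟨hx.2, mem_univ _⟩
      · intro x _ y _ h
        have h1 := (Prod.mk.inj h).1
        have h2 := (Prod.mk.inj h).2
        have h3 := hUinj h1
        have h4 := (Prod.mk.inj h3)
        exact Prod.ext h4.1 (Prod.ext h4.2 h2)
    rwa [card_product, card_univ, Fintype.card_fin] at this
  have hb2 : bad₂.card ≤ #D * s := by
    have : bad₂.card ≤ #(D ×ˢ (univ : Finset (Fin s))) := by
      apply card_le_card_of_injOn (fun x => ((P x).2, x.2.1))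
      · intro x hx
        rw [hbad₂, mem_coe, mem_filter] at hx
        rw [mem_coe, mem_product]
        exact ⟨hx.2, mem_univ _⟩
      · intro x _ y _ h
        have h1 := (Prod.mk.inj h).1
        have h2 := (Prod.mk.inj h).2
        have h3 := hWinj h1
        have h4 := (Prod.mk.inj h3)
        exact Prod.ext h4.1 (Prod.ext h2 h4.2)
    rwa [card_product, card_univ, Fintype.card_fin] at this
  set good := T \ (bad₁ ∪ bad₂) with hgood
  have hg : M * s * s ≤ good.card + 2 * s * #D := by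
    have h1 : #T - #(bad₁ ∪ bad₂) ≤ good.card := le_card_sdiff _ _
    have h2 := card_union_le bad₁ bad₂
    rw [hT] at h1
    have h3 : M * s * s ≤ good.card + #(bad₁ ∪ bad₂) := by omega
    have h4 : 2 * s * #D = #D * s + #D * s := by ring
    omega
  have hle : good.card ≤ (LG M (grp M s) B R D).edgeSet.ncard := by
    have hinj : Set.InjOn (fun x => s((P x).1, (P x).2)) (good : Set (Fin M × Fin s × Fin s)) := by
      intro x _ y _ h
      simp only [Sym2.eq_iff] at h
      rcases h with ⟨h1, h2⟩ | ⟨h1, h2⟩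
      · have h3 := Prod.mk.inj (hUinj h1)
        have h4 := Prod.mk.inj (hWinj h2)
        exact Prod.ext h3.1 (Prod.ext h3.2 h4.2)
      · exfalso
        have h3 := hUlt (x.1, x.2.1)
        have h4 := hWge (y.1, y.2.2)
        have h5 : (U (x.1, x.2.1) : ℕ) = (W (y.1, y.2.2) : ℕ) := congrArg Fin.val h1
        omega
    rw [← card_image_of_injOn hinj, ← Set.ncard_coe_finset]
    apply Set.ncard_le_ncard _ (Set.toFinite _)
    intro e he
    rw [mem_coe, mem_image] at he
    obtain ⟨x, hx, rfl⟩ := he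
    rw [hgood, Finset.mem_sdiff, mem_union, not_or, hbad₁, hbad₂, mem_filter, mem_filter] at hx
    rw [SimpleGraph.mem_edgeSet]
    refine ⟨fun h => hx.2.1 ⟨mem_univ _, h⟩, fun h => hx.2.2 ⟨mem_univ _, h⟩,
      Or.inr (Or.inr (Or.inl ?_))⟩
    show grp M s (U (x.1, x.2.1)) < M ∧ grp M s (W (x.1, x.2.2)) = grp M s (U (x.1, x.2.1)) + M
    rw [hgU, hgW]
    exact ⟨x.1.2, rfl⟩
  omega

end Pool.Agent.H54.RT
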