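import Pool.Agent.H54.Kim.GF

/-!
# Random cross edges: K₅-free graphs with a prescribed sparse triangle-free part
-/

set_option maxHeartbeats 1000000

open Finset

namespace Pool.Agent.H54.RT

open Pool.Agent.H54.Kim

variable {V : Type*} [Fintype V] [DecidableEq V]

/-- random cross graph -/
def RR (g : V → ℕ) {q : ℕ} [NeZero q] (h : Sym2 V → Fin q) : SimpleGraph V where
  Adj u v := g u ≠ g v ∧ h s(u, v) = 0
  symm.symm u v := by
    rintro ⟨h1, h2⟩
    exact ⟨h1.symm, by rw [Sym2.eq_swap]; exact h2⟩
  loopless.irrefl u := by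
    rintro ⟨h1, _⟩
    exact h1 rfl

/-- weight of a pair -/
noncomputable def ww (g : V → ℕ) (B : SimpleGraph V) (p : ℝ) (u v : V) : ℝ := by
  classical exact if g u ≠ g v then 1 else if B.Adj u v then 1 / p else 0

/-- weight of a tuple, defined recursively -/
noncomputable def wt (g : V → ℕ) (B : SimpleGraph V) (p : ℝ) : (k : ℕ) → (Fin k → V) → ℝ
  | 0, _ => 1
  | k + 1, x => wt g B p k (Fin.tail x) * ∏ j, ww g B p (x 0) (Fin.tail x j)

omit [Fintype V] [DecidableEq V] in
lemma ww_nonneg (g : V → ℕ) (B : SimpleGraph V) {p : ℝ} (hp : 0 < p) (u v : V) :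
    0 ≤ ww g B p u v := by
  unfold ww
  split_ifs
  · norm_num
  · positivity
  · norm_num

omit [Fintype V] [DecidableEq V] in
lemma wt_nonneg (g : V → ℕ) (B : SimpleGraph V) {p : ℝ} (hp : 0 < p) : ∀ (k : ℕ) (x : Fin k → V),
    0 ≤ wt g B p k x
  | 0, _ => by simp [wt]
  | k + 1, x => by
    unfold wt
    exact mul_nonneg (wt_nonneg g B hp k _) (prod_nonneg fun j _ => ww_nonneg g B hp _ _)

omit [Fintype V] [DecidableEq V] in
/-- nonzero weight means all pairs are fine -/
lemma wt_ne_zero (g : V → ℕ) (B : SimpleGraph V) {p : ℝ} : ∀ (k : ℕ) (x : Fin k → V),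
    wt g B p k x ≠ 0 → ∀ i j, i ≠ j → g (x i) = g (x j) → B.Adj (x i) (x j)
  | 0, _ => by intro _ i; exact i.elim0
  | k + 1, x => by
    intro h i j hij hg
    unfold wt at h
    have h1 := left_ne_zero_of_mul h
    have h2 := right_ne_zero_of_mul h
    rw [prod_ne_zero_iff] at h2
    have key : ∀ l : Fin k, g (x 0) = g (Fin.tail x l) → B.Adj (x 0) (Fin.tail x l) := by
      intro l hl
      have h3 := h2 l (mem_univ _)
      unfold ww at h3
      rw [if_neg (by simpa using hl)] at h3
      by_contra hcon
      rw [if_neg hcon] at h3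
      exact h3 rfl
    have ih := wt_ne_zero g B k (Fin.tail x) h1
    rcases Fin.eq_zero_or_eq_succ i with rfl | ⟨i', rfl⟩
    · rcases Fin.eq_zero_or_eq_succ j with rfl | ⟨j', rfl⟩
      · exact absurd rfl hij
      · exact key j' hg
    · rcases Fin.eq_zero_or_eq_succ j with rfl | ⟨j', rfl⟩
      · exact (key i' hg.symm).symm
      · exact ih i' j' (fun h => hij (by rw [h])) hg

/-- adding a vertex -/
lemma sum_prod_le (g : V → ℕ) (B : SimpleGraph V) (hB3 : B.CliqueFree 3) (p : ℝ) (hp : 0 < p)
    (_hp1 : p ≤ 1) (d : ℝ) (hd : ∀ v, ∀ s : Finset V, (∀ u ∈ s, B.Adj v u) → (#s : ℝ) ≤ d)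
    (k : ℕ) (x : Fin k → V) (hx : ∀ i j, i ≠ j → g (x i) = g (x j) → B.Adj (x i) (x j)) :
    ∑ v, ∏ j, ww g B p v (x j) ≤ Fintype.card V + k * (d / p) := by
  classical
  have h1 : ∀ v, ∏ j, ww g B p v (x j) ≤ 1 + ∑ j, (if B.Adj (x j) v then 1 / p else 0) := by
    intro v
    by_cases hall : ∀ j, g v ≠ g (x j)
    · have : ∏ j, ww g B p v (x j) = 1 := by
        apply prod_eq_one
        intro j _
        unfold ww
        rw [if_pos (hall j)]
      rw [this]
      have : 0 ≤ ∑ j, (if B.Adj (x j) v then 1 / p else 0) := by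
        apply sum_nonneg
        intro j _
        split_ifs
        · positivity
        · norm_num
      linarith
    · push Not at hall
      obtain ⟨j, hj⟩ := hall
      by_cases hadj : B.Adj v (x j)
      · -- at most one index is in the same group
        have hother : ∀ i, i ≠ j → ww g B p v (x i) ≤ 1 := by
          intro i hij
          unfold ww
          split_ifs with h2 h3
          · exact le_rfl
          · exfalso
            push Not at h2
            have h4 := hx i j hij (h2.symm.trans hj)
            exact hB3 {v, x i, x j} (SimpleGraph.is3Clique_triple_iff.2 ⟨h3, hadj, h4⟩)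
          · norm_num
        have h5 : ∏ i, ww g B p v (x i) ≤ 1 / p := by
          rw [← mul_prod_erase univ _ (mem_univ j)]
          have h6 : ww g B p v (x j) = 1 / p := by
            unfold ww
            rw [if_neg (by simpa using hj), if_pos hadj]
          have h7 : ∏ i ∈ univ.erase j, ww g B p v (x i) ≤ 1 := by
            apply prod_le_one
            · intro i _; exact ww_nonneg g B hp _ _
            · intro i hi
              exact hother i (mem_erase.1 hi).1
          rw [h6]
          have : 0 ≤ 1 / p := by positivity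
          nlinarith
        have h8 : (1 / p : ℝ) ≤ ∑ j, (if B.Adj (x j) v then 1 / p else 0) := by
          calc (1 / p : ℝ) = if B.Adj (x j) v then 1 / p else 0 := by rw [if_pos hadj.symm]
            _ ≤ _ := by
              apply single_le_sum (f := fun j => if B.Adj (x j) v then 1 / p else 0) _ (mem_univ j)
              intro i _
              show (0 : ℝ) ≤ if B.Adj (x i) v then 1 / p else 0
              split_ifs
              · positivity
              · norm_num
        linarith
      · have : ∏ i, ww g B p v (x i) = 0 := by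
          apply prod_eq_zero (mem_univ j)
          unfold ww
          rw [if_neg (by simpa using hj), if_neg hadj]
        rw [this]
        have : 0 ≤ ∑ j, (if B.Adj (x j) v then 1 / p else 0) := by
          apply sum_nonneg
          intro j _
          split_ifs
          · positivity
          · norm_num
        linarith
  calc ∑ v, ∏ j, ww g B p v (x j) ≤ ∑ v, (1 + ∑ j, (if B.Adj (x j) v then 1 / p else 0)) :=
        sum_le_sum fun v _ => h1 v
    _ = Fintype.card V + ∑ j, ∑ v, (if B.Adj (x j) v then 1 / p else 0) := by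
        rw [sum_add_distrib, sum_comm]
        simp
    _ ≤ Fintype.card V + ∑ _j : Fin k, (d / p) := by
        gcongr with j
        rw [← sum_filter, sum_const, nsmul_eq_mul, mul_one_div]
        gcongr
        exact hd (x j) _ (fun u hu => by rw [mem_filter] at hu; exact hu.2)
    _ = _ := by
        rw [sum_const, card_univ, Fintype.card_fin, nsmul_eq_mul]

/-- total weight -/
lemma sum_wt_le (g : V → ℕ) (B : SimpleGraph V) (hB3 : B.CliqueFree 3) (p : ℝ) (hp : 0 < p)
    (hp1 : p ≤ 1) (d : ℝ) (hd : ∀ v, ∀ s : Finset V, (∀ u ∈ s, B.Adj v u) → (#s : ℝ) ≤ d)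
    (hd0 : 0 ≤ d) :
    ∀ k : ℕ, ∑ x : Fin k → V, wt g B p k x ≤
      ∏ i ∈ range k, ((Fintype.card V : ℝ) + i * (d / p))
  | 0 => by simp [wt]
  | k + 1 => by
    have ih := sum_wt_le g B hB3 p hp hp1 d hd hd0 k
    rw [prod_range_succ]
    have e : ∑ x : Fin (k + 1) → V, wt g B p (k + 1) x
        = ∑ y : Fin k → V, ∑ v : V, wt g B p k y * ∏ j, ww g B p v (y j) := by
      rw [← Fintype.sum_equiv (Fin.consEquiv (fun _ : Fin (k + 1) => V))
        (fun z : V × (Fin k → V) => wt g B p (k + 1) (Fin.cons z.1 z.2)) _ (fun z => rfl)]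
      rw [Fintype.sum_prod_type, sum_comm]
      apply sum_congr rfl
      intro y _
      apply sum_congr rfl
      intro v _
      simp [wt]
    rw [e]
    calc ∑ y : Fin k → V, ∑ v : V, wt g B p k y * ∏ j, ww g B p v (y j)
        ≤ ∑ y : Fin k → V, wt g B p k y * ((Fintype.card V : ℝ) + k * (d / p)) := by
          apply sum_le_sum
          intro y _
          rw [← mul_sum]
          by_cases hy : wt g B p k y = 0
          · rw [hy]; simp
          · apply mul_le_mul_of_nonneg_left _ (wt_nonneg g B hp k y)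
            exact sum_prod_le g B hB3 p hp hp1 d hd k y (wt_ne_zero g B k y hy)
      _ = (∑ y : Fin k → V, wt g B p k y) * ((Fintype.card V : ℝ) + k * (d / p)) := by
          rw [sum_mul]
      _ ≤ _ := by
          apply mul_le_mul_of_nonneg_right ih
          positivity

/-- all pairs in the same group are adjacent in `B` -/
def Fine (g : V → ℕ) (B : SimpleGraph V) {k : ℕ} (x : Fin k → V) : Prop :=
  ∀ i j, i ≠ j → g (x i) = g (x j) → B.Adj (x i) (x j)

omit [Fintype V] [DecidableEq V] in
lemma Fine.tail {g : V → ℕ} {B : SimpleGraph V} {k : ℕ} {x : Fin (k + 1) → V} (h : Fine g B x) :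
    Fine g B (Fin.tail x) := by
  intro i j hij hg
  exact h i.succ j.succ (fun h => hij (Fin.succ_injective _ h)) hg

omit [Fintype V] [DecidableEq V] in
lemma Fine.inj {g : V → ℕ} {B : SimpleGraph V} {k : ℕ} {x : Fin k → V} (h : Fine g B x) :
    Function.Injective x := by
  intro i j hij
  by_contra hne
  have := h i j hne (by rw [hij])
  rw [hij] at this
  exact B.loopless.irrefl _ this

/-- cross pairs -/
def Cr (g : V → ℕ) : (k : ℕ) → (Fin k → V) → Finset (Sym2 V)
  | 0, _ => ∅
  | k + 1, x => Cr g k (Fin.tail x) ∪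
      (univ.filter fun j => g (x 0) ≠ g (Fin.tail x j)).image fun j => s(x 0, Fin.tail x j)

omit [Fintype V] in
lemma Cr_spec (g : V → ℕ) : ∀ (k : ℕ) (x : Fin k → V) (e : Sym2 V), e ∈ Cr g k x →
    ∃ i j, g (x i) ≠ g (x j) ∧ e = s(x i, x j)
  | 0, _, _ => by intro h; simp [Cr] at h
  | k + 1, x, e => by
    intro h
    unfold Cr at h
    rw [mem_union, mem_image] at h
    rcases h with h | ⟨j, hj, rfl⟩
    · obtain ⟨i, j, h1, h2⟩ := Cr_spec g k (Fin.tail x) e h
      exact ⟨i.succ, j.succ, h1, h2⟩
    · rw [mem_filter] at hj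
      exact ⟨0, j.succ, hj.2, rfl⟩

omit [Fintype V] in
lemma pow_card_Cr (g : V → ℕ) (B : SimpleGraph V) {p : ℝ} (hp : 0 < p) :
    ∀ (k : ℕ) (x : Fin k → V), Fine g B x →
      p ^ #(Cr g k x) = p ^ (k.choose 2) * wt g B p k x
  | 0, x => by intro _; simp [Cr, wt]
  | k + 1, x => by
    intro hx
    have ih := pow_card_Cr g B hp k (Fin.tail x) hx.tail
    have hinj := hx.inj
    unfold Cr wt
    rw [card_union_of_disjoint, pow_add, ih]
    · rw [card_image_of_injective]
      · have e1 : (k + 1).choose 2 = k.choose 2 + k := by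
          rw [Nat.choose_succ_succ' k 1, Nat.choose_one_right, add_comm]
        rw [e1, pow_add]
        have e2 : p ^ #{j | g (x 0) ≠ g (Fin.tail x j)} = p ^ k * ∏ j, ww g B p (x 0) (Fin.tail x j) := by
          have e3 : ∏ j, ww g B p (x 0) (Fin.tail x j)
              = ∏ j : Fin k, if g (x 0) ≠ g (Fin.tail x j) then 1 else 1 / p := by
            apply prod_congr rfl
            intro j _
            unfold ww
            by_cases h1 : g (x 0) ≠ g (Fin.tail x j)
            · rw [if_pos h1, if_pos h1]
            · rw [if_neg h1, if_neg h1, if_pos]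
              push Not at h1
              exact hx 0 j.succ (Fin.succ_ne_zero j).symm h1
          rw [e3]
          have e4 : p ^ k = ∏ _j : Fin k, p := by simp
          rw [e4, ← prod_mul_distrib]
          have e5 : ∀ j : Fin k, p * (if g (x 0) ≠ g (Fin.tail x j) then 1 else 1 / p)
              = if g (x 0) ≠ g (Fin.tail x j) then p else 1 := by
            intro j
            split_ifs
            · rw [mul_one]
            · rw [mul_one_div_cancel hp.ne']
          simp_rw [e5]
          rw [← prod_filter, prod_const]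
        rw [e2]
        ring
      · intro j j' hjj
        simp only [Sym2.eq_iff] at hjj
        rcases hjj with ⟨_, h⟩ | ⟨h1, h2⟩
        · exact Fin.succ_injective _ (hinj h)
        · have : (0 : Fin (k + 1)) = j'.succ := hinj h1
          exact absurd this (Fin.succ_ne_zero j').symm
    · rw [disjoint_left]
      intro e he1 he2
      obtain ⟨i, j, _, rfl⟩ := Cr_spec g k _ e he1
      rw [mem_image] at he2
      obtain ⟨l, _, hl⟩ := he2
      rw [Sym2.eq_iff] at hl
      rcases hl with ⟨h1, _⟩ | ⟨h1, _⟩
      · have : (0 : Fin (k + 1)) = i.succ := hinj h1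
        exact absurd this (Fin.succ_ne_zero i).symm
      · have : (0 : Fin (k + 1)) = j.succ := hinj h1
        exact absurd this (Fin.succ_ne_zero j).symm

/-- event: `x` is a clique tuple -/
def KK (g : V → ℕ) (B : SimpleGraph V) {q : ℕ} [NeZero q] {k : ℕ} (x : Fin k → V)
    (h : Sym2 V → Fin q) : Prop :=
  ∀ i j, i ≠ j → (B ⊔ RR g h).Adj (x i) (x j)

lemma pr_KK_le (g : V → ℕ) (B : SimpleGraph V) (hBg : ∀ u v, B.Adj u v → g u = g v)
    {q : ℕ} [NeZero q] {k : ℕ} (x : Fin k → V) :
    pr (fun h : Sym2 V → Fin q => KK g B x h) ≤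
      (1 / (q : ℝ)) ^ (k.choose 2) * wt g B (1 / (q : ℝ)) k x := by
  have hq : 0 < q := Nat.pos_of_ne_zero (NeZero.ne q)
  have hp : (0 : ℝ) < 1 / (q : ℝ) := by positivity
  by_cases hfine : Fine g B x
  · rw [← pow_card_Cr g B hp k x hfine]
    have h1 := pr_forall_eq (κ := Fin q) (Cr g k x) 0
    rw [Fintype.card_fin] at h1
    rw [← h1]
    apply pr_mono
    intro h hh e he
    obtain ⟨i, j, h2, rfl⟩ := Cr_spec g k x e he
    have hij : i ≠ j := by
      rintro rfl
      exact h2 rfl
    have h3 := hh i j hij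
    rw [SimpleGraph.sup_adj] at h3
    rcases h3 with h3 | h3
    · exact absurd (hBg _ _ h3) h2
    · exact h3.2
  · have h0 : pr (fun h : Sym2 V → Fin q => KK g B x h) = 0 := by
      unfold pr
      have : ∀ h : Sym2 V → Fin q, ind (KK g B x h) = 0 := by
        intro h
        apply ind_neg
        intro hh
        apply hfine
        intro i j hij hg
        have h3 := hh i j hij
        rw [SimpleGraph.sup_adj] at h3
        rcases h3 with h3 | h3
        · exact h3
        · exact absurd hg h3.1
      simp_rw [this]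
      unfold avg
      simp
    rw [h0]
    exact mul_nonneg (by positivity) (wt_nonneg g B hp k x)

/-- expected number of 5-clique tuples -/
lemma avg_count (g : V → ℕ) (B : SimpleGraph V) (hBg : ∀ u v, B.Adj u v → g u = g v)
    (hB3 : B.CliqueFree 3) {q : ℕ} [NeZero q] (d : ℝ)
    (hd : ∀ v, ∀ s : Finset V, (∀ u ∈ s, B.Adj v u) → (#s : ℝ) ≤ d)
    (hd0 : 0 ≤ d) (hdq : d * q ≤ Fintype.card V) :
    avg (fun h : Sym2 V → Fin q => ∑ x : Fin 5 → V, ind (KK g B x h)) ≤
      120 * (Fintype.card V : ℝ) ^ 5 / (q : ℝ) ^ 10 := by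
  have hq : 0 < q := Nat.pos_of_ne_zero (NeZero.ne q)
  have hq0 : (0 : ℝ) < q := by exact_mod_cast hq
  have hp : (0 : ℝ) < 1 / (q : ℝ) := by positivity
  have hp1 : 1 / (q : ℝ) ≤ 1 := by
    rw [div_le_one hq0]
    exact_mod_cast hq
  rw [avg_sum]
  calc ∑ x : Fin 5 → V, avg (fun h : Sym2 V → Fin q => ind (KK g B x h))
      ≤ ∑ x : Fin 5 → V, (1 / (q : ℝ)) ^ (Nat.choose 5 2) * wt g B (1 / (q : ℝ)) 5 x :=
        sum_le_sum fun x _ => pr_KK_le g B hBg x
    _ = (1 / (q : ℝ)) ^ (Nat.choose 5 2) * ∑ x : Fin 5 → V, wt g B (1 / (q : ℝ)) 5 x := by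
        rw [mul_sum]
    _ ≤ (1 / (q : ℝ)) ^ (Nat.choose 5 2) *
        ∏ i ∈ range 5, ((Fintype.card V : ℝ) + i * (d / (1 / (q : ℝ)))) := by
        apply mul_le_mul_of_nonneg_left _ (by positivity)
        exact sum_wt_le g B hB3 _ hp hp1 d hd hd0 5
    _ ≤ (1 / (q : ℝ)) ^ (Nat.choose 5 2) *
        ∏ i ∈ range 5, ((Fintype.card V : ℝ) + i * (Fintype.card V : ℝ)) := by
        apply mul_le_mul_of_nonneg_left _ (by positivity)
        apply prod_le_prod
        · intro i _
          positivity
        · intro i _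
          have : d / (1 / (q : ℝ)) = d * q := by field_simp
          rw [this]
          gcongr
    _ = 120 * (Fintype.card V : ℝ) ^ 5 / (q : ℝ) ^ 10 := by
        have : Nat.choose 5 2 = 10 := by decide
        rw [this]
        simp only [prod_range_succ, prod_range_zero]
        push_cast
        field_simp
        ring

end Pool.Agent.H54.RT
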