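import Pool.Agent.H54.RTRandom

/-!
# Random cross edges: main lemma
-/

set_option maxHeartbeats 1000000

open Finset Filter Topology

namespace Pool.Agent.H54.RT

open Pool.Agent.H54.Kim

lemma pr_bihole {V : Type*} [Fintype V] [DecidableEq V] (g : V → ℕ) {q : ℕ} [NeZero q]
    (X Y : Finset V) (hXY : ∀ x ∈ X, ∀ y ∈ Y, g x ≠ g y) :
    pr (fun h : Sym2 V → Fin q => ∀ x ∈ X, ∀ y ∈ Y, h s(x, y) ≠ 0) ≤
      Real.exp (-((#X : ℝ) * #Y / q)) := by
  have hq : 0 < q := Nat.pos_of_ne_zero (NeZero.ne q)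
  have hq0 : (0 : ℝ) < q := by exact_mod_cast hq
  set E : Finset (Sym2 V) := (X ×ˢ Y).image fun p => s(p.1, p.2) with hE
  have hcard : #E = #X * #Y := by
    rw [hE, card_image_of_injOn, card_product]
    rintro ⟨x, y⟩ hxy ⟨x', y'⟩ hxy' heq
    rw [mem_coe, mem_product] at hxy hxy'
    simp only at hxy hxy' heq
    rw [Sym2.eq_iff] at heq
    rcases heq with ⟨h1, h2⟩ | ⟨h1, h2⟩
    · rw [h1, h2]
    · exfalso
      exact hXY x hxy.1 y' hxy'.2 (by rw [h1])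
  have h1 : pr (fun h : Sym2 V → Fin q => ∀ x ∈ X, ∀ y ∈ Y, h s(x, y) ≠ 0) ≤
      pr (fun h : Sym2 V → Fin q => ∀ e ∈ E, h e ∈ (univ.erase (0 : Fin q))) := by
    apply pr_mono
    intro h hh e he
    rw [hE, mem_image] at he
    obtain ⟨p, hp, rfl⟩ := he
    rw [mem_product] at hp
    rw [mem_erase]
    exact ⟨hh p.1 hp.1 p.2 hp.2, mem_univ _⟩
  refine le_trans h1 ?_
  rw [pr_forall_mem, hcard, card_erase_of_mem (mem_univ _), card_univ, Fintype.card_fin,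
    Nat.cast_sub hq, Nat.cast_one]
  have h2 : ((q : ℝ) - 1) / q ≤ Real.exp (-(1 / (q : ℝ))) := by
    have := Real.add_one_le_exp (-(1 / (q : ℝ)))
    rw [sub_div, div_self hq0.ne']
    linarith
  calc (((q : ℝ) - 1) / q) ^ (#X * #Y) ≤ (Real.exp (-(1 / (q : ℝ)))) ^ (#X * #Y) := by
        apply pow_le_pow_left₀ _ h2
        apply div_nonneg _ hq0.le
        have : (1 : ℝ) ≤ q := by exact_mod_cast hq
        linarith
    _ = _ := by
        rw [← Real.exp_nat_mul]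
        congr 1
        push_cast
        ring

theorem random_cross : ∀ᶠ n : ℕ in atTop, ∀ (g : Fin n → ℕ) (B : SimpleGraph (Fin n)),
    (∀ u v, B.Adj u v → g u = g v) → B.CliqueFree 3 →
    (∀ v, ∀ s : Finset (Fin n), (∀ u ∈ s, B.Adj v u) → (#s : ℝ) ≤ (n : ℝ) ^ (52 / 100 : ℝ)) →
    ∃ (R : SimpleGraph (Fin n)) (D : Finset (Fin n)), (∀ u v, R.Adj u v → g u ≠ g v) ∧
      (#D : ℝ) ≤ (n : ℝ) ^ (45 / 100 : ℝ) ∧
      (∀ t : Finset (Fin n), Disjoint t D → ¬ (B ⊔ R).IsNClique 5 t) ∧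
      ∀ X Y : Finset (Fin n), (n : ℝ) ^ (48 / 100 : ℝ) ≤ #X → (n : ℝ) ^ (48 / 100 : ℝ) ≤ #Y →
        (∀ x ∈ X, ∀ y ∈ Y, g x ≠ g y) → ∃ x ∈ X, ∃ y ∈ Y, R.Adj x y := by
  classical
  have c1 : ∀ᶠ n : ℕ in atTop, 2 * (n : ℝ) ^ (98 / 100 : ℝ) ≤ n := by
    have t : Tendsto (fun n : ℕ => 2 * (n : ℝ) ^ (-(2 / 100) : ℝ)) atTop (𝓝 (2 * 0)) := by
      apply Tendsto.const_mul
      exact (tendsto_rpow_neg_atTop (by norm_num)).comp tendsto_natCast_atTop_atTop
    rw [mul_zero] at t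
    filter_upwards [t.eventually (gt_mem_nhds (one_pos)), eventually_ge_atTop 1] with n h1 h2
    have hn0 : (0 : ℝ) < n := by exact_mod_cast h2
    have : (n : ℝ) ^ (98 / 100 : ℝ) = (n : ℝ) ^ (-(2 / 100) : ℝ) * n := by
      nth_rewrite 3 [← Real.rpow_one (n : ℝ)]
      rw [← Real.rpow_add hn0]
      norm_num
    rw [this]
    nlinarith
  have c2 : ∀ᶠ n : ℕ in atTop, 120 * (n : ℝ) ^ (-(5 / 100) : ℝ) ≤ 1 / 4 := by
    have t : Tendsto (fun n : ℕ => 120 * (n : ℝ) ^ (-(5 / 100) : ℝ)) atTop (𝓝 (120 * 0)) := by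
      apply Tendsto.const_mul
      exact (tendsto_rpow_neg_atTop (by norm_num)).comp tendsto_natCast_atTop_atTop
    rw [mul_zero] at t
    filter_upwards [t.eventually (gt_mem_nhds (by norm_num : (0 : ℝ) < 1 / 4))] with n h1
    exact h1.le
  have c3 : ∀ᶠ n : ℕ in atTop, 2 * Real.log n + 2 ≤ (n : ℝ) ^ (1 / 100 : ℝ) / 2 := by
    have t1 : ∀ᶠ n : ℕ in atTop, ‖Real.log (n : ℝ)‖ ≤ (1 / 8 : ℝ) * ‖(n : ℝ) ^ (1 / 100 : ℝ)‖ :=
      tendsto_natCast_atTop_atTop.eventually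
        ((isLittleO_log_rpow_atTop (by norm_num : (0 : ℝ) < 1 / 100)).def (by norm_num))
    have t2 : Tendsto (fun n : ℕ => (n : ℝ) ^ (1 / 100 : ℝ)) atTop atTop :=
      (tendsto_rpow_atTop (by norm_num)).comp tendsto_natCast_atTop_atTop
    filter_upwards [t1, t2.eventually_ge_atTop 8, eventually_ge_atTop 1] with n h1 h2 h3
    have h4 : 0 ≤ Real.log (n : ℝ) := Real.log_nonneg (by exact_mod_cast h3)
    rw [Real.norm_of_nonneg h4, Real.norm_of_nonneg (by positivity)] at h1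
    linarith
  have c4 : ∀ᶠ n : ℕ in atTop, (n : ℝ) ^ (47 / 100 : ℝ) + 1 ≤ (n : ℝ) ^ (48 / 100 : ℝ) := by
    have t2 : Tendsto (fun n : ℕ => (n : ℝ) ^ (1 / 100 : ℝ)) atTop atTop :=
      (tendsto_rpow_atTop (by norm_num)).comp tendsto_natCast_atTop_atTop
    filter_upwards [t2.eventually_ge_atTop 2, eventually_ge_atTop 1] with n h2 h3
    have hn0 : (0 : ℝ) < n := by exact_mod_cast h3
    have hn1 : (1 : ℝ) ≤ n := by exact_mod_cast h3
    have e1 : (n : ℝ) ^ (48 / 100 : ℝ) = (n : ℝ) ^ (1 / 100 : ℝ) * (n : ℝ) ^ (47 / 100 : ℝ) := by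
      rw [← Real.rpow_add hn0]
      norm_num
    have e2 : (1 : ℝ) ≤ (n : ℝ) ^ (47 / 100 : ℝ) := Real.one_le_rpow hn1 (by norm_num)
    rw [e1]
    nlinarith
  filter_upwards [c1, c2, c3, c4, eventually_ge_atTop 1] with n d1 d2 d3 d4 hn1 g B hBg hB3 hdeg
  have hn1' : (1 : ℝ) ≤ n := by exact_mod_cast hn1
  have hn0 : (0 : ℝ) < n := by linarith
  set q : ℕ := ⌈(n : ℝ) ^ (46 / 100 : ℝ)⌉₊ with hq
  have hq1 : (n : ℝ) ^ (46 / 100 : ℝ) ≤ q := Nat.le_ceil _
  have hqpos : 0 < q := Nat.ceil_pos.2 (by positivity)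
  have hq0 : (0 : ℝ) < q := by exact_mod_cast hqpos
  have hone : (1 : ℝ) ≤ (n : ℝ) ^ (46 / 100 : ℝ) := Real.one_le_rpow hn1' (by norm_num)
  have hq2 : (q : ℝ) ≤ 2 * (n : ℝ) ^ (46 / 100 : ℝ) := by
    have := Nat.ceil_lt_add_one (show 0 ≤ (n : ℝ) ^ (46 / 100 : ℝ) by positivity)
    rw [← hq] at this
    linarith
  have : NeZero q := ⟨hqpos.ne'⟩
  set x₀ : ℕ := ⌈(n : ℝ) ^ (47 / 100 : ℝ)⌉₊ with hx₀
  have hx1 : (n : ℝ) ^ (47 / 100 : ℝ) ≤ x₀ := Nat.le_ceil _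
  have hx2 : (x₀ : ℝ) ≤ (n : ℝ) ^ (48 / 100 : ℝ) := by
    have := Nat.ceil_lt_add_one (show 0 ≤ (n : ℝ) ^ (47 / 100 : ℝ) by positivity)
    rw [← hx₀] at this
    linarith
  have hxone : (1 : ℝ) ≤ x₀ := le_trans (Real.one_le_rpow hn1' (by norm_num)) hx1
  -- first bad event
  have hb1 : pr (fun h : Sym2 (Fin n) → Fin q =>
      (n : ℝ) ^ (45 / 100 : ℝ) < ∑ x : Fin 5 → Fin n, ind (KK g B x h)) ≤ 1 / 4 := by
    have hα0 : 0 < (n : ℝ) ^ (45 / 100 : ℝ) := by positivity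
    have h1 : pr (fun h : Sym2 (Fin n) → Fin q =>
        (n : ℝ) ^ (45 / 100 : ℝ) < ∑ x : Fin 5 → Fin n, ind (KK g B x h)) ≤
        avg (fun h : Sym2 (Fin n) → Fin q =>
          (1 / (n : ℝ) ^ (45 / 100 : ℝ)) * ∑ x : Fin 5 → Fin n, ind (KK g B x h)) := by
      apply pr_le_avg
      · intro h
        apply mul_nonneg (by positivity)
        exact sum_nonneg fun x _ => ind_nonneg _
      · intro h hh
        rw [one_div, ← div_eq_inv_mul, le_div_iff₀ hα0, one_mul]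
        exact hh.le
    refine le_trans h1 ?_
    rw [avg_const_mul]
    have h2 := avg_count g B hBg hB3 (q := q) ((n : ℝ) ^ (52 / 100 : ℝ)) hdeg (by positivity) (by
      rw [Fintype.card_fin]
      calc (n : ℝ) ^ (52 / 100 : ℝ) * q ≤ (n : ℝ) ^ (52 / 100 : ℝ) * (2 * (n : ℝ) ^ (46 / 100 : ℝ)) := by
            gcongr
        _ = 2 * (n : ℝ) ^ (98 / 100 : ℝ) := by
            rw [mul_left_comm, ← Real.rpow_add hn0]
            norm_num
        _ ≤ n := d1)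
    rw [Fintype.card_fin] at h2
    calc 1 / (n : ℝ) ^ (45 / 100 : ℝ) * avg (fun h : Sym2 (Fin n) → Fin q =>
          ∑ x : Fin 5 → Fin n, ind (KK g B x h))
        ≤ 1 / (n : ℝ) ^ (45 / 100 : ℝ) * (120 * (n : ℝ) ^ 5 / (q : ℝ) ^ 10) := by gcongr
      _ ≤ 1 / (n : ℝ) ^ (45 / 100 : ℝ) * (120 * (n : ℝ) ^ 5 / ((n : ℝ) ^ (46 / 100 : ℝ)) ^ 10) := by
          gcongr
      _ = 120 * (n : ℝ) ^ (-(5 / 100) : ℝ) := by
          have e1 : (n : ℝ) ^ 5 = ((n : ℝ) ^ (46 / 100 : ℝ)) ^ 10 * (n : ℝ) ^ (40 / 100 : ℝ) := by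
            rw [← Real.rpow_natCast ((n : ℝ) ^ (46 / 100 : ℝ)), ← Real.rpow_mul hn0.le,
              ← Real.rpow_natCast (n : ℝ) 5, ← Real.rpow_add hn0]
            norm_num
          have e2 : (n : ℝ) ^ (40 / 100 : ℝ) = (n : ℝ) ^ (45 / 100 : ℝ) * (n : ℝ) ^ (-(5 / 100) : ℝ) := by
            rw [← Real.rpow_add hn0]
            norm_num
          have e3 : ((n : ℝ) ^ (46 / 100 : ℝ)) ^ 10 ≠ 0 := by positivity
          rw [e1, e2]
          field_simp
      _ ≤ 1 / 4 := d2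
  -- second bad event
  set PP : Finset (Finset (Fin n) × Finset (Fin n)) :=
    ((powersetCard x₀ univ) ×ˢ (powersetCard x₀ univ)).filter
      (fun P => ∀ x ∈ P.1, ∀ y ∈ P.2, g x ≠ g y) with hPP
  have hb2 : pr (fun h : Sym2 (Fin n) → Fin q => ∃ P ∈ PP, ∀ x ∈ P.1, ∀ y ∈ P.2, h s(x, y) ≠ 0) ≤
      1 / 4 := by
    refine le_trans (pr_exists_le _ _) ?_
    have h1 : ∀ P ∈ PP, pr (fun h : Sym2 (Fin n) → Fin q => ∀ x ∈ P.1, ∀ y ∈ P.2, h s(x, y) ≠ 0) ≤
        Real.exp (-((x₀ : ℝ) * x₀ / q)) := by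
      intro P hP
      rw [hPP, mem_filter, mem_product, mem_powersetCard, mem_powersetCard] at hP
      have := pr_bihole g (q := q) P.1 P.2 hP.2
      rwa [hP.1.1.2, hP.1.2.2] at this
    refine le_trans (sum_le_sum h1) ?_
    rw [sum_const, nsmul_eq_mul]
    have h2 : (#PP : ℝ) ≤ Real.exp (2 * x₀ * Real.log n) := by
      have h3 : #PP ≤ (n ^ x₀) * (n ^ x₀) := by
        calc #PP ≤ #((powersetCard x₀ (univ : Finset (Fin n))) ×ˢ (powersetCard x₀ (univ : Finset (Fin n)))) :=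
              card_filter_le _ _
          _ = Nat.choose n x₀ * Nat.choose n x₀ := by
              rw [card_product, card_powersetCard, card_univ, Fintype.card_fin]
          _ ≤ _ := Nat.mul_le_mul (Nat.choose_le_pow _ _) (Nat.choose_le_pow _ _)
      have h4 : (#PP : ℝ) ≤ ((n : ℝ) ^ x₀) * ((n : ℝ) ^ x₀) := by exact_mod_cast h3
      refine le_trans h4 (le_of_eq ?_)
      rw [← pow_add]
      have : (n : ℝ) ^ (x₀ + x₀) = Real.exp (((x₀ + x₀ : ℕ) : ℝ) * Real.log n) := by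
        rw [Real.exp_nat_mul, Real.exp_log hn0]
      rw [this]
      congr 1
      push_cast
      ring
    calc (#PP : ℝ) * Real.exp (-((x₀ : ℝ) * x₀ / q))
        ≤ Real.exp (2 * x₀ * Real.log n) * Real.exp (-((x₀ : ℝ) * x₀ / q)) := by gcongr
      _ ≤ Real.exp (-2) := by
          rw [← Real.exp_add]
          apply Real.exp_le_exp.2
          have h5 : 2 * Real.log n + 2 ≤ x₀ / q := by
            refine le_trans d3 ?_
            rw [le_div_iff₀ hq0]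
            calc (n : ℝ) ^ (1 / 100 : ℝ) / 2 * q ≤
                (n : ℝ) ^ (1 / 100 : ℝ) / 2 * (2 * (n : ℝ) ^ (46 / 100 : ℝ)) := by gcongr
              _ = (n : ℝ) ^ (47 / 100 : ℝ) := by
                  rw [show (n : ℝ) ^ (1 / 100 : ℝ) / 2 * (2 * (n : ℝ) ^ (46 / 100 : ℝ))
                    = (n : ℝ) ^ (1 / 100 : ℝ) * (n : ℝ) ^ (46 / 100 : ℝ) by ring,
                    ← Real.rpow_add hn0]
                  norm_num
              _ ≤ x₀ := hx1
          have h6 : (x₀ : ℝ) * x₀ / q = x₀ * (x₀ / q) := by ring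
          rw [h6]
          have h7 := mul_le_mul_of_nonneg_left h5 (show (0 : ℝ) ≤ x₀ by linarith)
          nlinarith
      _ ≤ 1 / 4 := by
          rw [Real.exp_neg, one_div]
          apply inv_anti₀ (by norm_num)
          have := Real.add_one_le_exp (1 : ℝ)
          have h8 : Real.exp 2 = Real.exp 1 * Real.exp 1 := by rw [← Real.exp_add]; norm_num
          rw [h8]
          nlinarith
  obtain ⟨h, hh⟩ := exists_of_pr_lt (lt_of_le_of_lt
    (le_trans (pr_or_le _ _) (add_le_add hb1 hb2)) (by norm_num))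
  push Not at hh
  obtain ⟨g1, g2⟩ := hh
  refine ⟨RR g h, (univ.filter fun x : Fin 5 → Fin n => KK g B x h).image (fun x => x 0), ?_, ?_,
    ?_, ?_⟩
  · intro u v huv
    exact huv.1
  · have h1 : #((univ.filter fun x : Fin 5 → Fin n => KK g B x h).image (fun x => x 0)) ≤
        #(univ.filter fun x : Fin 5 → Fin n => KK g B x h) := card_image_le
    have h2 : (#(univ.filter fun x : Fin 5 → Fin n => KK g B x h) : ℝ)
        = ∑ x : Fin 5 → Fin n, ind (KK g B x h) := by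
      rw [card_filter]
      push_cast
      apply sum_congr rfl
      intro x _
      rw [ind_eq_ite]
    have h3 : (#((univ.filter fun x : Fin 5 → Fin n => KK g B x h).image (fun x => x 0)) : ℝ) ≤
        #(univ.filter fun x : Fin 5 → Fin n => KK g B x h) := by exact_mod_cast h1
    linarith
  · intro t htD ht
    have hx : KK g B (fun i => t.orderEmbOfFin ht.2 i) h := by
      intro i j hij
      apply ht.1 (t.orderEmbOfFin_mem ht.2 i) (t.orderEmbOfFin_mem ht.2 j)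
      intro heq
      exact hij ((t.orderEmbOfFin ht.2).injective heq)
    rw [disjoint_left] at htD
    apply htD (t.orderEmbOfFin_mem ht.2 0)
    rw [mem_image]
    exact ⟨fun i => t.orderEmbOfFin ht.2 i, by rw [mem_filter]; exact ⟨mem_univ _, hx⟩, rfl⟩
  · intro X Y hX hY hXY
    have hX' : x₀ ≤ #X := by
      have : (x₀ : ℝ) ≤ #X := le_trans hx2 hX
      exact_mod_cast this
    have hY' : x₀ ≤ #Y := by
      have : (x₀ : ℝ) ≤ #Y := le_trans hx2 hY
      exact_mod_cast this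
    obtain ⟨X', hX1, hX2⟩ := exists_subset_card_eq hX'
    obtain ⟨Y', hY1, hY2⟩ := exists_subset_card_eq hY'
    obtain ⟨x, hx, y, hy, hxy⟩ := g2 (X', Y') (by
      rw [hPP, mem_filter, mem_product, mem_powersetCard, mem_powersetCard]
      exact ⟨⟨⟨subset_univ _, hX2⟩, subset_univ _, hY2⟩,
        fun x hx y hy => hXY x (hX1 hx) y (hY1 hy)⟩)
    exact ⟨x, hX1 hx, y, hY1 hy, hXY x (hX1 hx) y (hY1 hy), hxy⟩

end Pool.Agent.H54.RT
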