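import Pool.Agent.H54.RTUpper

/-!
# Regularity argument
-/

set_option maxHeartbeats 1000000

open Finset SzemerediRegularity

namespace Pool.Agent.H54.RT

variable {V : Type*} [Fintype V] [DecidableEq V]

/-- blow-up of the reduced graph -/
def blow (G : SimpleGraph V) [DecidableRel G.Adj] (P : Finpartition (univ : Finset V)) (ε : ℝ) :
    SimpleGraph V where
  Adj a b := ∃ U ∈ P.parts, ∃ W ∈ P.parts, a ∈ U ∧ b ∈ W ∧ U ≠ W ∧ G.IsUniform (ε / 8) U W ∧
    ε / 4 ≤ G.edgeDensity U W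
  symm.symm a b := by
    rintro ⟨U, UP, W, WP, xU, yW, UW, GUW, εUW⟩
    refine ⟨W, WP, U, UP, yW, xU, UW.symm, GUW.symm, ?_⟩
    rwa [G.edgeDensity_comm]
  loopless.irrefl a := by
    rintro ⟨U, UP, W, WP, xU, yW, UW, -, -⟩
    exact UW (P.disjoint.elim UP WP (not_disjoint_iff.2 ⟨a, xU, yW⟩))

lemma reduced_le_blow (G : SimpleGraph V) [DecidableRel G.Adj]
    (P : Finpartition (univ : Finset V)) (ε : ℝ) :
    G.regularityReduced P (ε / 8) (ε / 4) ≤ blow G P ε := by
  intro a b h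
  exact h.2

lemma blow_adj_iff_of_mem (G : SimpleGraph V) [DecidableRel G.Adj]
    (P : Finpartition (univ : Finset V)) (ε : ℝ) {U : Finset V} (hU : U ∈ P.parts) {x y z : V}
    (hx : x ∈ U) (hy : y ∈ U) : (blow G P ε).Adj x z ↔ (blow G P ε).Adj y z := by
  constructor
  · rintro ⟨U', UP, W, WP, xU, yW, UW, GUW, εUW⟩
    obtain rfl := P.disjoint.elim hU UP (not_disjoint_iff.2 ⟨x, hx, xU⟩)
    exact ⟨U, UP, W, WP, hy, yW, UW, GUW, εUW⟩
  · rintro ⟨U', UP, W, WP, xU, yW, UW, GUW, εUW⟩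
    obtain rfl := P.disjoint.elim hU UP (not_disjoint_iff.2 ⟨y, hy, xU⟩)
    exact ⟨U, UP, W, WP, hx, yW, UW, GUW, εUW⟩

private lemma aux {n k : ℕ} (hk : 0 < k) (hn : k ≤ n) : n < 2 * k * (n / k) := by
  rw [mul_assoc, two_mul, ← add_lt_add_iff_right (n % k), add_right_comm, add_assoc,
    Nat.mod_add_div n k, add_comm, add_lt_add_iff_right]
  apply (Nat.mod_lt n hk).trans_le
  simpa using Nat.mul_le_mul_left k ((Nat.one_le_div_iff hk).2 hn)

lemma card_bound {P : Finpartition (univ : Finset V)} (hP₁ : P.IsEquipartition) {B : ℕ}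
    (hP₃ : #P.parts ≤ B) {s : Finset V}
    (hX : s ∈ P.parts) : Fintype.card V / (2 * B : ℝ) ≤ #s := by
  cases isEmpty_or_nonempty V
  · simp [Fintype.card_eq_zero]
  have hne := P.nonempty_of_mem_parts hX
  have := Finset.Nonempty.card_pos ⟨_, hX⟩
  calc
    _ ≤ Fintype.card V / (2 * #P.parts : ℝ) := by gcongr
    _ ≤ ↑(Fintype.card V / #P.parts) :=
      (div_le_iff₀' (by positivity)).2 <| mod_cast (aux ‹_› P.card_parts_le_card).le
    _ ≤ (#s : ℝ) := mod_cast hP₁.average_le_card_part hX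

/-- if there are few triangles then `blow` is triangle-free -/
lemma blow_cliqueFree (G : SimpleGraph V) [DecidableRel G.Adj]
    (P : Finpartition (univ : Finset V)) (ε : ℝ) (hε1 : ε ≤ 1)
    (hP₁ : P.IsEquipartition) {B : ℕ} (hP₃ : #P.parts ≤ B)
    (htri : (#{p : V × V × V | G.Adj p.1 p.2.1 ∧ G.Adj p.1 p.2.2 ∧ G.Adj p.2.1 p.2.2} : ℝ) <
      (1 - ε / 4) * (ε / 8) ^ 3 * (Fintype.card V / (2 * B : ℝ)) ^ 3) (hε : 0 < ε) :
    (blow G P ε).CliqueFree 3 := by
  classical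
  intro t ht
  rw [SimpleGraph.is3Clique_iff] at ht
  obtain ⟨x, y, z, ⟨s, hX, Y, hY, xX, yY, nXY, uXY, dXY⟩,
                   ⟨X', hX', Z, hZ, xX', zZ, nXZ, uXZ, dXZ⟩,
                   ⟨Y', hY', Z', hZ', yY', zZ', nYZ, uYZ, dYZ⟩, rfl⟩ := ht
  cases P.disjoint.elim hX hX' (not_disjoint_iff.2 ⟨x, xX, xX'⟩)
  cases P.disjoint.elim hY hY' (not_disjoint_iff.2 ⟨y, yY, yY'⟩)
  cases P.disjoint.elim hZ hZ' (not_disjoint_iff.2 ⟨z, zZ, zZ'⟩)
  have that : 2 * (ε / 8) = ε / 4 := by ring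
  have h1 := SimpleGraph.triangle_counting' G (ε := ε / 8) (by rwa [that]) uXY (by rwa [that]) uXZ
    (by rwa [that]) uYZ
  have h2 : #((s ×ˢ Y ×ˢ Z).filter fun (a, b, c) ↦ G.Adj a b ∧ G.Adj a c ∧ G.Adj b c) ≤
      #{p : V × V × V | G.Adj p.1 p.2.1 ∧ G.Adj p.1 p.2.2 ∧ G.Adj p.2.1 p.2.2} := by
    apply card_le_card
    intro p hp
    rw [mem_filter] at hp
    rw [mem_filter]
    exact ⟨mem_univ _, hp.2⟩
  have h2' : (#((s ×ˢ Y ×ˢ Z).filter fun (a, b, c) ↦ G.Adj a b ∧ G.Adj a c ∧ G.Adj b c) : ℝ) ≤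
      #{p : V × V × V | G.Adj p.1 p.2.1 ∧ G.Adj p.1 p.2.2 ∧ G.Adj p.2.1 p.2.2} := by
    exact_mod_cast h2
  have h3 : (1 - ε / 4) * (ε / 8) ^ 3 * (Fintype.card V / (2 * B : ℝ)) ^ 3 ≤
      (1 - 2 * (ε / 8)) * (ε / 8) ^ 3 * #s * #Y * #Z := by
    have e1 := card_bound hP₁ hP₃ hX
    have e2 := card_bound hP₁ hP₃ hY
    have e3 := card_bound hP₁ hP₃ hZ
    have e0 : 0 ≤ (Fintype.card V / (2 * B : ℝ)) := by positivity
    have e4 : (0 : ℝ) ≤ 1 - ε / 4 := by linarith
    calc (1 - ε / 4) * (ε / 8) ^ 3 * (Fintype.card V / (2 * B : ℝ)) ^ 3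
        = (1 - 2 * (ε / 8)) * (ε / 8) ^ 3 * (Fintype.card V / (2 * B : ℝ))
          * (Fintype.card V / (2 * B : ℝ)) * (Fintype.card V / (2 * B : ℝ)) := by ring
      _ ≤ _ := by
        have e5 : (0 : ℝ) ≤ 1 - 2 * (ε / 8) := by linarith
        gcongr
  linarith

lemma sum_parts (P : Finpartition (univ : Finset V)) (f : V → ℝ) :
    ∑ x, f x = ∑ U ∈ P.parts, ∑ x ∈ U, f x := by
  have h := sum_biUnion (f := f) P.disjoint
  simp only [id] at h
  rw [← h]
  congr 1
  exact P.biUnion_parts.symm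

/-- The main inequality. -/
theorem edges_le [Nonempty V] (G : SimpleGraph V) [DecidableRel G.Adj] (ε : ℝ) (hε : 0 < ε)
    (hε1 : ε ≤ 1) (a : ℕ) (ha : ∀ s : Finset V, G.IsIndepSet (s : Set V) → #s ≤ a) (X : ℝ)
    (hX0 : 0 ≤ X) (hX : ∀ x y, G.Adj x y → (#{z | G.Adj x z ∧ G.Adj y z} : ℝ) ≤ X)
    (hcard : ⌈4 / ε⌉₊ ≤ Fintype.card V)
    (htri : (#{p : V × V × V | G.Adj p.1 p.2.1 ∧ G.Adj p.1 p.2.2 ∧ G.Adj p.2.1 p.2.2} : ℝ) <
      (1 - ε / 4) * (ε / 8) ^ 3 *
        (Fintype.card V / (2 * (bound (ε / 8) ⌈4 / ε⌉₊ : ℕ) : ℝ)) ^ 3) :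
    (#G.edgeFinset : ℝ) ≤ (Fintype.card V : ℝ) ^ 2 / 8 + Fintype.card V * X / 4 +
      ε * (Fintype.card V : ℝ) ^ 2
      + (bound (ε / 8) ⌈4 / ε⌉₊ : ℕ) * a * (Fintype.card V : ℝ) / 4 := by
  classical
  set n : ℝ := (Fintype.card V : ℝ) with hn
  set B : ℕ := bound (ε / 8) ⌈4 / ε⌉₊ with hB
  obtain ⟨P, hP₁, hP₂, hP₃, hP₄⟩ := szemeredi_regularity G (by positivity : 0 < ε / 8) hcard
  have hl : 4 / ε ≤ #P.parts := (Nat.le_ceil (4 / ε)).trans (Nat.cast_le.2 hP₂)
  have hk := SimpleGraph.regularityReduced_edges_card_aux hε hP₁ hP₄ hl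
  set G' := G.regularityReduced P (ε / 8) (ε / 4) with hG'
  have hfree := blow_cliqueFree G P ε hε1 hP₁ hP₃ htri hε
  set R := blow G P ε with hR
  have hG'R : G' ≤ R := reduced_le_blow G P ε
  have hG'G : G' ≤ G := SimpleGraph.regularityReduced_le
  -- degree sums
  have hdegG' : ∑ x, (G'.degree x : ℝ) = 2 * #G'.edgeFinset := by
    exact_mod_cast G'.sum_degrees_eq_twice_card_edges
  have hdegR : ∑ x, (R.degree x : ℝ) = 2 * #R.edgeFinset := by
    exact_mod_cast R.sum_degrees_eq_twice_card_edges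
  have hmantel : (#R.edgeFinset : ℝ) ≤ n ^ 2 / 4 := by
    have h1 := SimpleGraph.CliqueFree.card_edgeFinset_le (r := 2) hfree
    simp only at h1
    have h2 : 4 * #R.edgeFinset ≤ Fintype.card V ^ 2 := by
      rcases Nat.mod_two_eq_zero_or_one (Fintype.card V) with h3 | h3
      · rw [h3] at h1
        have h4 : (Fintype.card V ^ 2 - 0 ^ 2) * (2 - 1) / (2 * 2) = Fintype.card V ^ 2 / 4 := by
          norm_num
        have h5 : Nat.choose 0 2 = 0 := rfl
        omega
      · rw [h3] at h1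
        have h4 : (Fintype.card V ^ 2 - 1 ^ 2) * (2 - 1) / (2 * 2) = (Fintype.card V ^ 2 - 1) / 4 := by
          norm_num
        have h5 : Nat.choose 1 2 = 0 := rfl
        omega
    have h3 : (4 : ℝ) * #R.edgeFinset ≤ n ^ 2 := by
      rw [hn]; exact_mod_cast h2
    linarith
  -- per part inequality
  have hpart : ∀ U ∈ P.parts, ∑ x ∈ U, (2 * (G'.degree x : ℝ) - R.degree x) ≤ X * #U + a * n := by
    intro U hU
    apply sum_le_of_adj G a ha _ X n hX0 (by positivity)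
    · intro x _
      have h1 : (G'.degree x : ℝ) ≤ R.degree x := by
        exact_mod_cast SimpleGraph.degree_le_of_le hG'R
      have h2 : (G'.degree x : ℝ) ≤ n := by
        rw [hn]
        exact_mod_cast (G'.degree_lt_card_verts x).le
      linarith
    · intro x hx y hy hxy
      have h1 : R.neighborFinset y = R.neighborFinset x := by
        ext z
        rw [SimpleGraph.mem_neighborFinset, SimpleGraph.mem_neighborFinset]
        exact blow_adj_iff_of_mem G P ε hU hy hx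
      have h2 : R.degree y = R.degree x := by
        unfold SimpleGraph.degree
        rw [h1]
      have h3 : G'.neighborFinset x ∪ G'.neighborFinset y ⊆ R.neighborFinset x := by
        apply union_subset
        · intro z hz
          rw [SimpleGraph.mem_neighborFinset] at hz ⊢
          exact hG'R hz
        · rw [← h1]
          intro z hz
          rw [SimpleGraph.mem_neighborFinset] at hz ⊢
          exact hG'R hz
      have h4 : #(G'.neighborFinset x ∩ G'.neighborFinset y) ≤ #{z | G.Adj x z ∧ G.Adj y z} := by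
        apply card_le_card
        intro z hz
        rw [mem_inter, SimpleGraph.mem_neighborFinset, SimpleGraph.mem_neighborFinset] at hz
        rw [mem_filter]
        exact ⟨mem_univ _, hG'G hz.1, hG'G hz.2⟩
      have h5 := card_union_add_card_inter (G'.neighborFinset x) (G'.neighborFinset y)
      have h6 := card_le_card h3
      have h7 : (#{z | G.Adj x z ∧ G.Adj y z} : ℝ) ≤ X := hX x y hxy
      have h8 : (G'.degree x : ℝ) + G'.degree y ≤ R.degree x + #{z | G.Adj x z ∧ G.Adj y z} := by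
        have : G'.degree x + G'.degree y ≤ R.degree x + #{z | G.Adj x z ∧ G.Adj y z} := by
          unfold SimpleGraph.degree
          omega
        exact_mod_cast this
      rw [h2]
      linarith
  have hsum : ∑ x, (2 * (G'.degree x : ℝ) - R.degree x) ≤ X * n + B * a * n := by
    have h1 : ∑ x, (2 * (G'.degree x : ℝ) - R.degree x)
        = ∑ U ∈ P.parts, ∑ x ∈ U, (2 * (G'.degree x : ℝ) - R.degree x) := sum_parts P _
    rw [h1]
    calc ∑ U ∈ P.parts, ∑ x ∈ U, (2 * (G'.degree x : ℝ) - R.degree x)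
        ≤ ∑ U ∈ P.parts, (X * #U + a * n) := sum_le_sum hpart
      _ = X * ∑ U ∈ P.parts, (#U : ℝ) + #P.parts * (a * n) := by
          rw [sum_add_distrib, ← mul_sum]
          simp
      _ ≤ X * n + B * (a * n) := by
          have h2 : ∑ U ∈ P.parts, (#U : ℝ) = n := by
            have := P.sum_card_parts
            rw [hn]
            rw [← card_univ, ← this]
            push_cast
            rfl
          rw [h2]
          have h3 : (#P.parts : ℝ) ≤ B := by exact_mod_cast hP₃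
          gcongr
      _ = X * n + B * a * n := by ring
  rw [sum_sub_distrib, ← mul_sum, hdegG', hdegR] at hsum
  have hk' : (#G.edgeFinset : ℝ) - #G'.edgeFinset < ε * n ^ 2 := by
    have h1 : 2 * (#G.edgeFinset - #G'.edgeFinset : ℝ) < 2 * ε * n ^ 2 := by
      rw [hn]
      exact_mod_cast hk
    linarith
  linarith

end Pool.Agent.H54.RT
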