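import Pool.Agent.H54.RTFinalU

/-!
# Upper bound for small constants by dependent random choice
-/

set_option maxHeartbeats 1000000

open Finset Filter Topology

namespace Pool.Agent.H54.RT

/-- Dependent random choice with a bound on the codegrees of edges. -/
lemma drc2 {V : Type*} [Fintype V] [DecidableEq V] (G : SimpleGraph V) (a : ℕ)
    (ha : ∀ s : Finset V, G.IsIndepSet (s : Set V) → #s ≤ a) (X : ℕ)
    (hX : ∀ x y, G.Adj x y → ∀ s : Finset V, (∀ z ∈ s, G.Adj x z ∧ G.Adj y z) → #s ≤ X) (t : ℕ) :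
    (adjPairs G univ) ^ (t + 1) ≤ (Fintype.card V) ^ t *
      ((Fintype.card V) ^ (t + 1) * a + (Fintype.card V) ^ 2 * X ^ (t + 1)) := by
  classical
  set n := Fintype.card V with hn
  let S : Finset V := univ
  let d : V → ℕ := fun x => #{y ∈ S | G.Adj x y}
  have hsum : adjPairs G S = ∑ x ∈ S, d x := by
    unfold adjPairs
    rw [card_filter, sum_product]
    apply sum_congr rfl
    intro x _
    simp only [d, card_filter]
  have hpm : (∑ x ∈ S, d x) ^ (t + 1) ≤ (#S) ^ t * ∑ x ∈ S, d x ^ (t + 1) := by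
    have := pow_sum_le_card_mul_sum_pow (s := S) (f := d) (fun i _ => Nat.zero_le _) t
    simpa using this
  let U : (Fin (t + 1) → V) → Finset V := fun T => {x ∈ S | ∀ i, T i ∈ S ∧ G.Adj x (T i)}
  have hcount : ∑ x ∈ S, d x ^ (t + 1) = ∑ T : Fin (t + 1) → V, #(U T) := by
    have : ∀ T : Fin (t + 1) → V, #(U T) = ∑ x ∈ S, if (∀ i, T i ∈ S ∧ G.Adj x (T i)) then 1 else 0 := by
      intro T
      simp only [U, card_filter]
    simp_rw [this]
    rw [sum_comm]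
    apply sum_congr rfl
    intro x _
    rw [← card_filter]
    have : (univ.filter fun T : Fin (t + 1) → V => ∀ i, T i ∈ S ∧ G.Adj x (T i))
        = Fintype.piFinset fun _ : Fin (t + 1) => {y ∈ S | G.Adj x y} := by
      ext T
      simp [Fintype.mem_piFinset]
    rw [this, Fintype.card_piFinset]
    simp [d]
  have hpairs : ∑ T : Fin (t + 1) → V, adjPairs G (U T)
      = ∑ p ∈ (S ×ˢ S).filter (fun p => G.Adj p.1 p.2),
          (#{z ∈ S | G.Adj p.1 z ∧ G.Adj p.2 z}) ^ (t + 1) := by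
    have : ∀ T : Fin (t + 1) → V, adjPairs G (U T) =
        ∑ p ∈ (S ×ˢ S).filter (fun p => G.Adj p.1 p.2),
          if (∀ i, T i ∈ S ∧ G.Adj p.1 (T i) ∧ G.Adj p.2 (T i)) then 1 else 0 := by
      intro T
      unfold adjPairs
      rw [← card_filter]
      congr 1
      ext p
      simp only [U, mem_filter, mem_product]
      constructor
      · rintro ⟨⟨⟨h1, h2⟩, h3, h4⟩, h5⟩
        exact ⟨⟨⟨h1, h3⟩, h5⟩, fun i => ⟨(h2 i).1, (h2 i).2, (h4 i).2⟩⟩
      · rintro ⟨⟨⟨h1, h3⟩, h5⟩, h6⟩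
        exact ⟨⟨⟨h1, fun i => ⟨(h6 i).1, (h6 i).2.1⟩⟩, h3, fun i => ⟨(h6 i).1, (h6 i).2.2⟩⟩, h5⟩
    simp_rw [this]
    rw [sum_comm]
    apply sum_congr rfl
    intro p _
    rw [← card_filter]
    have : (univ.filter fun T : Fin (t + 1) → V => ∀ i, T i ∈ S ∧ G.Adj p.1 (T i) ∧ G.Adj p.2 (T i))
        = Fintype.piFinset fun _ : Fin (t + 1) => {z ∈ S | G.Adj p.1 z ∧ G.Adj p.2 z} := by
      ext T
      simp [Fintype.mem_piFinset]
    rw [this, Fintype.card_piFinset]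
    simp
  have hcodeg : ∀ p ∈ (S ×ˢ S).filter (fun p => G.Adj p.1 p.2),
      #{z ∈ S | G.Adj p.1 z ∧ G.Adj p.2 z} ≤ X := by
    intro p hp
    simp only [mem_filter, mem_product] at hp
    apply hX p.1 p.2 hp.2
    intro z hz
    exact (mem_filter.1 hz).2
  have hSn : #S ≤ n := card_le_univ S
  have htot : ∑ T : Fin (t + 1) → V, #(U T) ≤ n ^ (t + 1) * a + n ^ 2 * X ^ (t + 1) := by
    calc ∑ T : Fin (t + 1) → V, #(U T) ≤ ∑ T : Fin (t + 1) → V, (a + adjPairs G (U T)) :=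
          sum_le_sum fun T _ => card_le_add_adjPairs G a ha (U T)
      _ = n ^ (t + 1) * a + ∑ T : Fin (t + 1) → V, adjPairs G (U T) := by
          rw [sum_add_distrib]
          simp [hn]
      _ ≤ n ^ (t + 1) * a + n ^ 2 * X ^ (t + 1) := by
          gcongr
          rw [hpairs]
          calc ∑ p ∈ (S ×ˢ S).filter (fun p => G.Adj p.1 p.2),
                (#{z ∈ S | G.Adj p.1 z ∧ G.Adj p.2 z}) ^ (t + 1)
              ≤ ∑ p ∈ (S ×ˢ S).filter (fun p => G.Adj p.1 p.2), X ^ (t + 1) :=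
                sum_le_sum fun p hp => Nat.pow_le_pow_left (hcodeg p hp) _
            _ = #((S ×ˢ S).filter (fun p => G.Adj p.1 p.2)) * X ^ (t + 1) := by simp
            _ ≤ n ^ 2 * X ^ (t + 1) := by
                gcongr
                calc #((S ×ˢ S).filter (fun p => G.Adj p.1 p.2)) ≤ #(S ×ˢ S) := card_filter_le _ _
                  _ = #S * #S := card_product _ _
                  _ ≤ n ^ 2 := by rw [sq]; exact Nat.mul_le_mul hSn hSn
  show (adjPairs G S) ^ (t + 1) ≤ _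
  rw [hsum]
  calc (∑ x ∈ S, d x) ^ (t + 1) ≤ (#S) ^ t * ∑ x ∈ S, d x ^ (t + 1) := hpm
    _ ≤ n ^ t * (n ^ (t + 1) * a + n ^ 2 * X ^ (t + 1)) := by
      rw [hcount]
      exact Nat.mul_le_mul (Nat.pow_le_pow_left hSn _) htot

lemma two_ncard_le {n : ℕ} (G : SimpleGraph (Fin n)) :
    2 * G.edgeSet.ncard ≤ adjPairs G univ := by
  classical
  have h1 : G.edgeSet.ncard = #G.edgeFinset := by
    rw [← Set.ncard_coe_finset, SimpleGraph.coe_edgeFinset]
  rw [h1, ← SimpleGraph.sum_degrees_eq_twice_card_edges]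
  unfold adjPairs
  rw [card_filter, univ_product_univ, ← univ_product_univ, sum_product]
  apply sum_le_sum
  intro v _
  rw [← card_filter, ← SimpleGraph.card_neighborFinset_eq_degree]
  apply card_le_card
  intro w hw
  rw [SimpleGraph.mem_neighborFinset] at hw
  simp [hw]

/-- real form -/
lemma drc_real {n : ℕ} (hn : 1 ≤ n) (G : SimpleGraph (Fin n)) (a : ℕ)
    (ha : ∀ s : Finset (Fin n), G.IsIndepSet (s : Set (Fin n)) → #s ≤ a) (X : ℕ)
    (hX : ∀ x y, G.Adj x y → ∀ s : Finset (Fin n), (∀ z ∈ s, G.Adj x z ∧ G.Adj y z) → #s ≤ X)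
    (t : ℕ) :
    (2 * (G.edgeSet.ncard : ℝ) / (n : ℝ) ^ 2) ^ (t + 1) ≤ a / n + n * ((X : ℝ) / n) ^ (t + 1) := by
  have h1 := drc2 G a ha X hX t
  rw [Fintype.card_fin] at h1
  have h2 : (2 * G.edgeSet.ncard) ^ (t + 1) ≤ n ^ t * (n ^ (t + 1) * a + n ^ 2 * X ^ (t + 1)) :=
    (Nat.pow_le_pow_left (two_ncard_le G) _).trans h1
  have h3 : (2 * (G.edgeSet.ncard : ℝ)) ^ (t + 1) ≤
      (n : ℝ) ^ t * ((n : ℝ) ^ (t + 1) * a + (n : ℝ) ^ 2 * (X : ℝ) ^ (t + 1)) := by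
    exact_mod_cast h2
  have hn0 : (0 : ℝ) < n := by exact_mod_cast hn
  rw [div_pow, div_le_iff₀ (by positivity)]
  refine h3.trans (le_of_eq ?_)
  rw [div_pow]
  field_simp
  ring

/-- the number of edges of a graph with small independence number and codegrees -/
theorem drc_asym (x q : ℝ) (hx0 : 0 < x) (hx1 : x < 1) (hq0 : 0 < q) (hq : q < 1 / 3) :
    ∀ᶠ n : ℕ in atTop, ∀ G : SimpleGraph (Fin n),
      (∀ s : Finset (Fin n), G.IsIndepSet (s : Set (Fin n)) → #s ≤ Q 3 n) → ∀ X : ℕ,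
      (∀ u v, G.Adj u v → ∀ s : Finset (Fin n), (∀ z ∈ s, G.Adj u z ∧ G.Adj v z) → #s ≤ X) →
      (X : ℝ) ≤ x * n → 2 * (G.edgeSet.ncard : ℝ) / (n : ℝ) ^ 2 ≤ x ^ q := by
  -- the exponent
  obtain ⟨p, hp1, hp2, hp3⟩ : ∃ p : ℝ, 1 / 2 < p ∧ p < 1 ∧ q * (2 - p) < 1 - p := by
    -- p = 1/2 + δ, q(3/2 - δ) < 1/2 - δ
    refine ⟨1 / 2 + (1 / 3 - q) / 2, by linarith, by linarith, ?_⟩
    nlinarith
  set ℓ : ℝ := Real.log (1 / x) with hℓ
  have hℓ0 : 0 < ℓ := Real.log_pos (by rw [lt_div_iff₀ hx0]; linarith)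
  have hlogx : Real.log x = -ℓ := by rw [hℓ, one_div, Real.log_inv]; ring
  set δ : ℝ := (1 - p) - q * (2 - p) with hδ
  have hδ0 : 0 < δ := by linarith
  have hbig : Tendsto (fun n : ℕ => (n : ℝ) ^ δ) atTop atTop :=
    (tendsto_rpow_atTop hδ0).comp tendsto_natCast_atTop_atTop
  filter_upwards [Q_le_rpow p hp1, hbig.eventually_gt_atTop (2 / x ^ q),
    eventually_ge_atTop 2] with n hQ hb hn2 G ha X hX hXn
  have hn : 1 ≤ n := by omega
  have hn0 : (0 : ℝ) < n := by exact_mod_cast hn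
  have hn1 : (1 : ℝ) < n := by exact_mod_cast hn2
  set L : ℝ := Real.log n with hL
  have hL0 : 0 < L := Real.log_pos hn1
  by_contra hcon
  push Not at hcon
  set t : ℕ := ⌈(2 - p) * L / ℓ⌉₊ with ht
  have htp : 0 < (2 - p) * L / ℓ := by
    have : 0 < 2 - p := by linarith
    positivity
  have ht1 : (2 - p) * L / ℓ ≤ t := Nat.le_ceil _
  have ht2 : (t : ℝ) < (2 - p) * L / ℓ + 1 := Nat.ceil_lt_add_one htp.le
  have htpos : 0 < t := Nat.ceil_pos.2 htp
  obtain ⟨t', ht'⟩ : ∃ t', t = t' + 1 := ⟨t - 1, by omega⟩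
  have hmain := drc_real hn G (Q 3 n) ha X hX t'
  rw [← ht'] at hmain
  have h1 : (Q 3 n : ℝ) / n ≤ (n : ℝ) ^ (p - 1) := by
    rw [Real.rpow_sub_one hn0.ne']
    gcongr
  have h2 : (n : ℝ) * ((X : ℝ) / n) ^ t ≤ (n : ℝ) ^ (p - 1) := by
    have h3 : (X : ℝ) / n ≤ x := by rw [div_le_iff₀ hn0]; exact hXn
    have h4 : x ^ t ≤ (n : ℝ) ^ (p - 2) := by
      rw [← Real.rpow_natCast, Real.rpow_def_of_pos hx0, Real.rpow_def_of_pos hn0, hlogx]
      apply Real.exp_le_exp.2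
      rw [div_le_iff₀ hℓ0] at ht1
      nlinarith
    calc (n : ℝ) * ((X : ℝ) / n) ^ t ≤ n * x ^ t := by gcongr
      _ ≤ n * (n : ℝ) ^ (p - 2) := by gcongr
      _ = (n : ℝ) ^ (p - 1) := by
          nth_rewrite 1 [← Real.rpow_one (n : ℝ)]
          rw [← Real.rpow_add hn0]
          congr 1
          ring
  have h3 : (x ^ q) ^ t ≤ 2 * (n : ℝ) ^ (p - 1) := by
    calc (x ^ q) ^ t ≤ (2 * (G.edgeSet.ncard : ℝ) / (n : ℝ) ^ 2) ^ t :=
          pow_le_pow_left₀ (by positivity) hcon.le t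
      _ ≤ _ := hmain
      _ ≤ 2 * (n : ℝ) ^ (p - 1) := by linarith
  have h4 : (n : ℝ) ^ (-(q * (2 - p))) * x ^ q ≤ (x ^ q) ^ t := by
    rw [← Real.rpow_natCast (x ^ q), ← Real.rpow_mul hx0.le, Real.rpow_def_of_pos hn0,
      Real.rpow_def_of_pos hx0, Real.rpow_def_of_pos hx0, ← Real.exp_add]
    apply Real.exp_le_exp.2
    rw [hlogx, ← hL]
    have h5 : q * ℓ * t ≤ q * ℓ * ((2 - p) * L / ℓ + 1) := by gcongr
    have h6 : q * ℓ * ((2 - p) * L / ℓ + 1) = q * (2 - p) * L + q * ℓ := by field_simp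
    nlinarith
  have h5 : (n : ℝ) ^ δ * (n : ℝ) ^ (p - 1) = (n : ℝ) ^ (-(q * (2 - p))) := by
    rw [← Real.rpow_add hn0, hδ]
    congr 1
    ring
  have h6 : 0 < (n : ℝ) ^ (p - 1) := by positivity
  have h7 : 0 < x ^ q := by positivity
  have h8 : (n : ℝ) ^ δ * x ^ q ≤ 2 := by
    by_contra hc
    push Not at hc
    have : 2 * (n : ℝ) ^ (p - 1) < (n : ℝ) ^ δ * x ^ q * (n : ℝ) ^ (p - 1) := by gcongr
    have h9 : (n : ℝ) ^ δ * x ^ q * (n : ℝ) ^ (p - 1) = (n : ℝ) ^ (-(q * (2 - p))) * x ^ q := by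
      rw [← h5]; ring
    linarith
  rw [div_lt_iff₀ h7] at hb
  linarith

end Pool.Agent.H54.RT
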