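import Mathlib

/-!
# Upper bound for edges of K₅-free graphs with small independence number and small codegrees
-/

set_option maxHeartbeats 1000000

open Finset

namespace Pool.Agent.H54.RT

variable {V : Type*} [Fintype V] [DecidableEq V]

/-- number of ordered adjacent pairs inside `S` -/
noncomputable def adjPairs (G : SimpleGraph V) (S : Finset V) : ℕ := by
  classical exact #{p ∈ S ×ˢ S | G.Adj p.1 p.2}

/-- A set `U` has at most `a` plus the number of ordered adjacent pairs elements, if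
independent sets have size at most `a`. -/
lemma card_le_add_adjPairs (G : SimpleGraph V) (a : ℕ)
    (ha : ∀ s : Finset V, G.IsIndepSet (s : Set V) → #s ≤ a) (U : Finset V) :
    #U ≤ a + adjPairs G U := by
  classical
  unfold adjPairs
  -- maximal independent subset of U
  obtain ⟨I, hI, hmax⟩ : ∃ I ∈ (U.powerset.filter fun s : Finset V => G.IsIndepSet (s : Set V)),
      ∀ J ∈ (U.powerset.filter fun s : Finset V => G.IsIndepSet (s : Set V)), #J ≤ #I := by
    apply Finset.exists_max_image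
    exact ⟨∅, by simp [SimpleGraph.isIndepSet_iff]⟩
  rw [mem_filter, mem_powerset] at hI
  obtain ⟨hIU, hIind⟩ := hI
  have hnb : ∀ u ∈ U \ I, ∃ w ∈ I, G.Adj u w := by
    intro u hu
    by_contra hcon
    push Not at hcon
    rw [mem_sdiff] at hu
    have : insert u I ∈ (U.powerset.filter fun s : Finset V => G.IsIndepSet (s : Set V)) := by
      rw [mem_filter, mem_powerset]
      refine ⟨insert_subset hu.1 hIU, ?_⟩
      rw [SimpleGraph.isIndepSet_iff]
      intro x hx y hy hxy
      simp only [coe_insert, Set.mem_insert_iff, mem_coe] at hx hy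
      rcases hx with rfl | hx
      · rcases hy with rfl | hy
        · exact absurd rfl hxy
        · exact hcon y hy
      · rcases hy with rfl | hy
        · intro h; exact hcon x hx h.symm
        · exact hIind hx hy hxy
    have h2 := hmax _ this
    rw [card_insert_of_notMem hu.2] at h2
    omega
  choose! f hf1 hf2 using hnb
  have h1 : #(U \ I) ≤ #{p ∈ U ×ˢ U | G.Adj p.1 p.2} := by
    apply card_le_card_of_injOn (fun u => (u, f u))
    · intro u hu
      have hu' : u ∈ U \ I := hu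
      simp only [mem_filter, mem_product, coe_filter]
      exact ⟨⟨(mem_sdiff.1 hu').1, hIU (hf1 u hu')⟩, hf2 u hu'⟩
    · intro u _ v _ h
      exact (Prod.mk.inj h).1
  have h2 : #U = #I + #(U \ I) := by
    rw [card_sdiff_of_subset hIU]
    have := card_le_card hIU
    omega
  have h3 := ha I hIind
  omega

/-- Dependent random choice: in a `K₄`-free set, with all independent sets of size at most `a`,
there are few edges. -/
lemma drc (G : SimpleGraph V) (a : ℕ)
    (ha : ∀ s : Finset V, G.IsIndepSet (s : Set V) → #s ≤ a) (S : Finset V)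
    (hS : ∀ x ∈ S, ∀ y ∈ S, ∀ z ∈ S, ∀ w ∈ S, G.Adj x y → G.Adj x z → G.Adj x w →
      G.Adj y z → G.Adj y w → ¬ G.Adj z w) (t : ℕ) :
    (adjPairs G S) ^ (t + 1) ≤ (Fintype.card V) ^ t *
      ((Fintype.card V) ^ (t + 1) * a + (Fintype.card V) ^ 2 * a ^ (t + 1)) := by
  classical
  set n := Fintype.card V with hn
  -- degrees inside S
  let d : V → ℕ := fun x => #{y ∈ S | G.Adj x y}
  have hsum : adjPairs G S = ∑ x ∈ S, d x := by
    unfold adjPairs
    rw [card_filter, sum_product]
    apply sum_congr rfl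
    intro x _
    simp only [d, card_filter]
  -- power mean
  have hpm : (∑ x ∈ S, d x) ^ (t + 1) ≤ (#S) ^ t * ∑ x ∈ S, d x ^ (t + 1) := by
    have := pow_sum_le_card_mul_sum_pow (s := S) (f := d) (fun i _ => Nat.zero_le _) t
    simpa using this
  -- the sets U(T)
  let U : (Fin (t + 1) → V) → Finset V := fun T => {x ∈ S | ∀ i, T i ∈ S ∧ G.Adj x (T i)}
  have hcount : ∑ x ∈ S, d x ^ (t + 1) = ∑ T : Fin (t + 1) → V, #(U T) := by
    have : ∀ T : Fin (t + 1) → V, #(U T) = ∑ x ∈ S, if (∀ i, T i ∈ S ∧ G.Adj x (T i)) then 1 else 0 := by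
      intro T
      simp only [U, card_filter]
    simp_rw [this]
    rw [sum_comm]
    apply sum_congr rfl
    intro x _
    rw [← card_filter]
    have : (univ.filter fun T : Fin (t + 1) → V => ∀ i, T i ∈ S ∧ G.Adj x (T i))
        = Fintype.piFinset fun _ : Fin (t + 1) => {y ∈ S | G.Adj x y} := by
      ext T
      simp [Fintype.mem_piFinset]
    rw [this, Fintype.card_piFinset]
    simp [d]
  -- number of adjacent pairs in U(T), summed
  have hpairs : ∑ T : Fin (t + 1) → V, adjPairs G (U T)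
      = ∑ p ∈ (S ×ˢ S).filter (fun p => G.Adj p.1 p.2),
          (#{z ∈ S | G.Adj p.1 z ∧ G.Adj p.2 z}) ^ (t + 1) := by
    have : ∀ T : Fin (t + 1) → V, adjPairs G (U T) =
        ∑ p ∈ (S ×ˢ S).filter (fun p => G.Adj p.1 p.2),
          if (∀ i, T i ∈ S ∧ G.Adj p.1 (T i) ∧ G.Adj p.2 (T i)) then 1 else 0 := by
      intro T
      unfold adjPairs
      rw [← card_filter]
      congr 1
      ext p
      simp only [U, mem_filter, mem_product]
      constructor
      · rintro ⟨⟨⟨h1, h2⟩, h3, h4⟩, h5⟩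
        exact ⟨⟨⟨h1, h3⟩, h5⟩, fun i => ⟨(h2 i).1, (h2 i).2, (h4 i).2⟩⟩
      · rintro ⟨⟨⟨h1, h3⟩, h5⟩, h6⟩
        exact ⟨⟨⟨h1, fun i => ⟨(h6 i).1, (h6 i).2.1⟩⟩, h3, fun i => ⟨(h6 i).1, (h6 i).2.2⟩⟩, h5⟩
    simp_rw [this]
    rw [sum_comm]
    apply sum_congr rfl
    intro p _
    rw [← card_filter]
    have : (univ.filter fun T : Fin (t + 1) → V => ∀ i, T i ∈ S ∧ G.Adj p.1 (T i) ∧ G.Adj p.2 (T i))
        = Fintype.piFinset fun _ : Fin (t + 1) => {z ∈ S | G.Adj p.1 z ∧ G.Adj p.2 z} := by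
      ext T
      simp [Fintype.mem_piFinset]
    rw [this, Fintype.card_piFinset]
    simp
  have hcodeg : ∀ p ∈ (S ×ˢ S).filter (fun p => G.Adj p.1 p.2),
      #{z ∈ S | G.Adj p.1 z ∧ G.Adj p.2 z} ≤ a := by
    intro p hp
    simp only [mem_filter, mem_product] at hp
    apply ha
    rw [SimpleGraph.isIndepSet_iff]
    intro x hx y hy _
    simp only [coe_filter, Set.mem_ofPred_eq] at hx hy
    exact hS p.1 hp.1.1 p.2 hp.1.2 x hx.1 y hy.1 hp.2 hx.2.1 hy.2.1 hx.2.2 hy.2.2
  have hSn : #S ≤ n := card_le_univ S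
  have htot : ∑ T : Fin (t + 1) → V, #(U T) ≤ n ^ (t + 1) * a + n ^ 2 * a ^ (t + 1) := by
    calc ∑ T : Fin (t + 1) → V, #(U T) ≤ ∑ T : Fin (t + 1) → V, (a + adjPairs G (U T)) :=
          sum_le_sum fun T _ => card_le_add_adjPairs G a ha (U T)
      _ = n ^ (t + 1) * a + ∑ T : Fin (t + 1) → V, adjPairs G (U T) := by
          rw [sum_add_distrib]
          simp [hn]
      _ ≤ n ^ (t + 1) * a + n ^ 2 * a ^ (t + 1) := by
          gcongr
          rw [hpairs]
          calc ∑ p ∈ (S ×ˢ S).filter (fun p => G.Adj p.1 p.2),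
                (#{z ∈ S | G.Adj p.1 z ∧ G.Adj p.2 z}) ^ (t + 1)
              ≤ ∑ p ∈ (S ×ˢ S).filter (fun p => G.Adj p.1 p.2), a ^ (t + 1) :=
                sum_le_sum fun p hp => Nat.pow_le_pow_left (hcodeg p hp) _
            _ = #((S ×ˢ S).filter (fun p => G.Adj p.1 p.2)) * a ^ (t + 1) := by simp
            _ ≤ n ^ 2 * a ^ (t + 1) := by
                gcongr
                calc #((S ×ˢ S).filter (fun p => G.Adj p.1 p.2)) ≤ #(S ×ˢ S) := card_filter_le _ _
                  _ = #S * #S := card_product _ _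
                  _ ≤ n ^ 2 := by rw [sq]; exact Nat.mul_le_mul hSn hSn
  rw [hsum]
  calc (∑ x ∈ S, d x) ^ (t + 1) ≤ (#S) ^ t * ∑ x ∈ S, d x ^ (t + 1) := hpm
    _ ≤ n ^ t * (n ^ (t + 1) * a + n ^ 2 * a ^ (t + 1)) := by
      rw [hcount]
      exact Nat.mul_le_mul (Nat.pow_le_pow_left hSn _) htot

/-- greedy matching -/
lemma sum_le_of_adj (G : SimpleGraph V) (a : ℕ)
    (ha : ∀ s : Finset V, G.IsIndepSet (s : Set V) → #s ≤ a) (f : V → ℝ) (X c : ℝ)
    (hX : 0 ≤ X) (hc : 0 ≤ c) : ∀ U : Finset V, (∀ x ∈ U, f x ≤ c) →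
      (∀ x ∈ U, ∀ y ∈ U, G.Adj x y → f x + f y ≤ 2 * X) → ∑ x ∈ U, f x ≤ X * #U + a * c := by
  classical
  intro U
  induction U using Finset.strongInduction with
  | H U ih =>
    intro h1 h2
    by_cases hind : G.IsIndepSet (U : Set V)
    · have h3 := ha U hind
      calc ∑ x ∈ U, f x ≤ ∑ x ∈ U, c := sum_le_sum h1
        _ = #U * c := by simp
        _ ≤ a * c := by gcongr
        _ ≤ X * #U + a * c := by nlinarith [mul_nonneg hX (Nat.cast_nonneg (α := ℝ) #U)]
    · rw [SimpleGraph.isIndepSet_iff] at hind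
      unfold Set.Pairwise at hind
      push Not at hind
      obtain ⟨x, hx, y, hy, hxy, hadj⟩ := hind
      have hx' : x ∈ U := hx
      have hy' : y ∈ U := hy
      have hyx : y ∈ U.erase x := mem_erase.2 ⟨hxy.symm, hy'⟩
      have hsub : (U.erase x).erase y ⊂ U :=
        lt_of_le_of_lt (erase_subset _ _) (erase_ssubset hx')
      have h4 := ih _ hsub (fun z hz => h1 z (mem_of_mem_erase (mem_of_mem_erase hz)))
        (fun z hz w hw => h2 z (mem_of_mem_erase (mem_of_mem_erase hz)) w
          (mem_of_mem_erase (mem_of_mem_erase hw)))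
      have h5 : ∑ z ∈ U, f z = f x + (f y + ∑ z ∈ (U.erase x).erase y, f z) := by
        rw [add_sum_erase _ _ hyx, add_sum_erase _ _ hx']
      have h6 : #((U.erase x).erase y) + 2 = #U := by
        rw [card_erase_of_mem hyx, card_erase_of_mem hx']
        have : 2 ≤ #U := by
          have h7 := card_pos.2 ⟨y, hyx⟩
          rw [card_erase_of_mem hx'] at h7
          omega
        omega
      have h7 : (#U : ℝ) = #((U.erase x).erase y) + 2 := by exact_mod_cast h6.symm
      rw [h5, h7]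
      have h8 := h2 x hx' y hy' hadj
      nlinarith

end Pool.Agent.H54.RT
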