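import Mathlib

set_option autoImplicit false
set_option linter.unusedSectionVars false

namespace Pool.Agent.H54.Shuffle

open Equiv Finset

variable {α : Type*} [DecidableEq α]

/-- Indicator of a proposition. -/
noncomputable def ind (P : Prop) : ℝ := open Classical in if P then 1 else 0

lemma ind_true {P : Prop} (h : P) : ind P = 1 := by simp [ind, h]

lemma ind_false {P : Prop} (h : ¬ P) : ind P = 0 := by simp [ind, h]

lemma ind_congr {P Q : Prop} (h : P ↔ Q) : ind P = ind Q := congrArg ind (propext h)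

lemma ind_and (P Q : Prop) : ind (P ∧ Q) = ind P * ind Q := by
  by_cases hP : P <;> by_cases hQ : Q <;> simp [ind, hP, hQ]

lemma ind_eq_ite (P : Prop) [Decidable P] : ind P = if P then 1 else 0 := by
  by_cases hP : P <;> simp [ind, hP]

/-- A raw lazy transposition. -/
structure RawLT (α : Type*) where
  a : α
  b : α
  p : ℝ

/-- All members are genuine lazy transpositions. -/
def Valid (l : List (RawLT α)) : Prop := ∀ t ∈ l, t.a ≠ t.b ∧ 0 ≤ t.p ∧ t.p ≤ 1

/-- All members act on `Ω`. -/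
def Supp (Ω : Finset α) (l : List (RawLT α)) : Prop := ∀ t ∈ l, t.a ∈ Ω ∧ t.b ∈ Ω

/-- The permutation fixes all points outside `Ω`. -/
def Fix (Ω : Finset α) (σ : Perm α) : Prop := ∀ z, z ∉ Ω → σ z = z

/-- Expectation over the product `T₁ ⋯ T_l` of independent lazy transpositions. -/
noncomputable def Ex : List (RawLT α) → (Perm α → ℝ) → ℝ
  | [], F => F 1
  | t :: l, F => (1 - t.p) * Ex l F + t.p * Ex l (fun σ => F (swap t.a t.b * σ))

lemma Valid.append {l₁ l₂ : List (RawLT α)} (h₁ : Valid l₁) (h₂ : Valid l₂) : Valid (l₁ ++ l₂) := by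
  intro t ht
  rcases List.mem_append.mp ht with h | h
  · exact h₁ t h
  · exact h₂ t h

lemma Supp.append {Ω : Finset α} {l₁ l₂ : List (RawLT α)} (h₁ : Supp Ω l₁) (h₂ : Supp Ω l₂) :
    Supp Ω (l₁ ++ l₂) := by
  intro t ht
  rcases List.mem_append.mp ht with h | h
  · exact h₁ t h
  · exact h₂ t h

lemma Supp.mono {Ω Ω' : Finset α} (h : Ω ⊆ Ω') {l : List (RawLT α)} (hl : Supp Ω l) : Supp Ω' l :=
  fun t ht => ⟨h (hl t ht).1, h (hl t ht).2⟩

lemma Fix.one {Ω : Finset α} : Fix Ω (1 : Perm α) := fun _ _ => rfl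

lemma Fix.mul {Ω : Finset α} {σ τ : Perm α} (h₁ : Fix Ω σ) (h₂ : Fix Ω τ) : Fix Ω (σ * τ) := by
  intro z hz
  rw [Perm.mul_apply, h₂ z hz, h₁ z hz]

lemma Fix.symm {Ω : Finset α} {σ : Perm α} (h : Fix Ω σ) : Fix Ω σ.symm := by
  intro z hz
  rw [Equiv.symm_apply_eq]
  exact (h z hz).symm

lemma Fix.swap {Ω : Finset α} {a b : α} (ha : a ∈ Ω) (hb : b ∈ Ω) : Fix Ω (swap a b) := by
  intro z hz
  exact swap_apply_of_ne_of_ne (fun h => hz (h ▸ ha)) (fun h => hz (h ▸ hb))

lemma Fix.mem {Ω : Finset α} {σ : Perm α} (h : Fix Ω σ) {z : α} : σ z ∈ Ω ↔ z ∈ Ω := by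
  constructor
  · intro hz
    by_contra hn
    rw [h z hn] at hz
    exact hn hz
  · intro hz
    by_contra hn
    have h1 := h.symm (σ z) hn
    rw [Equiv.symm_apply_apply] at h1
    rw [← h1] at hn
    exact hn hz

lemma Fix.mono {Ω Ω' : Finset α} (hs : Ω ⊆ Ω') {σ : Perm α} (h : Fix Ω σ) : Fix Ω' σ :=
  fun z hz => h z (fun h' => hz (hs h'))

lemma Ex_const (l : List (RawLT α)) (c : ℝ) : Ex l (fun _ => c) = c := by
  induction l with
  | nil => rfl
  | cons t l ih => simp only [Ex, ih]; ring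

lemma Ex_add (l : List (RawLT α)) (F G : Perm α → ℝ) :
    Ex l (fun σ => F σ + G σ) = Ex l F + Ex l G := by
  induction l generalizing F G with
  | nil => rfl
  | cons t l ih => simp only [Ex, ih]; ring

lemma Ex_smul (l : List (RawLT α)) (c : ℝ) (F : Perm α → ℝ) :
    Ex l (fun σ => c * F σ) = c * Ex l F := by
  induction l generalizing F with
  | nil => rfl
  | cons t l ih => simp only [Ex, ih]; ring

lemma Ex_mul_right (l : List (RawLT α)) (c : ℝ) (F : Perm α → ℝ) :
    Ex l (fun σ => F σ * c) = Ex l F * c := by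
  induction l generalizing F with
  | nil => rfl
  | cons t l ih => simp only [Ex, ih]; ring

lemma Ex_sum {ι : Type*} (s : Finset ι) (l : List (RawLT α)) (F : ι → Perm α → ℝ) :
    Ex l (fun σ => ∑ i ∈ s, F i σ) = ∑ i ∈ s, Ex l (F i) := by
  classical
  induction s using Finset.induction_on with
  | empty => simp [Ex_const]
  | insert i s hi ih =>
    simp only [Finset.sum_insert hi]
    rw [Ex_add, ih]

lemma Ex_append (l₁ l₂ : List (RawLT α)) (F : Perm α → ℝ) :
    Ex (l₁ ++ l₂) F = Ex l₁ (fun σ₁ => Ex l₂ (fun σ₂ => F (σ₁ * σ₂))) := by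
  induction l₁ generalizing F with
  | nil => simp [Ex]
  | cons t l₁ ih => simp only [List.cons_append, Ex, ih, mul_assoc]

lemma Ex_comm (l₁ l₂ : List (RawLT α)) (H : Perm α → Perm α → ℝ) :
    Ex l₁ (fun σ₁ => Ex l₂ (fun σ₂ => H σ₁ σ₂)) = Ex l₂ (fun σ₂ => Ex l₁ (fun σ₁ => H σ₁ σ₂)) := by
  induction l₁ generalizing H with
  | nil => rfl
  | cons t l₁ ih =>
    simp only [Ex]
    rw [ih, ih, ← Ex_smul, ← Ex_smul, ← Ex_add]

lemma Ex_congr_fix {Ω : Finset α} {l : List (RawLT α)} (hS : Supp Ω l) {F G : Perm α → ℝ}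
    (h : ∀ σ, Fix Ω σ → F σ = G σ) : Ex l F = Ex l G := by
  induction l generalizing F G with
  | nil => exact h 1 Fix.one
  | cons t l ih =>
    have ht := hS t (by simp)
    have hS' : Supp Ω l := fun t' ht' => hS t' (by simp [ht'])
    simp only [Ex]
    rw [ih hS' h, ih hS' (F := fun σ => F (Equiv.swap t.a t.b * σ))
      (G := fun σ => G (Equiv.swap t.a t.b * σ))
      (fun σ hσ => h _ ((Fix.swap ht.1 ht.2).mul hσ))]

/-! ### Insertion lists -/

/-- The preimage of `x` becomes uniform on `x` and the listed points. -/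
noncomputable def ins (x : α) : List α → List (RawLT α)
  | [] => []
  | z :: zs => ⟨x, z, 1 / ((zs.length : ℝ) + 2)⟩ :: ins x zs

lemma ins_length (x : α) (zs : List α) : (ins x zs).length = zs.length := by
  induction zs with
  | nil => rfl
  | cons z zs ih => simp [ins, ih]

lemma ins_valid (x : α) (zs : List α) (hx : x ∉ zs) : Valid (ins x zs) := by
  induction zs with
  | nil => intro t ht; simp [ins] at ht
  | cons z zs ih =>
    intro t ht
    simp only [ins, List.mem_cons] at ht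
    rcases ht with rfl | ht
    · refine ⟨fun h => hx (by simp only at h; simp [h]), ?_, ?_⟩
      · positivity
      · rw [div_le_one (by positivity)]
        have : (0 : ℝ) ≤ (zs.length : ℝ) := by positivity
        linarith
    · exact ih (fun h => hx (by simp [h])) t ht

lemma ins_supp (x : α) (zs : List α) : Supp (insert x zs.toFinset) (ins x zs) := by
  induction zs with
  | nil => intro t ht; simp [ins] at ht
  | cons z zs ih =>
    intro t ht
    simp only [ins, List.mem_cons] at ht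
    rcases ht with rfl | ht
    · simp
    · have := ih t ht
      simp only [mem_insert, List.mem_toFinset, List.toFinset_cons] at this ⊢
      tauto

lemma ins_law (x : α) (zs : List α) (hnd : zs.Nodup) (hx : x ∉ zs) (F : α → ℝ) :
    Ex (ins x zs) (fun σ => F (σ.symm x)) = (F x + (zs.map F).sum) / ((zs.length : ℝ) + 1) := by
  induction zs with
  | nil => simp only [ins, Ex, List.map_nil, List.sum_nil, List.length_nil]
           norm_num
           rfl
  | cons z zs ih =>
    have hnd' : zs.Nodup := (List.nodup_cons.mp hnd).2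
    have hz : z ∉ zs := (List.nodup_cons.mp hnd).1
    have hx' : x ∉ zs := fun h => hx (by simp [h])
    have hxz : x ≠ z := fun h => hx (by simp [h])
    simp only [ins, Ex]
    rw [ih hnd' hx']
    have h2 : Ex (ins x zs) (fun σ => F ((Equiv.swap x z * σ).symm x)) = F z := by
      rw [Ex_congr_fix (ins_supp x zs) (G := fun _ => F z), Ex_const]
      intro σ hσ
      have h5 : (Equiv.swap x z * σ).symm x = σ.symm z := by
        show σ.symm ((Equiv.swap x z).symm x) = _
        rw [Equiv.symm_swap, Equiv.swap_apply_left]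
      rw [h5, hσ.symm z (by simp [hxz.symm, hz])]
    rw [h2]
    have hlen : (0 : ℝ) ≤ (zs.length : ℝ) := by positivity
    have h3 : ((zs.length : ℝ) + 1) ≠ 0 := by positivity
    have h4 : ((zs.length : ℝ) + 2) ≠ 0 := by positivity
    simp only [List.length_cons, List.map_cons, List.sum_cons]
    push_cast
    field_simp
    ring

/-! ### Invariance (`k`-wise shuffling) and set designs -/

/-- The law of the image of any `k`-tuple does not change when the tuple is first moved by a
permutation of `Ω`. -/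
def Inv (k : ℕ) (Ω : Finset α) (l : List (RawLT α)) : Prop :=
  ∀ (y : Fin k → α) (π : Perm α), Fix Ω π → ∀ Φ : (Fin k → α) → ℝ,
    Ex l (fun σ => Φ (fun i => σ (π (y i)))) = Ex l (fun σ => Φ (fun i => σ (y i)))

/-- The preimage of `A` is a random `k`-design in `Ω`. -/
def Des (k : ℕ) (Ω A : Finset α) (l : List (RawLT α)) : Prop :=
  ∀ X ⊆ Ω, X.card ≤ k →
    Ex l (fun σ => ind (∀ z ∈ X, σ z ∈ A)) =
      (A.card.descFactorial X.card : ℝ) / (Ω.card.descFactorial X.card : ℝ)

lemma exists_tuple {k : ℕ} {X : Finset α} (hX : X.Nonempty) (hc : X.card ≤ k) :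
    ∃ y : Fin k → α, (Finset.univ : Finset (Fin k)).image y = X := by
  obtain ⟨x0, hx0⟩ := hX
  let e := X.equivFin
  refine ⟨fun i => if h : (i : ℕ) < X.card then (e.symm ⟨i, h⟩ : α) else x0, ?_⟩
  ext z
  simp only [mem_image, mem_univ, true_and]
  constructor
  · rintro ⟨i, hi⟩
    split_ifs at hi with h
    · rw [← hi]; exact (e.symm ⟨i, h⟩).2
    · rw [← hi]; exact hx0
  · intro hz
    refine ⟨⟨(e ⟨z, hz⟩ : ℕ), lt_of_lt_of_le (e ⟨z, hz⟩).2 hc⟩, ?_⟩
    simp

lemma Inv.finset {k : ℕ} {Ω : Finset α} {l : List (RawLT α)} (h : Inv k Ω l) (H : Finset α → ℝ)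
    {X : Finset α} (hc : X.card ≤ k) {π : Perm α} (hπ : Fix Ω π) :
    Ex l (fun σ => H ((X.image π).image σ)) = Ex l (fun σ => H (X.image σ)) := by
  rcases X.eq_empty_or_nonempty with rfl | hne
  · simp
  · obtain ⟨y, hy⟩ := exists_tuple hne hc
    have := h y π hπ (fun w => H ((Finset.univ : Finset (Fin k)).image w))
    rw [← hy]
    simp only [Finset.image_image, Function.comp_def]
    exact this

lemma exists_perm {Ω X X' : Finset α} (hX : X ⊆ Ω) (hX' : X' ⊆ Ω) (hc : X.card = X'.card) :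
    ∃ π : Perm α, Fix Ω π ∧ X.image π = X' := by
  induction hn : (X \ X').card generalizing X with
  | zero =>
    refine ⟨1, Fix.one, ?_⟩
    have h1 : X ⊆ X' := by
      rw [Finset.card_eq_zero, Finset.sdiff_eq_empty_iff_subset] at hn
      exact hn
    have h2 : X = X' := Finset.eq_of_subset_of_card_le h1 (by omega)
    simp [h2]
  | succ n ih =>
    obtain ⟨u, hu⟩ : (X \ X').Nonempty := Finset.card_pos.mp (by omega)
    have hcard : (X' \ X).card = (X \ X').card := by
      have h1 := Finset.card_sdiff_add_card_inter X X'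
      have h2 := Finset.card_sdiff_add_card_inter X' X
      rw [Finset.inter_comm X' X] at h2
      omega
    obtain ⟨v, hv⟩ : (X' \ X).Nonempty := Finset.card_pos.mp (by omega)
    rw [Finset.mem_sdiff] at hu hv
    have himg : X.image (Equiv.swap u v) = insert v (X.erase u) := by
      ext z
      simp only [mem_image, mem_insert, mem_erase]
      constructor
      · rintro ⟨w, hw, rfl⟩
        by_cases hwu : w = u
        · subst hwu; left; exact Equiv.swap_apply_left _ _
        · have hwv : w ≠ v := fun h => hv.2 (h ▸ hw)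
          rw [Equiv.swap_apply_of_ne_of_ne hwu hwv]
          right; exact ⟨hwu, hw⟩
      · rintro (rfl | ⟨hzu, hz⟩)
        · exact ⟨u, hu.1, Equiv.swap_apply_left _ _⟩
        · have hzv : z ≠ v := fun h => hv.2 (h ▸ hz)
          exact ⟨z, hz, Equiv.swap_apply_of_ne_of_ne hzu hzv⟩
    have hsub : X.image (Equiv.swap u v) ⊆ Ω := by
      rw [himg]
      intro z hz
      rcases mem_insert.mp hz with rfl | h
      · exact hX' hv.1
      · exact hX (mem_of_mem_erase h)
    have hcd : (X.image (Equiv.swap u v)).card = X.card :=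
      Finset.card_image_of_injective _ (Equiv.injective _)
    have hsd : (X.image (Equiv.swap u v) \ X').card = n := by
      have : X.image (Equiv.swap u v) \ X' = (X \ X').erase u := by
        rw [himg]
        ext z
        simp only [mem_sdiff, mem_insert, mem_erase]
        constructor
        · rintro ⟨rfl | ⟨h1, h2⟩, h3⟩
          · exact absurd hv.1 h3
          · exact ⟨h1, h2, h3⟩
        · rintro ⟨h1, h2, h3⟩
          exact ⟨Or.inr ⟨h1, h2⟩, h3⟩
      rw [this, Finset.card_erase_of_mem (Finset.mem_sdiff.mpr hu)]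
      omega
    obtain ⟨π, hπ, hπX⟩ := ih hsub (by omega) hsd
    refine ⟨π * Equiv.swap u v, hπ.mul (Fix.swap (hX hu.1) (hX' hv.1)), ?_⟩
    rw [← hπX, Finset.image_image]
    rfl

/-- If the probabilities are constant over the `j`-subsets of `Ω`, the constant is the
hypergeometric one. -/
lemma const_value {Ω A : Finset α} {l : List (RawLT α)} (hS : Supp Ω l) (hA : A ⊆ Ω) {j : ℕ}
    (hj : j ≤ Ω.card) {c : ℝ}
    (hc : ∀ X ⊆ Ω, X.card = j →
      Ex l (fun σ => ind (∀ z ∈ X, σ z ∈ A)) = c) :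
    c = (A.card.descFactorial j : ℝ) / (Ω.card.descFactorial j : ℝ) := by
  have h1 : ∑ X ∈ Ω.powersetCard j,
      Ex l (fun σ => ind (∀ z ∈ X, σ z ∈ A)) = (Ω.card.choose j : ℝ) * c := by
    rw [Finset.sum_congr rfl (fun X hX => hc X (Finset.mem_powersetCard.mp hX).1
      (Finset.mem_powersetCard.mp hX).2)]
    simp [Finset.card_powersetCard]
  have h2 : ∑ X ∈ Ω.powersetCard j,
      Ex l (fun σ => ind (∀ z ∈ X, σ z ∈ A)) = (A.card.choose j : ℝ) := by
    rw [← Ex_sum, Ex_congr_fix hS (G := fun _ => (A.card.choose j : ℝ)), Ex_const]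
    intro σ hσ
    simp only [ind_eq_ite]
    rw [← Finset.sum_filter, Finset.sum_const, nsmul_eq_mul, mul_one]
    have h3 : (Ω.powersetCard j).filter (fun X => ∀ z ∈ X, σ z ∈ A) =
        (Ω.filter (fun z => σ z ∈ A)).powersetCard j := by
      ext X
      simp only [mem_filter, mem_powersetCard]
      constructor
      · rintro ⟨⟨h1, h2⟩, h3⟩
        exact ⟨fun z hz => mem_filter.mpr ⟨h1 hz, h3 z hz⟩, h2⟩
      · rintro ⟨h1, h2⟩
        exact ⟨⟨fun z hz => (mem_filter.mp (h1 hz)).1, h2⟩,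
          fun z hz => (mem_filter.mp (h1 hz)).2⟩
    have h4 : (Ω.filter (fun z => σ z ∈ A)).image σ = A := by
      ext z
      simp only [mem_image, mem_filter]
      constructor
      · rintro ⟨w, ⟨_, hw⟩, rfl⟩; exact hw
      · intro hz
        refine ⟨σ.symm z, ⟨hσ.symm.mem.mpr (hA hz), by simpa using hz⟩, by simp⟩
    rw [h3, Finset.card_powersetCard, ← h4, Finset.card_image_of_injective _ (Equiv.injective _),
      h4]
  have h3 : (Ω.card.choose j : ℝ) * c = (A.card.choose j : ℝ) := by rw [← h1, h2]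
  have h4 : (Ω.card.choose j : ℝ) ≠ 0 := by
    have := Nat.choose_pos hj
    positivity
  have h5 : (j.factorial : ℝ) ≠ 0 := by positivity
  rw [Nat.descFactorial_eq_factorial_mul_choose, Nat.descFactorial_eq_factorial_mul_choose]
  push_cast
  rw [mul_div_mul_left _ _ h5, eq_div_iff h4, mul_comm]
  exact h3

/-- A `k`-wise shuffle of `Ω` makes every subset a `k`-design. -/
lemma Inv.des {k : ℕ} {Ω A : Finset α} {l : List (RawLT α)} (hS : Supp Ω l) (h : Inv k Ω l)
    (hA : A ⊆ Ω) : Des k Ω A l := by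
  intro X hX hXk
  refine const_value hS hA (Finset.card_le_card hX) ?_
  intro X' hX' hc
  obtain ⟨π, hπ, hπX⟩ := exists_perm hX hX' hc.symm
  have h1 := h.finset (fun Y => ind (∀ z ∈ Y, z ∈ A)) hXk hπ
  rw [hπX] at h1
  simp only [Finset.forall_mem_image] at h1
  exact h1

/-! ### Inserting a point -/

lemma ratio_zero {m a j : ℕ} (ham : a ≤ m) (hj : j ≤ m + 1) :
    (((m + 1 : ℕ) : ℝ) - (j : ℝ)) * ((a.descFactorial j : ℝ) / (m.descFactorial j : ℝ)) /
      ((m + 1 : ℕ) : ℝ) = (a.descFactorial j : ℝ) / ((m + 1).descFactorial j : ℝ) := by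
  rcases j with _ | j
  · have : ((m : ℝ) + 1) ≠ 0 := by positivity
    simp [this]
  · rw [Nat.succ_descFactorial_succ, Nat.descFactorial_succ a, Nat.descFactorial_succ m]
    have hQ : ((m.descFactorial j : ℕ) : ℝ) ≠ 0 := by
      have : 0 < m.descFactorial j := Nat.descFactorial_pos.mpr (by omega)
      positivity
    have hm : ((m : ℝ) + 1) ≠ 0 := by positivity
    rcases Nat.lt_or_ge j m with hjm | hjm
    · have h1 : ((m - j : ℕ) : ℝ) ≠ 0 := by
        have : 0 < m - j := by omega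
        positivity
      have h2 : ((m - j : ℕ) : ℝ) = (m : ℝ) - j := by
        push_cast [Nat.cast_sub hjm.le]; ring
      push_cast
      rw [show ((m : ℝ) + 1 - ((j : ℝ) + 1)) = ((m - j : ℕ) : ℝ) by rw [h2]; ring]
      field_simp
    · have hjm' : j = m := by omega
      subst hjm'
      have : a - j = 0 := by omega
      simp [this]

lemma ratio_one {m a j : ℕ} (ham : a ≤ m) (hj : j ≤ m + 1) :
    ((j : ℝ) * ((a.descFactorial (j - 1) : ℝ) / (m.descFactorial (j - 1) : ℝ)) +
      (((m + 1 : ℕ) : ℝ) - (j : ℝ)) * ((a.descFactorial j : ℝ) / (m.descFactorial j : ℝ))) /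
      ((m + 1 : ℕ) : ℝ) = ((a + 1).descFactorial j : ℝ) / ((m + 1).descFactorial j : ℝ) := by
  rcases j with _ | j
  · have : ((m : ℝ) + 1) ≠ 0 := by positivity
    simp [this]
  · rw [Nat.succ_descFactorial_succ, Nat.succ_descFactorial_succ, Nat.descFactorial_succ a,
      Nat.descFactorial_succ m, Nat.add_sub_cancel]
    have hQ : ((m.descFactorial j : ℕ) : ℝ) ≠ 0 := by
      have : 0 < m.descFactorial j := Nat.descFactorial_pos.mpr (by omega)
      positivity
    have hm : ((m : ℝ) + 1) ≠ 0 := by positivity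
    rcases Nat.lt_or_ge a j with haj | haj
    · have h0 : a.descFactorial j = 0 := Nat.descFactorial_eq_zero_iff_lt.mpr haj
      simp [h0]
    · rcases Nat.lt_or_ge j m with hjm | hjm
      · have h1 : ((m - j : ℕ) : ℝ) ≠ 0 := by
          have : 0 < m - j := by omega
          positivity
        have h2 : ((m - j : ℕ) : ℝ) = (m : ℝ) - j := by
          push_cast [Nat.cast_sub hjm.le]; ring
        have h3 : ((a - j : ℕ) : ℝ) = (a : ℝ) - j := by
          push_cast [Nat.cast_sub haj]; ring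
        push_cast
        rw [show ((m : ℝ) + 1 - ((j : ℝ) + 1)) = ((m - j : ℕ) : ℝ) by rw [h2]; ring]
        field_simp
        rw [h3]
        ring
      · have hjm' : j = m := by omega
        subst hjm'
        have ha : a = j := by omega
        subst ha
        simp
        field_simp

/-- Extending a design list by the insertion of a new point `x`: both `A` and `A ∪ {x}` become
designs in the larger ground set. -/
lemma Des_ins {k : ℕ} {Ω A : Finset α} {l : List (RawLT α)} {x : α} (hx : x ∉ Ω) (hS : Supp Ω l)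
    (hA : A ⊆ Ω) (hD : Des k Ω A l) :
    Des k (insert x Ω) A (l ++ ins x Ω.toList) ∧
      Des k (insert x Ω) (insert x A) (l ++ ins x Ω.toList) := by
  have hxA : x ∉ A := fun h => hx (hA h)
  have hRS : Supp (insert x Ω) (ins x Ω.toList) := by
    have := ins_supp x Ω.toList
    simpa using this
  -- the general computation
  have key : ∀ (B : Finset α) (v0 v1 : ℝ) (X : Finset α), X ⊆ insert x Ω →
      (∀ X' : Finset α, X' ⊆ insert x Ω → X'.card = X.card →
        Ex l (fun σ => ind (∀ z ∈ X', σ z ∈ B)) = if x ∈ X' then v1 else v0) →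
      Ex (l ++ ins x Ω.toList) (fun σ => ind (∀ z ∈ X, σ z ∈ B)) =
        ((X.card : ℝ) * v1 + (((Ω.card + 1 : ℕ) : ℝ) - (X.card : ℝ)) * v0) /
          ((Ω.card + 1 : ℕ) : ℝ) := by
    intro B v0 v1 X hX hV
    rw [Ex_append, Ex_comm]
    have h1 : ∀ σ₂ : Perm α, Fix (insert x Ω) σ₂ →
        Ex l (fun σ₁ => ind (∀ z ∈ X, (σ₁ * σ₂) z ∈ B)) =
          (fun z => if z ∈ X then v1 else v0) (σ₂.symm x) := by
      intro σ₂ hσ₂
      have h2 := hV (X.image σ₂) (by
        intro z hz
        obtain ⟨w, hw, rfl⟩ := mem_image.mp hz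
        exact hσ₂.mem.mpr (hX hw)) (Finset.card_image_of_injective _ (Equiv.injective _))
      simp only [Finset.forall_mem_image] at h2
      have h3 : (x ∈ X.image σ₂) ↔ σ₂.symm x ∈ X := by
        rw [mem_image]
        constructor
        · rintro ⟨w, hw, rfl⟩; simpa using hw
        · intro h; exact ⟨_, h, by simp⟩
      have h4 : (fun σ₁ : Perm α => ind (∀ z ∈ X, (σ₁ * σ₂) z ∈ B)) =
          fun σ₁ => ind (∀ ⦃z : α⦄, z ∈ X → σ₁ (σ₂ z) ∈ B) := by
        funext σ₁
        exact ind_congr Iff.rfl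
      rw [h4, h2]
      simp only [h3]
    rw [Ex_congr_fix hRS h1]
    rw [ins_law x Ω.toList Ω.nodup_toList (by simpa using hx) (fun z => if z ∈ X then v1 else v0)]
    have h4 : ((fun z => if z ∈ X then v1 else v0) x +
        (Ω.toList.map (fun z => if z ∈ X then v1 else v0)).sum) =
        ∑ z ∈ insert x Ω, (if z ∈ X then v1 else v0) := by
      rw [Finset.sum_insert hx, Finset.sum_map_toList]
    rw [h4, Finset.sum_ite, Finset.sum_const, Finset.sum_const]
    have h5 : (insert x Ω).filter (fun z => z ∈ X) = X := by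
      ext z; simp only [mem_filter]; exact ⟨fun h => h.2, fun h => ⟨hX h, h⟩⟩
    have h6 : ((insert x Ω).filter (fun z => z ∉ X)).card + X.card = Ω.card + 1 := by
      have := Finset.card_filter_add_card_filter_not (s := insert x Ω) (fun z => z ∈ X)
      rw [h5, Finset.card_insert_of_notMem hx] at this
      omega
    have h7 : (((insert x Ω).filter (fun z => z ∉ X)).card : ℝ) =
        ((Ω.card + 1 : ℕ) : ℝ) - (X.card : ℝ) := by
      rw [← h6]; push_cast; ring
    rw [h5, nsmul_eq_mul, nsmul_eq_mul, h7, Finset.length_toList]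
    push_cast
    rfl
  have hAc : A.card ≤ Ω.card := Finset.card_le_card hA
  constructor
  · intro X hX hXk
    have hXc : X.card ≤ Ω.card + 1 := by
      have := Finset.card_le_card hX
      rwa [Finset.card_insert_of_notMem hx] at this
    rw [key A ((A.card.descFactorial X.card : ℝ) / (Ω.card.descFactorial X.card : ℝ)) 0 X hX ?_]
    · rw [mul_zero, zero_add, Finset.card_insert_of_notMem hx]
      exact ratio_zero hAc hXc
    · intro X' hX' hc
      split_ifs with hxX'
      · rw [Ex_congr_fix hS (G := fun _ => 0), Ex_const]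
        intro σ hσ
        apply ind_false
        intro h
        have := h x hxX'
        rw [hσ x hx] at this
        exact hxA this
      · have hX'Ω : X' ⊆ Ω := fun z hz => (mem_insert.mp (hX' hz)).resolve_left
          (fun h => hxX' (h ▸ hz))
        rw [hD X' hX'Ω (by omega), hc]
  · intro X hX hXk
    have hXc : X.card ≤ Ω.card + 1 := by
      have := Finset.card_le_card hX
      rwa [Finset.card_insert_of_notMem hx] at this
    rw [key (insert x A) ((A.card.descFactorial X.card : ℝ) / (Ω.card.descFactorial X.card : ℝ))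
      ((A.card.descFactorial (X.card - 1) : ℝ) / (Ω.card.descFactorial (X.card - 1) : ℝ)) X hX ?_]
    · rw [Finset.card_insert_of_notMem hx, Finset.card_insert_of_notMem hxA]
      exact ratio_one hAc hXc
    · intro X' hX' hc
      split_ifs with hxX'
      · have hsub : X'.erase x ⊆ Ω := fun z hz => (mem_insert.mp
          (hX' (mem_of_mem_erase hz))).resolve_left (ne_of_mem_erase hz)
        have hcard : (X'.erase x).card = X.card - 1 := by
          rw [Finset.card_erase_of_mem hxX', hc]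
        rw [← hcard, ← hD (X'.erase x) hsub (by omega)]
        refine Ex_congr_fix hS ?_
        intro σ hσ
        apply ind_congr
        constructor
        · intro h z hz
          have h1 := h z (mem_of_mem_erase hz)
          refine (mem_insert.mp h1).resolve_left ?_
          intro h2
          have : σ z = σ x := by rw [h2, hσ x hx]
          exact (ne_of_mem_erase hz) (σ.injective this)
        · intro h z hz
          by_cases hzx : z = x
          · rw [hzx, hσ x hx]; exact mem_insert_self _ _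
          · exact mem_insert_of_mem (h z (mem_erase.mpr ⟨hzx, hz⟩))
      · have hX'Ω : X' ⊆ Ω := fun z hz => (mem_insert.mp (hX' hz)).resolve_left
          (fun h => hxX' (h ▸ hz))
        rw [← hc, ← hD X' hX'Ω (by omega)]
        refine Ex_congr_fix hS ?_
        intro σ hσ
        apply ind_congr
        constructor
        · intro h z hz
          refine (mem_insert.mp (h z hz)).resolve_left ?_
          intro h2
          have h3 : σ z ∈ Ω := hσ.mem.mpr (hX'Ω hz)
          rw [h2] at h3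
          exact hx h3
        · intro h z hz
          exact mem_insert_of_mem (h z hz)

/-! ### Lower-degree functions -/

lemma lower_rep (m : ℕ) (G : ℕ → ℝ)
    (hG : ∑ i ∈ range (m + 2), (-1 : ℝ) ^ i * ((m + 1).choose i : ℝ) * G i = 0) :
    ∃ h : ℕ → ℝ, ∀ i ≤ m + 1, G i = (i : ℝ) * h (i - 1) + (((m + 1 : ℕ) : ℝ) - i) * h i := by
  let S : ℕ → ℝ := fun i => ∑ j ∈ range (i + 1), (-1 : ℝ) ^ j * ((m + 1).choose j : ℝ) * G j
  have hS : ∀ i, S (i + 1) = S i + (-1 : ℝ) ^ (i + 1) * ((m + 1).choose (i + 1) : ℝ) * G (i + 1) := by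
    intro i
    simp only [S]
    rw [Finset.sum_range_succ]
  have hsq : ∀ i : ℕ, ((-1 : ℝ) ^ i) * ((-1 : ℝ) ^ i) = 1 := by
    intro i
    rw [← mul_pow]; norm_num
  refine ⟨fun i => (-1 : ℝ) ^ i * S i / (((m + 1 : ℕ) : ℝ) * (m.choose i : ℝ)), ?_⟩
  intro i hi
  have hm1 : (((m + 1 : ℕ) : ℝ)) ≠ 0 := by positivity
  rcases i with _ | i
  · simp only [S, Nat.cast_zero, zero_mul, zero_add, sub_zero, Nat.choose_zero_right,
      Nat.cast_one, mul_one, pow_zero, one_mul, Finset.sum_range_one]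
    field_simp
  · have hc1 : ((m.choose i : ℕ) : ℝ) ≠ 0 := by
      have := Nat.choose_pos (show i ≤ m by omega)
      positivity
    have hc2 : (((m + 1).choose (i + 1) : ℕ) : ℝ) ≠ 0 := by
      have := Nat.choose_pos (show i + 1 ≤ m + 1 by omega)
      positivity
    have e1 : (((m + 1 : ℕ) : ℝ)) * (m.choose i : ℝ) =
        ((m + 1).choose (i + 1) : ℝ) * ((i + 1 : ℕ) : ℝ) := by
      exact_mod_cast Nat.add_one_mul_choose_eq m i
    have hi1 : ((i + 1 : ℕ) : ℝ) ≠ 0 := by positivity
    simp only [Nat.add_sub_cancel]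
    have h1 : ((i + 1 : ℕ) : ℝ) * ((-1 : ℝ) ^ i * S i / (((m + 1 : ℕ) : ℝ) * (m.choose i : ℝ))) =
        (-1 : ℝ) ^ i * S i / ((m + 1).choose (i + 1) : ℝ) := by
      rw [e1]
      field_simp
    rw [h1]
    rcases Nat.lt_or_ge i m with him | him
    · have hc3 : ((m.choose (i + 1) : ℕ) : ℝ) ≠ 0 := by
        have := Nat.choose_pos (show i + 1 ≤ m by omega)
        positivity
      have e2 : (m.choose (i + 1) : ℝ) * (((m + 1 : ℕ) : ℝ)) =
          ((m + 1).choose (i + 1) : ℝ) * ((((m + 1 : ℕ) : ℝ)) - ((i + 1 : ℕ) : ℝ)) := by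
        have h3 := Nat.choose_mul_succ_eq m (i + 1)
        have h4 : ((m.choose (i + 1) * (m + 1) : ℕ) : ℝ) =
            (((m + 1).choose (i + 1) * (m + 1 - (i + 1)) : ℕ) : ℝ) := by exact_mod_cast h3
        rw [Nat.cast_mul, Nat.cast_mul, Nat.cast_sub (show i + 1 ≤ m + 1 by omega)] at h4
        exact h4
      have h5 : ((((m + 1 : ℕ) : ℝ)) - ((i + 1 : ℕ) : ℝ)) *
          ((-1 : ℝ) ^ (i + 1) * S (i + 1) / (((m + 1 : ℕ) : ℝ) * (m.choose (i + 1) : ℝ))) =
          (-1 : ℝ) ^ (i + 1) * S (i + 1) / ((m + 1).choose (i + 1) : ℝ) := by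
        rw [mul_div_assoc', div_eq_div_iff (mul_ne_zero hm1 hc3) hc2]
        linear_combination (-(-1 : ℝ) ^ (i + 1) * S (i + 1)) * e2
      rw [h5, hS i]
      field_simp
      have := hsq i
      ring_nf
      ring_nf at this
      rw [this]
      ring
    · have him' : i = m := by omega
      subst him'
      have h0 : S (i + 1) = 0 := hG
      rw [hS i] at h0
      simp only [Nat.choose_self, Nat.cast_one, mul_one] at h0 ⊢
      have h6 : S i = -((-1 : ℝ) ^ (i + 1) * G (i + 1)) := by linarith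
      rw [h6]
      have := hsq i
      simp only [sub_self, zero_mul, add_zero, div_one]
      ring_nf
      ring_nf at this
      rw [this]
      ring

/-! ### The sign change -/

/-- The alternating functional evaluated at the sizes `(s, t)`. -/
noncomputable def psi (k n1 N s t : ℕ) : ℝ :=
  ∑ i ∈ range (k + 1), (-1 : ℝ) ^ i * (k.choose i : ℝ) *
    (((s.descFactorial i : ℝ) / (n1.descFactorial i : ℝ)) *
      ((t.descFactorial (k - i) : ℝ) / (N.descFactorial (k - i) : ℝ)))

open Polynomial in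
lemma coeff_lemma {n i : ℕ} (s : ℕ) (hi : i ≤ n) :
    ((X ^ i * (1 + X) ^ (n - i) : ℝ[X]).coeff s) =
      (n.choose s : ℝ) * ((s.descFactorial i : ℝ) / (n.descFactorial i : ℝ)) := by
  rw [coeff_X_pow_mul']
  split_ifs with h
  · rw [coeff_one_add_X_pow]
    have hpos : ((n.descFactorial i : ℕ) : ℝ) ≠ 0 := by
      have : 0 < n.descFactorial i := Nat.descFactorial_pos.mpr hi
      positivity
    rw [mul_div_assoc', eq_div_iff hpos]
    rcases Nat.lt_or_ge n s with hns | hns
    · rw [Nat.choose_eq_zero_of_lt hns, Nat.choose_eq_zero_of_lt (show n - i < s - i by omega)]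
      simp
    · have h1 := Nat.choose_mul (n := n) h
      rw [Nat.descFactorial_eq_factorial_mul_choose, Nat.descFactorial_eq_factorial_mul_choose]
      have h2 : ((n.choose s * s.choose i : ℕ) : ℝ) = ((n.choose i * (n - i).choose (s - i) : ℕ) : ℝ) := by
        exact_mod_cast h1
      push_cast at h2 ⊢
      linear_combination (-(i.factorial : ℝ)) * h2
  · rw [Nat.descFactorial_eq_zero_iff_lt.mpr (by omega : s < i)]
    simp

open Polynomial in
lemma wsum {k n1 N : ℕ} (a : ℕ) (hk : 1 ≤ k) (h1 : k ≤ n1) (h2 : k ≤ N) :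
    ∑ p ∈ antidiagonal a, ((n1.choose p.1 : ℝ) * (N.choose p.2 : ℝ)) * psi k n1 N p.1 p.2 = 0 := by
  have hexp : ∀ p : ℕ × ℕ, ((n1.choose p.1 : ℝ) * (N.choose p.2 : ℝ)) * psi k n1 N p.1 p.2 =
      ∑ i ∈ range (k + 1), (-1 : ℝ) ^ i * (k.choose i : ℝ) *
        ((X ^ i * (1 + X) ^ (n1 - i) : ℝ[X]).coeff p.1 *
          (X ^ (k - i) * (1 + X) ^ (N - (k - i)) : ℝ[X]).coeff p.2) := by
    intro p
    unfold psi
    rw [Finset.mul_sum]
    refine Finset.sum_congr rfl fun i hi => ?_
    have hik : i ≤ k := by have := Finset.mem_range.mp hi; omega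
    rw [coeff_lemma p.1 (by omega : i ≤ n1), coeff_lemma p.2 (by omega : k - i ≤ N)]
    ring
  rw [Finset.sum_congr rfl (fun p _ => hexp p), Finset.sum_comm]
  have hin : ∀ i ∈ range (k + 1), ∑ p ∈ antidiagonal a, (-1 : ℝ) ^ i * (k.choose i : ℝ) *
        ((X ^ i * (1 + X) ^ (n1 - i) : ℝ[X]).coeff p.1 *
          (X ^ (k - i) * (1 + X) ^ (N - (k - i)) : ℝ[X]).coeff p.2) =
      ((-1 : ℝ) ^ i * (k.choose i : ℝ)) * (X ^ k * (1 + X) ^ (n1 + N - k) : ℝ[X]).coeff a := by
    intro i hi
    have hik : i ≤ k := by have := Finset.mem_range.mp hi; omega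
    rw [← Finset.mul_sum, ← coeff_mul]
    congr 2
    calc (X ^ i * (1 + X) ^ (n1 - i) * (X ^ (k - i) * (1 + X) ^ (N - (k - i))) : ℝ[X])
        = (X ^ i * X ^ (k - i)) * ((1 + X) ^ (n1 - i) * (1 + X) ^ (N - (k - i))) := by ring
      _ = X ^ k * (1 + X) ^ (n1 + N - k) := by
        rw [← pow_add, ← pow_add, show i + (k - i) = k by omega,
          show n1 - i + (N - (k - i)) = n1 + N - k by omega]
  rw [Finset.sum_congr rfl hin, ← Finset.sum_mul]
  have halt : ∑ i ∈ range (k + 1), ((-1 : ℝ) ^ i * (k.choose i : ℝ)) = 0 := by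
    have := Int.alternating_sum_range_choose_of_ne (show k ≠ 0 by omega)
    exact_mod_cast this
  rw [halt, zero_mul]

lemma sign_change {k n1 N a : ℕ} (hk : 1 ≤ k) (h1 : k ≤ n1) (h2 : k ≤ N) (ha : a ≤ n1 + N) :
    ∃ s t : ℕ, s + t = a ∧ s ≤ n1 ∧ t ≤ N ∧
      (psi k n1 N s t = 0 ∨
        (1 ≤ s ∧ t + 1 ≤ N ∧ psi k n1 N s t * psi k n1 N (s - 1) (t + 1) < 0)) := by
  by_contra hcon
  push Not at hcon
  have hne : ∀ s t : ℕ, s + t = a → s ≤ n1 → t ≤ N → psi k n1 N s t ≠ 0 :=
    fun s t h3 h4 h5 => (hcon s t h3 h4 h5).1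
  set s0 := a - N with hs0
  have hpos : ∀ d : ℕ, s0 + d ≤ a → s0 + d ≤ n1 →
      0 < psi k n1 N s0 (a - s0) * psi k n1 N (s0 + d) (a - (s0 + d)) := by
    intro d
    induction d with
    | zero =>
      intro h3 h4
      have := hne s0 (a - s0) (by omega) (by omega) (by omega)
      rw [add_zero]
      exact mul_self_pos.mpr this
    | succ d ih =>
      intro h3 h4
      have h5 := ih (by omega) (by omega)
      have h6 := (hcon (s0 + (d + 1)) (a - (s0 + (d + 1))) (by omega) (by omega) (by omega)).2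
        (by omega) (by omega)
      have e1 : s0 + (d + 1) - 1 = s0 + d := by omega
      have e2 : a - (s0 + (d + 1)) + 1 = a - (s0 + d) := by omega
      rw [e1, e2] at h6
      have h7 := hne (s0 + d) (a - (s0 + d)) (by omega) (by omega) (by omega)
      have h8 := hne (s0 + (d + 1)) (a - (s0 + (d + 1))) (by omega) (by omega) (by omega)
      have h9 : 0 < psi k n1 N (s0 + (d + 1)) (a - (s0 + (d + 1))) *
          psi k n1 N (s0 + d) (a - (s0 + d)) :=
        lt_of_le_of_ne h6 (mul_ne_zero h8 h7).symm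
      have h10 : 0 < (psi k n1 N s0 (a - s0) * psi k n1 N (s0 + (d + 1)) (a - (s0 + (d + 1)))) *
          (psi k n1 N (s0 + d) (a - (s0 + d)) * psi k n1 N (s0 + d) (a - (s0 + d))) := by
        have := mul_pos h5 h9
        nlinarith
      exact (pos_iff_pos_of_mul_pos h10).mpr (mul_self_pos.mpr h7)
  have hw := wsum a hk h1 h2
  have hpsum : 0 < ∑ p ∈ antidiagonal a, ((n1.choose p.1 : ℝ) * (N.choose p.2 : ℝ)) *
      (psi k n1 N s0 (a - s0) * psi k n1 N p.1 p.2) := by
    refine Finset.sum_pos' ?_ ⟨(s0, a - s0), ?_, ?_⟩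
    · rintro ⟨s, t⟩ hp
      rw [HasAntidiagonal.mem_antidiagonal] at hp
      simp only at hp ⊢
      rcases Nat.lt_or_ge n1 s with h3 | h3
      · rw [Nat.choose_eq_zero_of_lt h3]; simp
      rcases Nat.lt_or_ge N t with h4 | h4
      · rw [Nat.choose_eq_zero_of_lt h4]; simp
      have h5 := hpos (s - s0) (by omega) (by omega)
      have e1 : s0 + (s - s0) = s := by omega
      have e2 : a - s = t := by omega
      rw [e1, e2] at h5
      positivity
    · rw [HasAntidiagonal.mem_antidiagonal]; simp only; omega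
    · simp only
      have h5 := hpos 0 (by omega) (by omega)
      rw [add_zero] at h5
      have c1 := Nat.choose_pos (show s0 ≤ n1 by omega)
      have c2 := Nat.choose_pos (show a - s0 ≤ N by omega)
      positivity
  have hzero : ∑ p ∈ antidiagonal a, ((n1.choose p.1 : ℝ) * (N.choose p.2 : ℝ)) *
      (psi k n1 N s0 (a - s0) * psi k n1 N p.1 p.2) = 0 := by
    calc _ = psi k n1 N s0 (a - s0) * ∑ p ∈ antidiagonal a,
          ((n1.choose p.1 : ℝ) * (N.choose p.2 : ℝ)) * psi k n1 N p.1 p.2 := by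
          rw [Finset.mul_sum]
          refine Finset.sum_congr rfl fun p _ => ?_
          ring
      _ = 0 := by rw [hw, mul_zero]
  linarith

/-! ### Combining -/

lemma sum_erase_eq {m : ℕ} {Y Ap : Finset α} (hY : Y.card = m + 1) (h : ℕ → ℝ) :
    ∑ z ∈ Y, h ((Y.erase z) ∩ Ap).card =
      ((Y ∩ Ap).card : ℝ) * h ((Y ∩ Ap).card - 1) +
        (((m + 1 : ℕ) : ℝ) - ((Y ∩ Ap).card : ℝ)) * h (Y ∩ Ap).card := by
  have h1 : ∀ z ∈ Y, h ((Y.erase z) ∩ Ap).card =
      if z ∈ Ap then h ((Y ∩ Ap).card - 1) else h (Y ∩ Ap).card := by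
    intro z hz
    rw [Finset.erase_inter]
    split_ifs with hzA
    · rw [Finset.card_erase_of_mem (mem_inter.mpr ⟨hz, hzA⟩)]
    · rw [Finset.erase_eq_of_notMem (fun h => hzA (mem_inter.mp h).2)]
  rw [Finset.sum_congr rfl h1, Finset.sum_ite, Finset.sum_const, Finset.sum_const]
  have h2 : Y.filter (fun z => z ∈ Ap) = Y ∩ Ap := by
    ext z; simp [mem_filter, mem_inter]
  have h3 := Finset.card_filter_add_card_filter_not (s := Y) (fun z => z ∈ Ap)
  rw [h2, hY] at h3
  have h4 : ((Y.filter (fun z => z ∉ Ap)).card : ℝ) = ((m + 1 : ℕ) : ℝ) - ((Y ∩ Ap).card : ℝ) := by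
    rw [← h3]; push_cast; ring
  rw [h2, nsmul_eq_mul, nsmul_eq_mul, h4]

lemma des_of_lower {m : ℕ} {Ω A Ap : Finset α} {l0 τ : List (RawLT α)} (hS0 : Supp Ω l0)
    (hSτ : Supp Ω τ) (hA : A ⊆ Ω) (G : ℕ → ℝ)
    (hG : ∑ i ∈ range (m + 2), (-1 : ℝ) ^ i * ((m + 1).choose i : ℝ) * G i = 0)
    (hg : ∀ Y ⊆ Ω, Y.card = m + 1 →
      Ex l0 (fun σ => ind (∀ z ∈ Y, σ z ∈ A)) = G (Y ∩ Ap).card)
    (hτ : Inv m Ω τ) : Des (m + 1) Ω A (l0 ++ τ) := by
  intro X hX hXk
  refine const_value (hS0.append hSτ) hA (Finset.card_le_card hX) ?_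
  intro X' hX' hc
  -- reformulate the expectation
  have hre : ∀ W : Finset α, Ex (l0 ++ τ) (fun σ => ind (∀ z ∈ W, σ z ∈ A)) =
      Ex l0 (fun σ₀ => Ex τ (fun σ => (fun Y : Finset α => ind (∀ w ∈ Y, σ₀ w ∈ A)) (W.image σ))) := by
    intro W
    rw [Ex_append]
    congr 1
    funext σ₀
    congr 1
    funext σ
    apply ind_congr
    rw [Finset.forall_mem_image]
    rfl
  rcases Nat.lt_or_ge X.card (m + 1) with hlt | hge
  · obtain ⟨π, hπ, hπX⟩ := exists_perm hX hX' hc.symm
    rw [hre, hre]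
    congr 1
    funext σ₀
    have := hτ.finset (fun Y : Finset α => ind (∀ w ∈ Y, σ₀ w ∈ A)) (X := X) (by omega) hπ
    rw [hπX] at this
    exact this
  · have hXm : X.card = m + 1 := by omega
    obtain ⟨h, hh⟩ := lower_rep m G hG
    have hval : ∀ W ⊆ Ω, W.card = m + 1 →
        Ex (l0 ++ τ) (fun σ => ind (∀ z ∈ W, σ z ∈ A)) =
          ∑ z ∈ W, Ex τ (fun σ => h (((W.erase z).image σ) ∩ Ap).card) := by
      intro W hW hWm
      rw [hre, Ex_comm, ← Ex_sum]
      refine Ex_congr_fix hSτ ?_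
      intro σ hσ
      have hWσ : W.image σ ⊆ Ω := by
        intro z hz
        obtain ⟨w, hw, rfl⟩ := mem_image.mp hz
        exact hσ.mem.mpr (hW hw)
      have hcard : (W.image σ).card = m + 1 := by
        rw [Finset.card_image_of_injective _ (Equiv.injective _), hWm]
      rw [hg (W.image σ) hWσ hcard]
      have hle : ((W.image σ) ∩ Ap).card ≤ m + 1 := by
        rw [← hcard]; exact Finset.card_le_card Finset.inter_subset_left
      rw [hh _ hle, ← sum_erase_eq hcard h, Finset.sum_image (fun a _ b _ hab => σ.injective hab)]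
      refine Finset.sum_congr rfl fun z hz => ?_
      rw [Finset.image_erase σ.injective]
    have hconst : ∀ Z Z' : Finset α, Z ⊆ Ω → Z' ⊆ Ω → Z.card = m → Z'.card = m →
        Ex τ (fun σ => h ((Z.image σ) ∩ Ap).card) = Ex τ (fun σ => h ((Z'.image σ) ∩ Ap).card) := by
      intro Z Z' hZ hZ' hc1 hc2
      obtain ⟨π, hπ, hπZ⟩ := exists_perm hZ hZ' (hc1.trans hc2.symm)
      have := hτ.finset (fun Y : Finset α => h (Y ∩ Ap).card) (X := Z) (by omega) hπ
      rw [hπZ] at this
      exact this.symm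
    obtain ⟨z0, hz0⟩ : X.Nonempty := Finset.card_pos.mp (by omega)
    have hsum : ∀ W ⊆ Ω, W.card = m + 1 →
        Ex (l0 ++ τ) (fun σ => ind (∀ z ∈ W, σ z ∈ A)) =
          ((m + 1 : ℕ) : ℝ) * Ex τ (fun σ => h (((X.erase z0).image σ) ∩ Ap).card) := by
      intro W hW hWm
      rw [hval W hW hWm, ← hWm, ← nsmul_eq_mul, ← Finset.sum_const]
      refine Finset.sum_congr rfl fun z hz => ?_
      exact hconst _ _ ((Finset.erase_subset _ _).trans hW) ((Finset.erase_subset _ _).trans hX)
        (by rw [Finset.card_erase_of_mem hz]; omega) (by rw [Finset.card_erase_of_mem hz0]; omega)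
    rw [hsum X' hX' (by omega), hsum X hX hXm]

lemma Ex_split {Ap Bp S Y : Finset α} {l1 l2 : List (RawLT α)} (hdisj : Disjoint Ap Bp)
    (h1 : Supp Ap l1) (h2 : Supp Bp l2) (hY : Y ⊆ Ap ∪ Bp) :
    Ex (l1 ++ l2) (fun σ => ind (∀ z ∈ Y, σ z ∈ S)) =
      Ex l1 (fun σ => ind (∀ z ∈ Y ∩ Ap, σ z ∈ S ∩ Ap)) *
        Ex l2 (fun σ => ind (∀ z ∈ Y ∩ Bp, σ z ∈ S ∩ Bp)) := by
  rw [Ex_append, ← Ex_mul_right]
  refine Ex_congr_fix h1 ?_
  intro σ₁ hσ₁
  rw [← Ex_smul]
  refine Ex_congr_fix h2 ?_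
  intro σ₂ hσ₂
  rw [← ind_and]
  apply ind_congr
  have hA : ∀ z ∈ Ap, (σ₁ * σ₂) z = σ₁ z ∧ σ₁ z ∈ Ap := by
    intro z hz
    refine ⟨?_, hσ₁.mem.mpr hz⟩
    rw [Perm.mul_apply, hσ₂ z (Finset.disjoint_left.mp hdisj hz)]
  have hB : ∀ z ∈ Bp, (σ₁ * σ₂) z = σ₂ z ∧ σ₂ z ∈ Bp := by
    intro z hz
    have h3 : σ₂ z ∈ Bp := hσ₂.mem.mpr hz
    refine ⟨?_, h3⟩
    rw [Perm.mul_apply, hσ₁ (σ₂ z) (Finset.disjoint_right.mp hdisj h3)]
  constructor
  · intro h
    constructor
    · intro z hz
      rw [mem_inter] at hz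
      have := h z hz.1
      rw [(hA z hz.2).1] at this
      exact mem_inter.mpr ⟨this, (hA z hz.2).2⟩
    · intro z hz
      rw [mem_inter] at hz
      have := h z hz.1
      rw [(hB z hz.2).1] at this
      exact mem_inter.mpr ⟨this, (hB z hz.2).2⟩
  · rintro ⟨h3, h4⟩ z hz
    rcases mem_union.mp (hY hz) with h5 | h5
    · rw [(hA z h5).1]
      exact (mem_inter.mp (h3 z (mem_inter.mpr ⟨hz, h5⟩))).1
    · rw [(hB z h5).1]
      exact (mem_inter.mp (h4 z (mem_inter.mpr ⟨hz, h5⟩))).1

/-- Probability that `Y` lands in `S` when both halves are designs. -/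
lemma Ex_two_designs {m : ℕ} {Ap Bp S Y : Finset α} {l1 l2 : List (RawLT α)}
    (hdisj : Disjoint Ap Bp) (h1 : Supp Ap l1) (h2 : Supp Bp l2)
    (hd1 : Des (m + 1) Ap (S ∩ Ap) l1) (hd2 : Des (m + 1) Bp (S ∩ Bp) l2)
    (hY : Y ⊆ Ap ∪ Bp) (hYc : Y.card = m + 1) :
    Ex (l1 ++ l2) (fun σ => ind (∀ z ∈ Y, σ z ∈ S)) =
      (((S ∩ Ap).card.descFactorial (Y ∩ Ap).card : ℝ) /
        (Ap.card.descFactorial (Y ∩ Ap).card : ℝ)) *
      (((S ∩ Bp).card.descFactorial (m + 1 - (Y ∩ Ap).card) : ℝ) /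
        (Bp.card.descFactorial (m + 1 - (Y ∩ Ap).card) : ℝ)) := by
  have hc : (Y ∩ Ap).card + (Y ∩ Bp).card = m + 1 := by
    rw [← hYc, ← Finset.card_union_of_disjoint]
    · congr 1
      rw [← Finset.inter_union_distrib_left, Finset.inter_eq_left.mpr hY]
    · exact Finset.disjoint_of_subset_left Finset.inter_subset_right
        (Finset.disjoint_of_subset_right Finset.inter_subset_right hdisj)
  have hB : (Y ∩ Bp).card = m + 1 - (Y ∩ Ap).card := by omega
  rw [Ex_split hdisj h1 h2 hY, hd1 (Y ∩ Ap) Finset.inter_subset_right (by omega),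
    hd2 (Y ∩ Bp) Finset.inter_subset_right (by omega), hB]

/-- One step of the design recursion, when the alternating functional vanishes. -/
lemma des_step_zero {m : ℕ} {Ω A Ap Bp : Finset α} {l1 l2 τ : List (RawLT α)} (hA : A ⊆ Ω)
    (hdisj : Disjoint Ap Bp) (hU : Ap ∪ Bp = Ω) (h1 : Supp Ap l1) (h2 : Supp Bp l2)
    (hτS : Supp Ω τ) (hd1 : Des (m + 1) Ap (A ∩ Ap) l1) (hd2 : Des (m + 1) Bp (A ∩ Bp) l2)
    (hτ : Inv m Ω τ)
    (hpsi : psi (m + 1) Ap.card Bp.card (A ∩ Ap).card (A ∩ Bp).card = 0) :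
    Des (m + 1) Ω A ((l1 ++ l2) ++ τ) := by
  have hAp : Ap ⊆ Ω := hU ▸ Finset.subset_union_left
  have hBp : Bp ⊆ Ω := hU ▸ Finset.subset_union_right
  refine des_of_lower (Ap := Ap) ((h1.mono hAp).append (h2.mono hBp)) hτS hA
    (fun i => (((A ∩ Ap).card.descFactorial i : ℝ) / (Ap.card.descFactorial i : ℝ)) *
      (((A ∩ Bp).card.descFactorial (m + 1 - i) : ℝ) / (Bp.card.descFactorial (m + 1 - i) : ℝ)))
    hpsi ?_ hτ
  intro Y hY hYc
  exact Ex_two_designs hdisj h1 h2 hd1 hd2 (by rw [hU]; exact hY) hYc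

/-- One step of the design recursion, with one lazy transposition. -/
lemma des_step_change {m : ℕ} {Ω A Ap Bp : Finset α} {l1 l2 τ : List (RawLT α)} {x y : α} {p : ℝ}
    (hA : A ⊆ Ω) (hdisj : Disjoint Ap Bp) (hU : Ap ∪ Bp = Ω) (h1 : Supp Ap l1)
    (h2 : Supp Bp l2) (hτS : Supp Ω τ) (hxA : x ∈ A) (hxAp : x ∈ Ap) (hyA : y ∉ A)
    (hyBp : y ∈ Bp) (hd1 : Des (m + 1) Ap (A ∩ Ap) l1)
    (hd1' : Des (m + 1) Ap ((A ∩ Ap).erase x) l1)
    (hd2 : Des (m + 1) Bp (A ∩ Bp) l2) (hd2' : Des (m + 1) Bp (insert y (A ∩ Bp)) l2)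
    (hτ : Inv m Ω τ)
    (hpsi : (1 - p) * psi (m + 1) Ap.card Bp.card (A ∩ Ap).card (A ∩ Bp).card +
      p * psi (m + 1) Ap.card Bp.card ((A ∩ Ap).card - 1) ((A ∩ Bp).card + 1) = 0) :
    Des (m + 1) Ω A ((⟨x, y, p⟩ :: (l1 ++ l2)) ++ τ) := by
  have hAp : Ap ⊆ Ω := hU ▸ Finset.subset_union_left
  have hBp : Bp ⊆ Ω := hU ▸ Finset.subset_union_right
  have hxBp : x ∉ Bp := Finset.disjoint_left.mp hdisj hxAp
  have hyAp : y ∉ Ap := Finset.disjoint_right.mp hdisj hyBp
  have hxy : x ≠ y := fun h => hyA (h ▸ hxA)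
  have hS0 : Supp Ω (⟨x, y, p⟩ :: (l1 ++ l2)) := by
    intro t ht
    rcases List.mem_cons.mp ht with rfl | ht
    · exact ⟨hAp hxAp, hBp hyBp⟩
    · exact ((h1.mono hAp).append (h2.mono hBp)) t ht
  -- the set after the swap
  set A1 := insert y (A.erase x) with hA1
  have hmemA1 : ∀ w, Equiv.swap x y w ∈ A ↔ w ∈ A1 := by
    intro w
    by_cases hwx : w = x
    · subst hwx
      rw [Equiv.swap_apply_left]
      simp [hA1, hyA, hxy]
    · by_cases hwy : w = y
      · subst hwy
        rw [Equiv.swap_apply_right]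
        simp [hA1, hxA]
      · rw [Equiv.swap_apply_of_ne_of_ne hwx hwy]
        simp [hA1, hwx, hwy]
  have hA1Ap : A1 ∩ Ap = (A ∩ Ap).erase x := by
    ext w
    simp only [hA1, mem_inter, mem_insert, mem_erase]
    constructor
    · rintro ⟨rfl | ⟨h3, h4⟩, h5⟩
      · exact absurd h5 hyAp
      · exact ⟨h3, h4, h5⟩
    · rintro ⟨h3, h4, h5⟩
      exact ⟨Or.inr ⟨h3, h4⟩, h5⟩
  have hA1Bp : A1 ∩ Bp = insert y (A ∩ Bp) := by
    ext w
    simp only [hA1, mem_inter, mem_insert, mem_erase]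
    constructor
    · rintro ⟨rfl | ⟨h3, h4⟩, h5⟩
      · exact Or.inl rfl
      · exact Or.inr ⟨h4, h5⟩
    · rintro (rfl | ⟨h4, h5⟩)
      · exact ⟨Or.inl rfl, hyBp⟩
      · exact ⟨Or.inr ⟨fun h => hxBp (h ▸ h5), h4⟩, h5⟩
  have hcard1 : (A1 ∩ Ap).card = (A ∩ Ap).card - 1 := by
    rw [hA1Ap, Finset.card_erase_of_mem (mem_inter.mpr ⟨hxA, hxAp⟩)]
  have hcard2 : (A1 ∩ Bp).card = (A ∩ Bp).card + 1 := by
    rw [hA1Bp, Finset.card_insert_of_notMem (fun h => hyA (mem_inter.mp h).1)]
  refine des_of_lower (Ap := Ap) hS0 hτS hA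
    (fun i => (1 - p) * ((((A ∩ Ap).card.descFactorial i : ℝ) / (Ap.card.descFactorial i : ℝ)) *
      (((A ∩ Bp).card.descFactorial (m + 1 - i) : ℝ) / (Bp.card.descFactorial (m + 1 - i) : ℝ))) +
      p * (((((A ∩ Ap).card - 1).descFactorial i : ℝ) / (Ap.card.descFactorial i : ℝ)) *
      ((((A ∩ Bp).card + 1).descFactorial (m + 1 - i) : ℝ) /
        (Bp.card.descFactorial (m + 1 - i) : ℝ))))
    ?_ ?_ hτ
  · rw [← hpsi]
    unfold psi
    rw [Finset.mul_sum, Finset.mul_sum, ← Finset.sum_add_distrib]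
    refine Finset.sum_congr rfl fun i _ => ?_
    ring
  · intro Y hY hYc
    have hYU : Y ⊆ Ap ∪ Bp := by rw [hU]; exact hY
    have e1 := Ex_two_designs (S := A) hdisj h1 h2 hd1 hd2 hYU hYc
    have e2 := Ex_two_designs (S := A1) hdisj h1 h2 (by rw [hA1Ap]; exact hd1')
      (by rw [hA1Bp]; exact hd2') hYU hYc
    rw [hcard1, hcard2] at e2
    show (1 - p) * Ex (l1 ++ l2) (fun σ => ind (∀ z ∈ Y, σ z ∈ A)) +
      p * Ex (l1 ++ l2) (fun σ => ind (∀ z ∈ Y, (Equiv.swap x y * σ) z ∈ A)) = _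
    have e3 : (fun σ : Perm α => ind (∀ z ∈ Y, (Equiv.swap x y * σ) z ∈ A)) =
        fun σ => ind (∀ z ∈ Y, σ z ∈ A1) := by
      funext σ
      apply ind_congr
      constructor
      · intro h z hz
        exact (hmemA1 _).mp (h z hz)
      · intro h z hz
        exact (hmemA1 _).mpr (h z hz)
    rw [e3, e1, e2]

/-! ### From designs to `k`-wise shuffles -/

lemma pattern_prob {k : ℕ} {Ω A Y T : Finset α} {l : List (RawLT α)} (hD : Des k Ω A l)
    (hY : Y ⊆ Ω) (hYk : Y.card ≤ k) (hT : T ⊆ Y) {π : Perm α} (hπ : Fix Ω π) :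
    Ex l (fun σ => ind (∀ u ∈ Y, (σ (π u) ∈ A ↔ u ∈ T))) =
      ∑ K ∈ (Y \ T).powerset, (-1 : ℝ) ^ K.card *
        ((A.card.descFactorial (T.card + K.card) : ℝ) /
          (Ω.card.descFactorial (T.card + K.card) : ℝ)) := by
  have h1 : ∀ σ : Perm α, ind (∀ u ∈ Y, (σ (π u) ∈ A ↔ u ∈ T)) =
      ∑ K ∈ (Y \ T).powerset, (-1 : ℝ) ^ K.card *
        ind (∀ z ∈ (T ∪ K).image π, σ z ∈ A) := by
    intro σ
    have hprodind : ∀ W : Finset α, ind (∀ u ∈ W, σ (π u) ∈ A) = ∏ u ∈ W, ind (σ (π u) ∈ A) := by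
      intro W
      induction W using Finset.induction_on with
      | empty => simp [ind]
      | insert w W hw ih =>
        rw [Finset.prod_insert hw, ← ih, ← ind_and]
        apply ind_congr
        simp only [mem_insert, forall_eq_or_imp]
    have h2 : ind (∀ u ∈ Y, (σ (π u) ∈ A ↔ u ∈ T)) =
        (∏ u ∈ T, ind (σ (π u) ∈ A)) * ∏ u ∈ Y \ T, (1 + -ind (σ (π u) ∈ A)) := by
      rw [← hprodind]
      have h3 : (∏ u ∈ Y \ T, (1 + -ind (σ (π u) ∈ A))) = ind (∀ u ∈ Y \ T, σ (π u) ∉ A) := by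
        induction Y \ T using Finset.induction_on with
        | empty => simp [ind]
        | insert w W hw ih =>
          rw [Finset.prod_insert hw, ih]
          have : (1 + -ind (σ (π w) ∈ A)) = ind (σ (π w) ∉ A) := by
            by_cases h : σ (π w) ∈ A <;> simp [ind, h]
          rw [this, ← ind_and]
          apply ind_congr
          simp only [mem_insert, forall_eq_or_imp]
      rw [h3, ← ind_and]
      apply ind_congr
      constructor
      · intro h
        exact ⟨fun u hu => (h u (hT hu)).mpr hu,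
          fun u hu => fun h4 => (mem_sdiff.mp hu).2 ((h u (mem_sdiff.mp hu).1).mp h4)⟩
      · rintro ⟨h4, h5⟩ u hu
        constructor
        · intro h6
          by_contra h7
          exact h5 u (mem_sdiff.mpr ⟨hu, h7⟩) h6
        · exact h4 u
    rw [h2, Finset.prod_one_add, Finset.mul_sum]
    refine Finset.sum_congr rfl fun K hK => ?_
    have hKd : Disjoint T K := by
      rw [Finset.disjoint_left]
      intro u hu hu'
      exact (mem_sdiff.mp ((mem_powerset.mp hK) hu')).2 hu
    rw [Finset.prod_neg, ← hprodind, ← hprodind]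
    rw [mul_left_comm, ← ind_and]
    congr 1
    apply ind_congr
    rw [Finset.forall_mem_image]
    constructor
    · rintro ⟨h4, h5⟩ u hu
      rcases mem_union.mp hu with h6 | h6
      · exact h4 u h6
      · exact h5 u h6
    · intro h
      exact ⟨fun u hu => h (mem_union_left _ hu), fun u hu => h (mem_union_right _ hu)⟩
  simp only [h1]
  rw [Ex_sum]
  refine Finset.sum_congr rfl fun K hK => ?_
  rw [Ex_smul]
  congr 1
  have hKY : K ⊆ Y := (mem_powerset.mp hK).trans Finset.sdiff_subset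
  have hKd : Disjoint T K := by
    rw [Finset.disjoint_left]
    intro u hu hu'
    exact (mem_sdiff.mp ((mem_powerset.mp hK) hu')).2 hu
  have hTKY : T ∪ K ⊆ Y := Finset.union_subset hT hKY
  have hcard : ((T ∪ K).image π).card = T.card + K.card := by
    rw [Finset.card_image_of_injective _ (Equiv.injective _), Finset.card_union_of_disjoint hKd]
  have hsub : (T ∪ K).image π ⊆ Ω := by
    intro z hz
    obtain ⟨w, hw, rfl⟩ := mem_image.mp hz
    exact hπ.mem.mpr (hY (hTKY hw))
  have hle : ((T ∪ K).image π).card ≤ k := by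
    rw [Finset.card_image_of_injective _ (Equiv.injective _)]
    exact (Finset.card_le_card hTKY).trans hYk
  rw [hD _ hsub hle, hcard]

/-- The `k`-wise shuffles of the two halves after a design list give a `k`-wise shuffle. -/
lemma inv_step {k : ℕ} {Ω A : Finset α} {lA lB lD : List (RawLT α)}
    (hSA : Supp A lA) (hIA : Inv k A lA) (hSB : Supp (Ω \ A) lB) (hIB : Inv k (Ω \ A) lB)
    (hSD : Supp Ω lD) (hD : Des k Ω A lD) : Inv k Ω ((lA ++ lB) ++ lD) := by
  intro y π hπ Φ
  -- the averaged function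
  set Ψ : (Fin k → α) → ℝ := fun z => Ex (lA ++ lB) (fun σ => Φ (fun i => σ (z i))) with hΨ
  have hcomm : ∀ {σ₁ σ₂ : Perm α}, Fix A σ₁ → Fix (Ω \ A) σ₂ → ∀ z, σ₂ (σ₁ z) = σ₁ (σ₂ z) := by
    intro σ₁ σ₂ h₁ h₂ z
    by_cases hzA : z ∈ A
    · have h3 : σ₁ z ∈ A := h₁.mem.mpr hzA
      rw [h₂ (σ₁ z) (fun h => (mem_sdiff.mp h).2 h3), h₂ z (fun h => (mem_sdiff.mp h).2 hzA)]
    · rw [h₁ z hzA]
      by_cases hzB : z ∈ Ω \ A
      · have h3 : σ₂ z ∈ Ω \ A := h₂.mem.mpr hzB
        rw [h₁ (σ₂ z) (mem_sdiff.mp h3).2]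
      · rw [h₂ z hzB, h₁ z hzA]
  have hΨA : ∀ (ρ : Perm α), Fix A ρ → ∀ z : Fin k → α, Ψ (fun i => ρ (z i)) = Ψ z := by
    intro ρ hρ z
    simp only [hΨ]
    rw [Ex_append, Ex_append, Ex_comm, Ex_comm lA lB]
    refine Ex_congr_fix hSB ?_
    intro σ₂ hσ₂
    have := hIA (fun i => σ₂ (z i)) ρ hρ Φ
    simp only [Perm.mul_apply]
    rw [← this]
    congr 1
    funext σ₁
    congr 1
    funext i
    rw [hcomm hρ hσ₂]
  have hΨB : ∀ (ρ : Perm α), Fix (Ω \ A) ρ → ∀ z : Fin k → α, Ψ (fun i => ρ (z i)) = Ψ z := by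
    intro ρ hρ z
    simp only [hΨ]
    rw [Ex_append, Ex_append]
    refine Ex_congr_fix hSA ?_
    intro σ₁ hσ₁
    exact hIB z ρ hρ (fun w => Φ (fun i => σ₁ (w i)))
  have hfixmem : ∀ {ρ : Perm α}, Fix (Ω \ A) ρ → ∀ w, ρ w ∈ A ↔ w ∈ A := by
    intro ρ hρ w
    constructor
    · intro h
      by_contra hw
      by_cases hwΩ : w ∈ Ω \ A
      · exact (mem_sdiff.mp (hρ.mem.mpr hwΩ)).2 h
      · rw [hρ w hwΩ] at h; exact hw h
    · intro h
      rw [hρ w (fun h' => (mem_sdiff.mp h').2 h)]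
      exact h
  -- pattern lemma
  have hpat : ∀ (n : ℕ) (σ σ' : Perm α), Fix Ω σ → Fix Ω σ' →
      (∀ u ∈ (Finset.univ : Finset (Fin k)).image y, u ∈ Ω → (σ u ∈ A ↔ σ' u ∈ A)) →
      (((Finset.univ : Finset (Fin k)).image y).filter (fun u => σ u ≠ σ' u)).card ≤ n →
      Ψ (fun i => σ (y i)) = Ψ (fun i => σ' (y i)) := by
    have hbase : ∀ (σ σ' : Perm α),
        ¬ (((Finset.univ : Finset (Fin k)).image y).filter (fun u => σ u ≠ σ' u)).Nonempty →
        Ψ (fun i => σ (y i)) = Ψ (fun i => σ' (y i)) := by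
      intro σ σ' hne
      rw [Finset.not_nonempty_iff_eq_empty, Finset.filter_eq_empty_iff] at hne
      congr 1
      funext i
      have := hne (mem_image_of_mem y (mem_univ i))
      simpa using this
    intro n
    induction n with
    | zero =>
      intro σ σ' _ _ _ hcard
      apply hbase
      intro h
      have := Finset.card_pos.mpr h
      omega
    | succ n ih =>
      intro σ σ' hσ hσ' hp hcard
      by_cases hne : (((Finset.univ : Finset (Fin k)).image y).filter
        (fun u => σ u ≠ σ' u)).Nonempty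
      swap
      · exact hbase σ σ' hne
      obtain ⟨u, hu⟩ := hne
      have hu' := mem_filter.mp hu
      have huΩ : u ∈ Ω := by
        by_contra h
        exact hu'.2 (by rw [hσ u h, hσ' u h])
      have hpu : σ u ∈ A ↔ σ' u ∈ A := hp u hu'.1 huΩ
      have hσuΩ : σ u ∈ Ω := hσ.mem.mpr huΩ
      have hσ'uΩ : σ' u ∈ Ω := hσ'.mem.mpr huΩ
      set τ := Equiv.swap (σ u) (σ' u) with hτ
      have hτprop : (∀ z : Fin k → α, Ψ (fun i => τ (z i)) = Ψ z) ∧ (∀ w, τ w ∈ A ↔ w ∈ A) := by
        by_cases hin : σ u ∈ A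
        · have hf : Fix A τ := Fix.swap hin (hpu.mp hin)
          exact ⟨hΨA τ hf, fun w => hf.mem⟩
        · have hf : Fix (Ω \ A) τ := Fix.swap (mem_sdiff.mpr ⟨hσuΩ, hin⟩)
            (mem_sdiff.mpr ⟨hσ'uΩ, fun h => hin (hpu.mpr h)⟩)
          exact ⟨hΨB τ hf, hfixmem hf⟩
      have hτΩ : Fix Ω τ := Fix.swap hσuΩ hσ'uΩ
      have hstep := ih (τ * σ) σ' (hτΩ.mul hσ) hσ' (by
        intro v hv hvΩ
        rw [Perm.mul_apply, hτprop.2]
        exact hp v hv hvΩ) (by
        have hsub : ((Finset.univ : Finset (Fin k)).image y).filter (fun v => (τ * σ) v ≠ σ' v) ⊆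
            (((Finset.univ : Finset (Fin k)).image y).filter (fun v => σ v ≠ σ' v)).erase u := by
          intro v
          simp only [mem_filter, mem_erase]
          rintro ⟨h1, h2⟩
          have hvu : v ≠ u := by
            rintro rfl
            apply h2
            rw [Perm.mul_apply, hτ, Equiv.swap_apply_left]
          refine ⟨hvu, h1, ?_⟩
          intro h3
          apply h2
          rw [Perm.mul_apply, hτ, Equiv.swap_apply_of_ne_of_ne, h3]
          · exact fun h => hvu (σ.injective h)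
          · rw [h3]; exact fun h => hvu (σ'.injective h)
        have h6 := Finset.card_le_card hsub
        rw [Finset.card_erase_of_mem hu] at h6
        omega)
      have h5 : Ψ (fun i => (τ * σ) (y i)) = Ψ (fun i => σ (y i)) :=
        hτprop.1 (fun i => σ (y i))
      rw [← h5, hstep]
  -- `Ψ (σ ∘ y)` is a function of the pattern
  set Y : Finset α := ((Finset.univ : Finset (Fin k)).image y) ∩ Ω with hYdef
  have hYΩ : Y ⊆ Ω := Finset.inter_subset_right
  have hYk : Y.card ≤ k := by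
    calc Y.card ≤ ((Finset.univ : Finset (Fin k)).image y).card :=
          Finset.card_le_card Finset.inter_subset_left
      _ ≤ (Finset.univ : Finset (Fin k)).card := Finset.card_image_le
      _ = k := by simp
  classical
  let ψ : Finset α → ℝ := fun T =>
    if h : ∃ σ : Perm α, Fix Ω σ ∧ ∀ u ∈ Y, (σ u ∈ A ↔ u ∈ T) then
      Ψ (fun i => (Classical.choose h) (y i)) else 0
  have hψ : ∀ σ : Perm α, Fix Ω σ →
      Ψ (fun i => σ (y i)) = ∑ T ∈ Y.powerset, ψ T * ind (∀ u ∈ Y, (σ u ∈ A ↔ u ∈ T)) := by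
    intro σ hσ
    have hT0 : (Y.filter (fun u => σ u ∈ A)) ∈ Y.powerset := by
      rw [mem_powerset]; exact Finset.filter_subset _ _
    rw [Finset.sum_eq_single_of_mem _ hT0]
    · have h1 : ∀ u ∈ Y, (σ u ∈ A ↔ u ∈ Y.filter (fun u => σ u ∈ A)) := by
        intro u hu
        simp [mem_filter, hu]
      rw [ind_true h1, mul_one]
      have hex : ∃ σ' : Perm α, Fix Ω σ' ∧
          ∀ u ∈ Y, (σ' u ∈ A ↔ u ∈ Y.filter (fun u => σ u ∈ A)) := ⟨σ, hσ, h1⟩
      simp only [ψ]
      rw [dif_pos hex]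
      obtain ⟨h2, h3⟩ := Classical.choose_spec hex
      refine hpat _ σ _ hσ h2 ?_ le_rfl
      intro u hu huΩ
      have huY : u ∈ Y := mem_inter.mpr ⟨hu, huΩ⟩
      rw [h1 u huY, h3 u huY]
    · intro T hT hne
      rw [ind_false, mul_zero]
      intro h
      apply hne
      ext u
      rw [mem_filter]
      constructor
      · intro hu
        have huY := (mem_powerset.mp hT) hu
        exact ⟨huY, (h u huY).mpr hu⟩
      · rintro ⟨huY, hu⟩
        exact (h u huY).mp hu
  -- conclusion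
  have hfin : ∀ ρ : Perm α, Fix Ω ρ → Ex lD (fun σ => Ψ (fun i => σ (ρ (y i)))) =
      ∑ T ∈ Y.powerset, ψ T * ∑ K ∈ (Y \ T).powerset, (-1 : ℝ) ^ K.card *
        ((A.card.descFactorial (T.card + K.card) : ℝ) /
          (Ω.card.descFactorial (T.card + K.card) : ℝ)) := by
    intro ρ hρ
    have h1 : Ex lD (fun σ => Ψ (fun i => σ (ρ (y i)))) =
        Ex lD (fun σ => ∑ T ∈ Y.powerset, ψ T * ind (∀ u ∈ Y, (σ (ρ u) ∈ A ↔ u ∈ T))) := by
      refine Ex_congr_fix hSD ?_
      intro σ hσ
      exact hψ (σ * ρ) (hσ.mul hρ)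
    rw [h1, Ex_sum]
    refine Finset.sum_congr rfl fun T hT => ?_
    rw [Ex_smul, pattern_prob hD hYΩ hYk (mem_powerset.mp hT) hρ]
  have hre : ∀ z : Fin k → α, Ex ((lA ++ lB) ++ lD) (fun σ => Φ (fun i => σ (z i))) =
      Ex lD (fun σ => Ψ (fun i => σ (z i))) := by
    intro z
    rw [Ex_append, Ex_comm]
    rfl
  rw [hre (fun i => π (y i)), hre y, hfin π hπ]
  exact (hfin 1 Fix.one).symm

/-! ### Perfect shuffles of small sets -/

lemma inv_ins {k : ℕ} {Ω : Finset α} {l : List (RawLT α)} {x : α} (hx : x ∉ Ω)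
    (hI : Inv k Ω l) : Inv k (insert x Ω) (l ++ ins x Ω.toList) := by
  intro y π hπ Φ
  have hRS : Supp (insert x Ω) (ins x Ω.toList) := by
    have := ins_supp x Ω.toList
    simpa using this
  have key : ∀ z : Fin k → α, Ex (l ++ ins x Ω.toList) (fun σ => Φ (fun i => σ (z i))) =
      (∑ w ∈ insert x Ω, Ex l (fun σ => Φ (fun i => σ (Equiv.swap w x (z i))))) /
        ((Ω.card : ℝ) + 1) := by
    intro z
    rw [Ex_append, Ex_comm]
    have h1 : ∀ σ₂ : Perm α, Fix (insert x Ω) σ₂ →
        Ex l (fun σ₁ => Φ (fun i => (σ₁ * σ₂) (z i))) =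
          (fun w => Ex l (fun σ => Φ (fun i => σ (Equiv.swap w x (z i))))) (σ₂.symm x) := by
      intro σ₂ hσ₂
      have hw : σ₂.symm x ∈ insert x Ω := hσ₂.symm.mem.mpr (mem_insert_self _ _)
      set w := σ₂.symm x with hwdef
      have hρ : Fix Ω (σ₂ * Equiv.swap w x) := by
        intro v hv
        rw [Perm.mul_apply]
        by_cases hvx : v = x
        · rw [hvx, Equiv.swap_apply_right, hwdef, Equiv.apply_symm_apply]
        · have hv' : v ∉ insert x Ω := fun h => (mem_insert.mp h).elim hvx hv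
          rw [Equiv.swap_apply_of_ne_of_ne (fun h => hv' (by rw [h]; exact hw)) hvx, hσ₂ v hv']
      have h2 := hI (fun i => Equiv.swap w x (z i)) _ hρ Φ
      simp only [Perm.mul_apply, Equiv.swap_apply_self] at h2
      exact h2
    rw [Ex_congr_fix hRS h1]
    rw [ins_law x Ω.toList Ω.nodup_toList (by simpa using hx)
      (fun w => Ex l (fun σ => Φ (fun i => σ (Equiv.swap w x (z i)))))]
    rw [Finset.sum_insert hx, Finset.sum_map_toList, Finset.length_toList]
  rw [key, key]
  congr 1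
  -- reindex by `π`
  refine Finset.sum_bij (fun w _ => π.symm w) ?_ ?_ ?_ ?_
  · intro w hw
    exact hπ.symm.mem.mpr hw
  · intro a _ b _ hab
    exact π.symm.injective hab
  · intro b hb
    exact ⟨π b, hπ.mem.mpr hb, by simp⟩
  · intro w hw
    have hρ : Fix Ω (Equiv.swap w x * π * Equiv.swap (π.symm w) x) := by
      intro v hv
      rw [Perm.mul_apply, Perm.mul_apply]
      by_cases hvx : v = x
      · rw [hvx, Equiv.swap_apply_right, Equiv.apply_symm_apply, Equiv.swap_apply_left]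
      · have hv' : v ∉ insert x Ω := fun h => (mem_insert.mp h).elim hvx hv
        have hw' : π.symm w ∈ insert x Ω := hπ.symm.mem.mpr hw
        rw [Equiv.swap_apply_of_ne_of_ne (fun h => hv' (by rw [h]; exact hw')) hvx, hπ v hv',
          Equiv.swap_apply_of_ne_of_ne (fun h => hv' (by rw [h]; exact hw)) hvx]
    have h2 := hI (fun i => Equiv.swap (π.symm w) x (y i)) _ hρ Φ
    simp only [Perm.mul_apply, Equiv.swap_apply_self] at h2
    exact h2

lemma exists_perfect (k : ℕ) (Ω : Finset α) :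
    ∃ l : List (RawLT α), Valid l ∧ Supp Ω l ∧ Inv k Ω l ∧ l.length ≤ Ω.card * Ω.card := by
  induction Ω using Finset.induction_on with
  | empty =>
    refine ⟨[], by intro t ht; simp at ht, by intro t ht; simp at ht, ?_, by simp⟩
    intro y π hπ Φ
    have : π = 1 := by
      ext z
      exact hπ z (by simp)
    simp [this]
  | insert x Ω hx ih =>
    obtain ⟨l, hV, hS, hI, hlen⟩ := ih
    refine ⟨l ++ ins x Ω.toList, hV.append (ins_valid x _ (by simpa using hx)), ?_,
      inv_ins hx hI, ?_⟩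
    · refine (hS.mono (Finset.subset_insert _ _)).append ?_
      have := ins_supp x Ω.toList
      simpa using this
    · rw [List.length_append, ins_length, Finset.length_toList, Finset.card_insert_of_notMem hx]
      nlinarith

/-! ### Lengths -/

lemma clog_half {n j : ℕ} (hn : 2 ≤ n) (hj : j ≤ (n + 1) / 2) :
    Nat.clog 2 j + 1 ≤ Nat.clog 2 n := by
  have h := Nat.clog_of_two_le (b := 2) (by norm_num) hn
  rw [h]
  have : Nat.clog 2 j ≤ Nat.clog 2 ((n + 2 - 1) / 2) :=
    Nat.clog_mono_right 2 (by simpa using hj)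
  omega

lemma pow_ineq (L e : ℕ) : L ^ (e + 1) + (L + 1) ^ e ≤ (L + 1) ^ (e + 1) := by
  have h1 : L ^ e ≤ (L + 1) ^ e := Nat.pow_le_pow_left (by omega) e
  have h2 : (L + 1) ^ (e + 1) = (L + 1) ^ e * L + (L + 1) ^ e := by ring
  rw [h2, pow_succ]
  exact Nat.add_le_add_right (Nat.mul_le_mul_right L h1) _

lemma len_bound {C' n L j1 j2 e a1 a2 b : ℕ} (hj : j1 + j2 ≤ n)
    (h1 : a1 ≤ C' * j1 * L ^ (e + 1)) (h2 : a2 ≤ C' * j2 * L ^ (e + 1))
    (hb : b ≤ C' * n * (L + 1) ^ e) : a1 + a2 + b ≤ C' * n * (L + 1) ^ (e + 1) := by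
  calc a1 + a2 + b ≤ C' * j1 * L ^ (e + 1) + C' * j2 * L ^ (e + 1) + C' * n * (L + 1) ^ e := by
        omega
    _ = C' * (j1 + j2) * L ^ (e + 1) + C' * n * (L + 1) ^ e := by ring
    _ ≤ C' * n * L ^ (e + 1) + C' * n * (L + 1) ^ e := by
        gcongr
    _ = C' * n * (L ^ (e + 1) + (L + 1) ^ e) := by ring
    _ ≤ C' * n * (L + 1) ^ (e + 1) := Nat.mul_le_mul_left _ (pow_ineq L e)

lemma exists_des (m C : ℕ)
    (hC : ∀ Ω : Finset α, ∃ τ : List (RawLT α), Valid τ ∧ Supp Ω τ ∧ Inv m Ω τ ∧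
      τ.length ≤ C * Ω.card * (Nat.clog 2 Ω.card + 1) ^ (2 * m)) :
    ∀ n : ℕ, ∀ Ω A : Finset α, A ⊆ Ω → Ω.card = n →
      ∃ l : List (RawLT α), Valid l ∧ Supp Ω l ∧ Des (m + 1) Ω A l ∧
        l.length ≤ (C + 2 * m + 5) * n * (Nat.clog 2 n + 1) ^ (2 * m + 1) := by
  intro n
  induction n using Nat.strong_induction_on with
  | _ n ih =>
  intro Ω A hA hn
  rcases Nat.lt_or_ge n (2 * m + 4) with hsmall | hbig
  · obtain ⟨l, hV, hS, hI, hlen⟩ := exists_perfect (m + 1) Ω
    refine ⟨l, hV, hS, hI.des hS hA, hlen.trans ?_⟩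
    rw [hn]
    calc n * n ≤ (C + 2 * m + 5) * n * 1 := by nlinarith
      _ ≤ (C + 2 * m + 5) * n * (Nat.clog 2 n + 1) ^ (2 * m + 1) :=
        Nat.mul_le_mul_left _ (Nat.one_le_pow _ _ (by omega))
  · set n1 := n / 2 with hn1
    set N := n - n / 2 with hN
    have hsum : n1 + N = n := by omega
    have ha : A.card ≤ n1 + N := by
      rw [hsum, ← hn]; exact Finset.card_le_card hA
    obtain ⟨s, t, hst, hs, ht, hdich⟩ :=
      sign_change (k := m + 1) (n1 := n1) (N := N) (a := A.card) (by omega) (by omega) (by omega) ha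
    obtain ⟨As, hAs, hAsc⟩ := Finset.exists_subset_card_eq (show s ≤ A.card by omega)
    have hdiffcard : (Ω \ A).card = n - A.card := by
      rw [Finset.card_sdiff_of_subset hA, hn]
    obtain ⟨Bs, hBs, hBsc⟩ := Finset.exists_subset_card_eq (show n1 - s ≤ (Ω \ A).card by omega)
    have hABdisj : Disjoint As Bs := Finset.disjoint_of_subset_left hAs
      (Finset.disjoint_of_subset_right hBs Finset.disjoint_sdiff)
    set Ap := As ∪ Bs with hAp
    set Bp := Ω \ Ap with hBp
    have hApΩ : Ap ⊆ Ω := Finset.union_subset (hAs.trans hA) (hBs.trans Finset.sdiff_subset)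
    have hApc : Ap.card = n1 := by
      rw [hAp, Finset.card_union_of_disjoint hABdisj]; omega
    have hBpc : Bp.card = N := by
      rw [hBp, Finset.card_sdiff_of_subset hApΩ, hn, hApc]
    have hdisj : Disjoint Ap Bp := Finset.disjoint_sdiff
    have hU : Ap ∪ Bp = Ω := Finset.union_sdiff_of_subset hApΩ
    have hBpΩ : Bp ⊆ Ω := Finset.sdiff_subset
    have hAAp : A ∩ Ap = As := by
      ext z
      simp only [hAp, mem_inter, mem_union]
      constructor
      · rintro ⟨h1, h2 | h2⟩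
        · exact h2
        · exact absurd h1 (mem_sdiff.mp (hBs h2)).2
      · intro h; exact ⟨hAs h, Or.inl h⟩
    have hAApc : (A ∩ Ap).card = s := by rw [hAAp, hAsc]
    have hABpc : (A ∩ Bp).card = t := by
      have h1 : (A ∩ Ap).card + (A ∩ Bp).card = A.card := by
        rw [← Finset.card_union_of_disjoint]
        · congr 1
          rw [← Finset.inter_union_distrib_left, hU, Finset.inter_eq_left.mpr hA]
        · exact Finset.disjoint_of_subset_left Finset.inter_subset_right
            (Finset.disjoint_of_subset_right Finset.inter_subset_right hdisj)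
      omega
    obtain ⟨τ, hτV, hτS, hτI, hτlen⟩ := hC Ω
    rw [hn] at hτlen
    have hL : ∀ j : ℕ, j ≤ (n + 1) / 2 → Nat.clog 2 j + 1 ≤ Nat.clog 2 n :=
      fun j hj => clog_half (by omega) hj
    set L := Nat.clog 2 n with hLdef
    have hτb : τ.length + n ≤ (C + 2 * m + 5) * n * (L + 1) ^ (2 * m) := by
      have h1 : 1 ≤ (L + 1) ^ (2 * m) := Nat.one_le_pow _ _ (by omega)
      calc τ.length + n ≤ C * n * (L + 1) ^ (2 * m) + n * 1 := by omega
        _ ≤ C * n * (L + 1) ^ (2 * m) + n * (L + 1) ^ (2 * m) :=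
            Nat.add_le_add_left (Nat.mul_le_mul_left n h1) _
        _ = (C + 1) * n * (L + 1) ^ (2 * m) := by ring
        _ ≤ (C + 2 * m + 5) * n * (L + 1) ^ (2 * m) :=
            Nat.mul_le_mul_right _ (Nat.mul_le_mul_right _ (by omega))
    rcases hdich with hzero | ⟨hs1, ht1, hneg⟩
    · -- the functional vanishes
      obtain ⟨l1, hV1, hS1, hD1, hlen1⟩ := ih n1 (by omega) Ap (A ∩ Ap) Finset.inter_subset_right hApc
      obtain ⟨l2, hV2, hS2, hD2, hlen2⟩ := ih N (by omega) Bp (A ∩ Bp) Finset.inter_subset_right hBpc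
      refine ⟨(l1 ++ l2) ++ τ, (hV1.append hV2).append hτV,
        ((hS1.mono hApΩ).append (hS2.mono hBpΩ)).append hτS,
        des_step_zero hA hdisj hU hS1 hS2 hτS hD1 hD2 hτI ?_, ?_⟩
      · rw [hApc, hBpc, hAApc, hABpc]; exact hzero
      · rw [List.length_append, List.length_append]
        refine len_bound (j1 := n1) (j2 := N) (by omega) (hlen1.trans ?_) (hlen2.trans ?_)
          (le_trans (by omega) hτb)
        · exact Nat.mul_le_mul_left _ (Nat.pow_le_pow_left (hL n1 (by omega)) _)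
        · exact Nat.mul_le_mul_left _ (Nat.pow_le_pow_left (hL N (by omega)) _)
    · -- one lazy transposition
      obtain ⟨x, hx⟩ : (A ∩ Ap).Nonempty := Finset.card_pos.mp (by omega)
      obtain ⟨y, hy⟩ : (Bp \ (A ∩ Bp)).Nonempty := by
        apply Finset.card_pos.mp
        rw [Finset.card_sdiff_of_subset Finset.inter_subset_right]
        omega
      have hxA : x ∈ A := (mem_inter.mp hx).1
      have hxAp : x ∈ Ap := (mem_inter.mp hx).2
      have hyBp : y ∈ Bp := (mem_sdiff.mp hy).1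
      have hyA : y ∉ A := fun h => (mem_sdiff.mp hy).2 (mem_inter.mpr ⟨h, hyBp⟩)
      have hxy : x ≠ y := fun h => hyA (h ▸ hxA)
      obtain ⟨l1, hV1, hS1, hD1, hlen1⟩ := ih (n1 - 1) (by omega) (Ap.erase x) ((A ∩ Ap).erase x)
        (Finset.erase_subset_erase x Finset.inter_subset_right)
        (by rw [Finset.card_erase_of_mem hxAp, hApc])
      obtain ⟨l2, hV2, hS2, hD2, hlen2⟩ := ih (N - 1) (by omega) (Bp.erase y) (A ∩ Bp)
        (by
          intro z hz
          exact mem_erase.mpr ⟨fun h => hyA (h ▸ (mem_inter.mp hz).1), (mem_inter.mp hz).2⟩)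
        (by rw [Finset.card_erase_of_mem hyBp, hBpc])
      have hI1 := Des_ins (Finset.notMem_erase x Ap) hS1
        (Finset.erase_subset_erase x Finset.inter_subset_right) hD1
      have hI2 := Des_ins (Finset.notMem_erase y Bp) hS2
        (by
          intro z hz
          exact mem_erase.mpr ⟨fun h => hyA (h ▸ (mem_inter.mp hz).1), (mem_inter.mp hz).2⟩) hD2
      rw [Finset.insert_erase hxAp, Finset.insert_erase hx] at hI1
      rw [Finset.insert_erase hyBp] at hI2
      set R1 := l1 ++ ins x (Ap.erase x).toList with hR1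
      set R2 := l2 ++ ins y (Bp.erase y).toList with hR2
      have hSR1 : Supp Ap R1 := by
        refine (hS1.mono (Finset.erase_subset _ _)).append ?_
        have := ins_supp x (Ap.erase x).toList
        simpa [Finset.insert_erase hxAp] using this
      have hSR2 : Supp Bp R2 := by
        refine (hS2.mono (Finset.erase_subset _ _)).append ?_
        have := ins_supp y (Bp.erase y).toList
        simpa [Finset.insert_erase hyBp] using this
      have hVR1 : Valid R1 := hV1.append (ins_valid x _ (by simp))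
      have hVR2 : Valid R2 := hV2.append (ins_valid y _ (by simp))
      -- the probability
      set ψ0 := psi (m + 1) n1 N s t with hψ0
      set ψ1 := psi (m + 1) n1 N (s - 1) (t + 1) with hψ1
      have hne : ψ0 - ψ1 ≠ 0 := by
        intro h
        have : ψ0 = ψ1 := by linarith
        rw [this] at hneg
        nlinarith [mul_self_nonneg ψ1]
      have hp0 : 0 ≤ ψ0 / (ψ0 - ψ1) := by
        rcases mul_neg_iff.mp hneg with ⟨h1, h2⟩ | ⟨h1, h2⟩
        · exact div_nonneg h1.le (by linarith)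
        · exact div_nonneg_of_nonpos h1.le (by linarith)
      have hp1 : ψ0 / (ψ0 - ψ1) ≤ 1 := by
        rcases mul_neg_iff.mp hneg with ⟨h1, h2⟩ | ⟨h1, h2⟩
        · rw [div_le_one (by linarith)]; linarith
        · rw [div_le_one_of_neg (by linarith)]; linarith
      refine ⟨(⟨x, y, ψ0 / (ψ0 - ψ1)⟩ :: (R1 ++ R2)) ++ τ, ?_, ?_,
        des_step_change hA hdisj hU hSR1 hSR2 hτS hxA hxAp hyA hyBp hI1.2 hI1.1 hI2.1 hI2.2 hτI ?_,
        ?_⟩
      · intro r hr
        rcases List.mem_append.mp hr with h | h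
        · rcases List.mem_cons.mp h with rfl | h
          · exact ⟨hxy, hp0, hp1⟩
          · exact (hVR1.append hVR2) r h
        · exact hτV r h
      · intro r hr
        rcases List.mem_append.mp hr with h | h
        · rcases List.mem_cons.mp h with rfl | h
          · exact ⟨hApΩ hxAp, hBpΩ hyBp⟩
          · exact ((hSR1.mono hApΩ).append (hSR2.mono hBpΩ)) r h
        · exact hτS r h
      · rw [hApc, hBpc, hAApc, hABpc, ← hψ0, ← hψ1]
        field_simp
        ring
      · have hlR1 : R1.length = l1.length + (n1 - 1) := by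
          rw [hR1, List.length_append, ins_length, Finset.length_toList,
            Finset.card_erase_of_mem hxAp, hApc]
        have hlR2 : R2.length = l2.length + (N - 1) := by
          rw [hR2, List.length_append, ins_length, Finset.length_toList,
            Finset.card_erase_of_mem hyBp, hBpc]
        rw [List.length_append, List.length_cons, List.length_append, hlR1, hlR2]
        have := len_bound (C' := C + 2 * m + 5) (n := n) (L := L) (j1 := n1 - 1) (j2 := N - 1)
          (e := 2 * m) (a1 := l1.length) (a2 := l2.length) (b := τ.length + n) (by omega)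
          (hlen1.trans (Nat.mul_le_mul_left _ (Nat.pow_le_pow_left (hL (n1 - 1) (by omega)) _)))
          (hlen2.trans (Nat.mul_le_mul_left _ (Nat.pow_le_pow_left (hL (N - 1) (by omega)) _)))
          hτb
        omega

/-- `k`-wise shuffles of length `O(n (log n)^{2k})` exist on every finite set. -/
theorem exists_inv (k : ℕ) : ∃ C : ℕ, ∀ (α : Type) [DecidableEq α] (Ω : Finset α),
    ∃ l : List (RawLT α), Valid l ∧ Supp Ω l ∧ Inv k Ω l ∧
      l.length ≤ C * Ω.card * (Nat.clog 2 Ω.card + 1) ^ (2 * k) := by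
  induction k with
  | zero =>
    refine ⟨0, fun α _ Ω => ⟨[], by intro t ht; simp at ht, by intro t ht; simp at ht, ?_,
      by simp⟩⟩
    intro y π hπ Φ
    congr 1
    funext σ
    congr 1
    funext i
    exact i.elim0
  | succ m ih =>
    obtain ⟨C, hC⟩ := ih
    refine ⟨C + 2 * m + 5, ?_⟩
    intro α _ Ω
    induction hn : Ω.card using Nat.strong_induction_on generalizing Ω with
    | _ n ih2 =>
    rcases Nat.lt_or_ge n 2 with hsmall | hbig
    · refine ⟨[], by intro t ht; simp at ht, by intro t ht; simp at ht, ?_, by simp⟩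
      intro y π hπ Φ
      have hπ1 : π = 1 := by
        have hle : Ω.card ≤ 1 := by omega
        ext z
        by_cases hz : z ∈ Ω
        · have h1 : π z ∈ Ω := hπ.mem.mpr hz
          exact Finset.card_le_one.mp hle _ h1 _ hz
        · exact hπ z hz
      simp [hπ1]
    · obtain ⟨A, hA, hAc⟩ := Finset.exists_subset_card_eq (show n / 2 ≤ Ω.card by omega)
      have hBc : (Ω \ A).card = n - n / 2 := by
        rw [Finset.card_sdiff_of_subset hA, hn, hAc]
      obtain ⟨lA, hVA, hSA, hIA, hlenA⟩ := ih2 (n / 2) (by omega) A hAc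
      obtain ⟨lB, hVB, hSB, hIB, hlenB⟩ := ih2 (n - n / 2) (by omega) (Ω \ A) hBc
      obtain ⟨lD, hVD, hSD, hD, hlenD⟩ := exists_des m C (fun Ω => hC α Ω) n Ω A hA hn
      refine ⟨(lA ++ lB) ++ lD, (hVA.append hVB).append hVD,
        ((hSA.mono hA).append (hSB.mono Finset.sdiff_subset)).append hSD,
        inv_step hSA hIA hSB hIB hSD hD, ?_⟩
      rw [List.length_append, List.length_append]
      have e1 : 2 * (m + 1) = (2 * m + 1) + 1 := by ring
      rw [e1] at hlenA hlenB ⊢
      exact len_bound (j1 := n / 2) (j2 := n - n / 2) (by omega)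
        (hlenA.trans (Nat.mul_le_mul_left _ (Nat.pow_le_pow_left (clog_half hbig (by omega)) _)))
        (hlenB.trans (Nat.mul_le_mul_left _ (Nat.pow_le_pow_left (clog_half hbig (by omega)) _)))
        hlenD

end Pool.Agent.H54.Shuffle
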